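import Pool.Agent.Lib_MP_c084f5_al.Basic

/-!
# Piece C2: consequences of an arithmetic set of pseudo-Frobenius numbers (`n ≥ 3`)
Notation in the comments: `H = sgp a`, `E = {x ∈ H | h - x ∈ H}`, `L = {x ∈ H | x + α ∈ H}`.
-/

namespace Pool.Agent.NumSgp

/-- `PF(H) = {h + α, .., h + (n-1) α}` and `α > 0`. -/
def ArithPF {n : ℕ} (a : Fin n → ℕ) (h α : ℤ) : Prop :=
  0 < α ∧ PF a = {x | ∃ j : ℕ, 1 ≤ j ∧ j < n ∧ x = h + j * α}

theorem ArithPF.mem_PF {n : ℕ} {a : Fin n → ℕ} {h α : ℤ} (hp : ArithPF a h α) {j : ℕ}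
    (h1 : 1 ≤ j) (hj : j < n) : h + j * α ∈ PF a := by
  rw [hp.2]
  exact ⟨j, h1, hj, rfl⟩

/-- `h + jα ∉ H` for `1 ≤ j < n`. -/
theorem ArithPF.not_mem_h {n : ℕ} {a : Fin n → ℕ} {h α : ℤ} (hp : ArithPF a h α) {j : ℕ}
    (h1 : 1 ≤ j) (hj : j < n) : h + j * α ∉ sgp a :=
  (hp.mem_PF h1 hj).1

/-- Duality for an arithmetic set: `z ∉ H` implies `h + jα - z ∈ H` for some `1 ≤ j < n`. -/
theorem ArithPF.dual {n : ℕ} {a : Fin n → ℕ} {h α : ℤ} (ha : Finset.univ.gcd a = 1)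
    (hp : ArithPF a h α) {z : ℤ} (hz : z ∉ sgp a) :
    ∃ j : ℕ, 1 ≤ j ∧ j < n ∧ h + j * α - z ∈ sgp a := by
  obtain ⟨P, hP, hPz⟩ := exists_PF_sub_mem ha hz
  rw [hp.2] at hP
  obtain ⟨j, h1, hj, rfl⟩ := hP
  exact ⟨j, h1, hj, hPz⟩

/-- `α ∉ H`: otherwise `h + 2α = (h + α) + α ∈ H` as `h + α ∈ PF`. -/
theorem ArithPF.alpha_not_mem {n : ℕ} (hn : 3 ≤ n) {a : Fin n → ℕ} {h α : ℤ}
    (hp : ArithPF a h α) : α ∉ sgp a := by
  intro hα
  have h1 := (hp.mem_PF (le_refl 1) (by omega : 1 < n)).2 α hα hp.1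
  refine hp.not_mem_h (j := 2) (by omega) (by omega) ?_
  have : h + ((2 : ℕ) : ℤ) * α = h + ((1 : ℕ) : ℤ) * α + α := by push_cast; ring
  rw [this]
  exact h1

/-- `h ∈ H`: `α ∉ H` gives `h + (j-1)α ∈ H` for some `1 ≤ j < n`, so `j = 1`. -/
theorem ArithPF.h_mem {n : ℕ} (hn : 3 ≤ n) {a : Fin n → ℕ} {h α : ℤ}
    (ha : Finset.univ.gcd a = 1) (hp : ArithPF a h α) : h ∈ sgp a := by
  obtain ⟨j, h1, hj, hmem⟩ := hp.dual ha (hp.alpha_not_mem hn)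
  rcases Nat.lt_or_ge 1 j with h2 | h2
  · exfalso
    refine hp.not_mem_h (j := j - 1) (by omega) (by omega) ?_
    have : h + ((j - 1 : ℕ) : ℤ) * α = h + (j : ℤ) * α - α := by
      rw [Nat.cast_sub h1]
      push_cast
      ring
    rw [this]
    exact hmem
  · have : j = 1 := by omega
    subst this
    have h3 : h + ((1 : ℕ) : ℤ) * α - α = h := by push_cast; ring
    rwa [h3] at hmem

/-- If `x ∈ E` then `x + jα ∉ H` for `1 ≤ j < n` (add `h - x`). -/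
theorem ArithPF.not_mem_of_E {n : ℕ} {a : Fin n → ℕ} {h α : ℤ} (hp : ArithPF a h α) {x : ℤ}
    (hx : h - x ∈ sgp a) {j : ℕ} (h1 : 1 ≤ j) (hj : j < n) : x + j * α ∉ sgp a := by
  intro hmem
  refine hp.not_mem_h h1 hj ?_
  have : h + (j : ℤ) * α = (h - x) + (x + j * α) := by ring
  rw [this]
  exact (sgp a).add_mem hx hmem

/-- `x ∈ H` lies in `E` or in `L`: if `x + α ∉ H` then `h + (j-1)α - x ∈ H` for some `1 ≤ j < n`;
`j ≥ 2` would give `h + (j-1)α ∈ H`; so `j = 1`. -/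
theorem ArithPF.E_or_L {n : ℕ} {a : Fin n → ℕ} {h α : ℤ} (ha : Finset.univ.gcd a = 1)
    (hp : ArithPF a h α) {x : ℤ} (hx : x ∈ sgp a) : h - x ∈ sgp a ∨ x + α ∈ sgp a := by
  by_contra hcon
  rw [not_or] at hcon
  obtain ⟨hE, hL⟩ := hcon
  obtain ⟨j, h1, hj, hmem⟩ := hp.dual ha hL
  rcases Nat.lt_or_ge 1 j with h2 | h2
  · refine hp.not_mem_h (j := j - 1) (by omega) (by omega) ?_
    have : h + ((j - 1 : ℕ) : ℤ) * α = (h + (j : ℤ) * α - (x + α)) + x := by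
      rw [Nat.cast_sub h1]
      push_cast
      ring
    rw [this]
    exact (sgp a).add_mem hmem hx
  · have : j = 1 := by omega
    subst this
    refine hE ?_
    have h3 : h + ((1 : ℕ) : ℤ) * α - (x + α) = h - x := by push_cast; ring
    rwa [h3] at hmem

/-- If `z ∈ H`, `z - α ∉ H` then `h + nα - z ∈ H`: duality gives `h + (j+1)α - z ∈ H`, and
`j + 1 < n` is impossible. -/
theorem ArithPF.D_dvd {n : ℕ} {a : Fin n → ℕ} {h α : ℤ} (ha : Finset.univ.gcd a = 1)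
    (hp : ArithPF a h α) {z : ℤ} (hz : z ∈ sgp a) (hz' : z - α ∉ sgp a) :
    h + n * α - z ∈ sgp a := by
  obtain ⟨j, h1, hj, hmem⟩ := hp.dual ha hz'
  have key : h + (j : ℤ) * α - (z - α) = h + ((j + 1 : ℕ) : ℤ) * α - z := by
    push_cast
    ring
  rw [key] at hmem
  rcases Nat.lt_or_ge (j + 1) n with h2 | h2
  · exfalso
    refine hp.not_mem_h (j := j + 1) (by omega) h2 ?_
    have : h + ((j + 1 : ℕ) : ℤ) * α = (h + ((j + 1 : ℕ) : ℤ) * α - z) + z := by ring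
    rw [this]
    exact (sgp a).add_mem hmem hz
  · have : j + 1 = n := by omega
    rwa [this] at hmem

end Pool.Agent.NumSgp
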