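import Pool.Agent.Lib_MP_c084f5_al.Defs

/-!
# Piece C1: the semigroup and its pseudo-Frobenius numbers
-/

namespace Pool.Agent.NumSgp

/-- The elements of the semigroup are the sums `∑ c_i a_i`. -/
theorem mem_sgp_iff {n : ℕ} (a : Fin n → ℕ) (x : ℤ) :
    x ∈ sgp a ↔ ∃ c : Fin n → ℕ, x = ∑ i, (c i : ℤ) * a i := by
  constructor
  · intro hx
    unfold sgp at hx
    induction hx using AddSubmonoid.closure_induction with
    | mem x hx =>
      obtain ⟨i, rfl⟩ := hx
      refine ⟨Pi.single i 1, ?_⟩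
      rw [Finset.sum_eq_single i]
      · simp
      · intro j _ hj
        simp [Pi.single_eq_of_ne hj]
      · simp
    | zero => exact ⟨0, by simp⟩
    | add x y _ _ hx hy =>
      obtain ⟨c, rfl⟩ := hx
      obtain ⟨d, rfl⟩ := hy
      refine ⟨c + d, ?_⟩
      rw [← Finset.sum_add_distrib]
      refine Finset.sum_congr rfl fun i _ => ?_
      simp only [Pi.add_apply]
      push_cast
      ring
  · rintro ⟨c, rfl⟩
    refine AddSubmonoid.sum_mem _ fun i _ => ?_
    have h : ((c i : ℤ) * a i) = c i • (a i : ℤ) := by simp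
    rw [h]
    exact AddSubmonoid.nsmul_mem _ (AddSubmonoid.subset_closure (Set.mem_range_self i)) _

theorem gen_mem_sgp {n : ℕ} (a : Fin n → ℕ) (i : Fin n) : (a i : ℤ) ∈ sgp a :=
  AddSubmonoid.subset_closure ⟨i, rfl⟩

theorem nonneg_of_mem_sgp {n : ℕ} (a : Fin n → ℕ) {x : ℤ} (hx : x ∈ sgp a) : 0 ≤ x := by
  obtain ⟨c, rfl⟩ := (mem_sgp_iff a x).1 hx
  exact Finset.sum_nonneg fun i _ => by positivity

/-- All large integers lie in the semigroup (the gcd of the `a i` is one). -/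
theorem exists_conductor {n : ℕ} {a : Fin n → ℕ} (ha : Finset.univ.gcd a = 1) :
    ∃ N : ℤ, ∀ x, N ≤ x → x ∈ sgp a := by
  obtain ⟨N, hN⟩ := Nat.exists_mem_closure_of_ge (s := Set.range a)
  have hg : Nat.setGcd (Set.range a) = 1 := by
    have h1 : Nat.setGcd (Set.range a) ∣ Finset.univ.gcd a := by
      refine Finset.dvd_gcd fun i _ => ?_
      exact Nat.setGcd_dvd_of_mem ⟨i, rfl⟩
    rw [ha] at h1
    exact Nat.dvd_one.1 h1
  refine ⟨N, fun x hx => ?_⟩
  obtain ⟨m, rfl⟩ := Int.eq_ofNat_of_zero_le (le_trans (Int.natCast_nonneg N) hx)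
  have hm : m ∈ AddSubmonoid.closure (Set.range a) :=
    hN m (by exact_mod_cast hx) (by rw [hg]; exact one_dvd _)
  clear hx
  induction hm using AddSubmonoid.closure_induction with
  | mem x hx =>
    obtain ⟨i, rfl⟩ := hx
    exact gen_mem_sgp a i
  | zero => exact (sgp a).zero_mem
  | add x y _ _ hx hy =>
    push_cast
    exact (sgp a).add_mem hx hy

/-- Duality. Proof: `T = {z + s | s ∈ sgp a, z + s ∉ sgp a}` contains `z` and is bounded above by
`exists_conductor`; its largest element `P = z + s` is a pseudo-Frobenius number: if `t ∈ sgp a`,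
`t > 0`, then `P + t = z + (s + t) > P` is not in `T`, so it is in `sgp a`. -/
theorem exists_PF_sub_mem {n : ℕ} {a : Fin n → ℕ} (ha : Finset.univ.gcd a = 1) {z : ℤ}
    (hz : z ∉ sgp a) : ∃ P ∈ PF a, P - z ∈ sgp a := by
  obtain ⟨N, hN⟩ := exists_conductor ha
  obtain ⟨P, ⟨hP1, hP2⟩, hmax⟩ := Int.exists_greatest_of_bdd
    (P := fun y => y - z ∈ sgp a ∧ y ∉ sgp a)
    ⟨N, fun y hy => by
      by_contra hlt
      exact hy.2 (hN y (by omega))⟩
    ⟨z, by rw [sub_self]; exact (sgp a).zero_mem, hz⟩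
  refine ⟨P, ⟨hP2, fun t ht htpos => ?_⟩, hP1⟩
  by_contra hnot
  have := hmax (P + t) ⟨by
    have : P + t - z = (P - z) + t := by ring
    rw [this]
    exact (sgp a).add_mem hP1 ht, hnot⟩
  omega

end Pool.Agent.NumSgp
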