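import Mathlib

/-!
# Piece C6: connectivity of the factorizations by the moves of the matrix
This file is purely combinatorial: integers `a i > 0`, `α > 0`, exponents `l i`, `m i` and a
permutation `π` with `l_i a_i + α = m_(π i) a_(π i)`.
-/

namespace Pool.Agent.NumSgp

/-- One move: replace `l_i e_i + m_(π j) e_(π j)` by `l_j e_j + m_(π i) e_(π i)`. -/
def Move {n : ℕ} (π : Equiv.Perm (Fin n)) (l m : Fin n → ℕ) (c c' : Fin n → ℕ) : Prop :=
  ∃ (d : Fin n → ℕ) (i j : Fin n),
    c = d + Pi.single i (l i) + Pi.single (π j) (m (π j)) ∧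
    c' = d + Pi.single j (l j) + Pi.single (π i) (m (π i))

theorem move_of_eq {n : ℕ} {π : Equiv.Perm (Fin n)} {l m : Fin n → ℕ} {d d' : Fin n → ℕ}
    {i i' : Fin n} (h : d + Pi.single i (l i) = d' + Pi.single i' (l i')) :
    Relation.ReflTransGen (Move π l m) (d + Pi.single (π i) (m (π i)))
      (d' + Pi.single (π i') (m (π i'))) := by
  by_cases hii : i = i'
  · subst hii
    have : d = d' := add_right_cancel h
    rw [this]
  · apply Relation.ReflTransGen.single
    have hval : ∀ z, d z + (Pi.single i (l i) : Fin n → ℕ) z =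
        d' z + (Pi.single i' (l i') : Fin n → ℕ) z := fun z => congrFun h z
    have h1 : ∀ z, (Pi.single i' (l i') : Fin n → ℕ) z ≤ d z := by
      intro z
      by_cases hz : z = i'
      · subst hz
        have := hval z
        rw [Pi.single_eq_of_ne (Ne.symm hii), Pi.single_eq_same] at this
        rw [Pi.single_eq_same]
        omega
      · rw [Pi.single_eq_of_ne hz]; exact Nat.zero_le _
    have h2 : d = (d - Pi.single i' (l i')) + Pi.single i' (l i') := by
      funext z
      simp only [Pi.add_apply, Pi.sub_apply]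
      have := h1 z
      omega
    have h3 : d' = (d - Pi.single i' (l i')) + Pi.single i (l i) := by
      funext z
      simp only [Pi.add_apply, Pi.sub_apply]
      have := h1 z
      have := hval z
      omega
    refine ⟨d - Pi.single i' (l i'), i', i, ?_, ?_⟩
    · rw [← h2]
    · rw [← h3]

theorem lift_chain {n : ℕ} {π : Equiv.Perm (Fin n)} {l m : Fin n → ℕ} {c c' : Fin n → ℕ}
    (h : Relation.ReflTransGen (Move π l m) c c') :
    ∀ (d d' : Fin n → ℕ) (i i' : Fin n), c = d + Pi.single i (l i) →
      c' = d' + Pi.single i' (l i') →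
      Relation.ReflTransGen (Move π l m) (d + Pi.single (π i) (m (π i)))
        (d' + Pi.single (π i') (m (π i'))) := by
  induction h using Relation.ReflTransGen.head_induction_on with
  | refl =>
    intro d d' i i' h1 h2
    exact move_of_eq (h1.symm.trans h2)
  | head hstep _ ih =>
    intro d d' i i' h1 h2
    obtain ⟨e, p, q, hc, hc1⟩ := hstep
    have e1 : d + Pi.single i (l i) = (e + Pi.single (π q) (m (π q))) + Pi.single p (l p) := by
      rw [← h1, hc]
      abel
    have s1 := move_of_eq (π := π) (m := m) e1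
    have s2 := ih (e + Pi.single (π p) (m (π p))) d' q i' (by rw [hc1]; abel) h2
    have e2 : (e + Pi.single (π q) (m (π q))) + Pi.single (π p) (m (π p)) =
        (e + Pi.single (π p) (m (π p))) + Pi.single (π q) (m (π q)) := by abel
    rw [e2] at s1
    exact s1.trans s2

theorem sum_add_single {n : ℕ} (a : Fin n → ℕ) (d : Fin n → ℕ) (j : Fin n) (v : ℕ) :
    ∑ i, ((d + Pi.single j v : Fin n → ℕ) i : ℤ) * a i =
      (∑ i, (d i : ℤ) * a i) + v * a j := by
  have h1 : ∀ i, ((d + Pi.single j v : Fin n → ℕ) i : ℤ) * a i =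
      (d i : ℤ) * a i + (if i = j then (v : ℤ) * a j else 0) := by
    intro i
    by_cases h : i = j
    · subst h
      rw [if_pos rfl, Pi.add_apply, Pi.single_eq_same]
      push_cast
      ring
    · rw [if_neg h, Pi.add_apply, Pi.single_eq_of_ne h]
      simp
  rw [Finset.sum_congr rfl (fun i _ => h1 i), Finset.sum_add_distrib]
  simp

/-- Let `P` be a set of integers (the set `sgp a` in the application) such that
(u) a factorization `b` with `∑ b_i a_i - α ∉ P` is determined by its sum;
(d) a factorization `b` with `b_i < m_i` for all `i` has `∑ b_i a_i - α ∉ P`.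
Then any two factorizations `b, b'` of the same number are connected by moves.
Proof: strong induction on the sum `x` (a natural number, as `a_i > 0`). If `x - α ∉ P` use (u).
Otherwise by (d) there are `j, j'` with `b_(π j) ≥ m_(π j)` and `b'_(π j') ≥ m_(π j')`. Put
`u = b - m_(π j) e_(π j) + l_j e_j`, `u' = b' - m_(π j') e_(π j') + l_(j') e_(j')`, both of sum
`x - α`, connected by induction. Claim: if `c, c'` are connected, `c_i ≥ l_i`, `c'_(i') ≥ l_(i')`,
then `c - l_i e_i + m_(π i) e_(π i)` and `c' - l_(i') e_(i') + m_(π i') e_(π i')` are connected.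
Proof of the claim by induction on the chain: for `c = c'` the two elements are equal (`i = i'`)
or differ by one move; for a move `c = d + l_p e_p + m_(π q) e_(π q)`,
`c' = d + l_q e_q + m_(π p) e_(π p)` both `c - l_p e_p + m_(π p) e_(π p)` and
`c' - l_q e_q + m_(π q) e_(π q)` are equal to `d + m_(π q) e_(π q) + m_(π p) e_(π p)`. -/
theorem connected {n : ℕ} (a : Fin n → ℕ) (ha : ∀ i, 0 < a i) (α : ℤ) (hα : 0 < α)
    (π : Equiv.Perm (Fin n)) (l m : Fin n → ℕ)
    (hrel : ∀ i, (l i : ℤ) * a i + α = m (π i) * a (π i)) (P : Set ℤ)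
    (hu : ∀ b b' : Fin n → ℕ, ∑ i, (b i : ℤ) * a i = ∑ i, (b' i : ℤ) * a i →
      (∑ i, (b i : ℤ) * a i) - α ∉ P → b = b')
    (hd : ∀ b : Fin n → ℕ, (∀ i, b i < m i) → (∑ i, (b i : ℤ) * a i) - α ∉ P)
    (b b' : Fin n → ℕ) (hbb : ∑ i, (b i : ℤ) * a i = ∑ i, (b' i : ℤ) * a i) :
    Relation.ReflTransGen (Move π l m) b b' := by
  have _ := ha
  -- strong induction on the sum
  have main : ∀ N : ℕ, ∀ b b' : Fin n → ℕ, ∑ i, (b i : ℤ) * a i = N →
      ∑ i, (b' i : ℤ) * a i = N → Relation.ReflTransGen (Move π l m) b b' := by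
    intro N
    induction N using Nat.strong_induction_on with
    | _ N ih =>
      intro b b' hb hb'
      by_cases hP : (N : ℤ) - α ∈ P
      swap
      · have : b = b' := hu b b' (hb.trans hb'.symm) (by rw [hb]; exact hP)
        rw [this]
      -- decomposition of a factorization
      have hdec : ∀ c : Fin n → ℕ, ∑ i, (c i : ℤ) * a i = N →
          ∃ (d : Fin n → ℕ) (j : Fin n), c = d + Pi.single (π j) (m (π j)) := by
        intro c hcs
        have hex : ∃ i, m i ≤ c i := by
          by_contra hcon
          push Not at hcon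
          exact hd c hcon (by rw [hcs]; exact hP)
        obtain ⟨i, hi⟩ := hex
        refine ⟨c - Pi.single i (m i), π.symm i, ?_⟩
        rw [Equiv.apply_symm_apply]
        funext z
        simp only [Pi.add_apply, Pi.sub_apply]
        by_cases hz : z = i
        · subst hz
          rw [Pi.single_eq_same]
          omega
        · rw [Pi.single_eq_of_ne hz]
          omega
      obtain ⟨d, j, hdj⟩ := hdec b hb
      obtain ⟨d', j', hdj'⟩ := hdec b' hb'
      have hsum : ∀ (d : Fin n → ℕ) (j : Fin n),
          ∑ i, ((d + Pi.single (π j) (m (π j)) : Fin n → ℕ) i : ℤ) * a i = N →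
          ∑ i, ((d + Pi.single j (l j) : Fin n → ℕ) i : ℤ) * a i = (N : ℤ) - α := by
        intro d j h
        rw [sum_add_single] at h ⊢
        have := hrel j
        linarith
      have hs := hsum d j (by rw [← hdj]; exact hb)
      have hs' := hsum d' j' (by rw [← hdj']; exact hb')
      have hnn : 0 ≤ (N : ℤ) - α := by
        rw [← hs]
        exact Finset.sum_nonneg (fun i _ => by positivity)
      obtain ⟨M, hM⟩ := Int.eq_ofNat_of_zero_le hnn
      have hlt : M < N := by omega
      rw [hM] at hs hs'
      have hc := ih M hlt _ _ hs hs'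
      rw [hdj, hdj']
      exact lift_chain hc d d' j j' rfl rfl
  have hnn : 0 ≤ ∑ i, (b i : ℤ) * a i := Finset.sum_nonneg (fun i _ => by positivity)
  obtain ⟨N, hN⟩ := Int.eq_ofNat_of_zero_le hnn
  exact main N b b' hN (hbb ▸ hN)

end Pool.Agent.NumSgp
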