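import Pool.Agent.Lib_MP_c084f5_al.Defs

/-!
# Piece A5: the permutation is one cycle, and relabelling
-/

namespace Pool.Agent.NumSgp

open MvPolynomial

/-- The permutation has one orbit. Proof: otherwise there is a set `K` with `K ≠ ∅`, `K ≠ univ`
and `x ∈ K ↔ π x ∈ K` (the orbit of a point). Evaluate at the point `x` with `x_i = 0` for
`i ∈ K` and `x_i = 1` otherwise. All minors `X_i^(l_i) X_(π j)^(m_(π j)) - X_j^(l_j) X_(π i)^(..)`
vanish there (both terms are `0` if `i ∈ K` or `j ∈ K`, else both are `1`), but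
`X_i^(a_j) - X_j^(a_i)` with `i ∈ K`, `j ∉ K` takes the value `-1` and is in the ideal. -/
theorem sameCycle_of_minors {k : Type*} [Field k] {n : ℕ} (a : Fin n → ℕ)
    (ha : ∀ i, 0 < a i) (π : Equiv.Perm (Fin n)) (l m : Fin n → ℕ) (hl : ∀ i, 0 < l i)
    (hm : ∀ i, 0 < m i)
    (hI : toricIdeal k a = minors2 (fun i => X i ^ l i) (fun i => X (π i) ^ m (π i))) :
    ∀ x y, π.SameCycle x y := by
  classical
  intro x y
  by_contra hxy
  set p : Fin n → k := fun i => if π.SameCycle x i then 0 else 1 with hp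
  have h1 : (X x ^ a y - X y ^ a x : MvPolynomial (Fin n) k) ∈ toricIdeal k a := by
    unfold toricIdeal
    rw [RingHom.mem_ker]
    unfold toricMap
    simp only [map_sub, map_pow, aeval_X]
    rw [← pow_mul, ← pow_mul, mul_comm (a x) (a y), sub_self]
  rw [hI] at h1
  have h2 : minors2 (fun i => X i ^ l i) (fun i => X (π i) ^ m (π i)) ≤
      RingHom.ker (MvPolynomial.eval p) := by
    unfold minors2
    rw [Ideal.span_le]
    rintro _ ⟨⟨i, j⟩, rfl⟩
    rw [SetLike.mem_coe, RingHom.mem_ker]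
    have hf : ∀ i : Fin n, p i ^ l i = p i := by
      intro i
      simp only [hp]
      split_ifs
      · exact zero_pow (hl i).ne'
      · exact one_pow _
    have hg : ∀ i : Fin n, p (π i) ^ m (π i) = p i := by
      intro i
      simp only [hp, Equiv.Perm.sameCycle_apply_right]
      split_ifs
      · exact zero_pow (hm (π i)).ne'
      · exact one_pow _
    simp only [map_sub, map_mul, map_pow, eval_X]
    rw [hf, hf, hg, hg]
    ring
  have h3 := h2 h1
  rw [RingHom.mem_ker] at h3
  simp only [map_sub, map_pow, eval_X] at h3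
  have h4 : p x = 0 := by simp [hp, Equiv.Perm.SameCycle.refl π x]
  have h5 : p y = 1 := by simp [hp, hxy]
  rw [h4, h5, zero_pow (ha y).ne', one_pow] at h3
  simp at h3

/-- A permutation of `Fin n` with one orbit is conjugate to `finRotate n`.
(`n = 0`, `n = 1` are trivial; for `n ≥ 2` compare cycle types:
`Equiv.Perm.isConj_iff_cycleType_eq`, `cycleType_finRotate`.) -/
theorem exists_relabel {n : ℕ} (π : Equiv.Perm (Fin n)) (h : ∀ x y, π.SameCycle x y) :
    ∃ σ : Equiv.Perm (Fin n), ∀ j, σ (finRotate n j) = π (σ j) := by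
  classical
  match n, π, h with
  | 0, π, h => exact ⟨1, fun j => j.elim0⟩
  | 1, π, h => exact ⟨1, fun j => Subsingleton.elim _ _⟩
  | n + 2, π, h =>
    have hne : ∀ x, π x ≠ x := by
      intro x hx
      obtain ⟨y, hy⟩ := exists_ne x
      have h1 := h x y
      obtain ⟨i, hi⟩ := h1
      have h2 : (π ^ i) x = x := by
        exact Equiv.Perm.zpow_apply_eq_self_of_apply_eq_self hx i
      rw [h2] at hi
      exact hy hi.symm
    have hc : π.IsCycle := ⟨0, hne 0, fun y _ => h 0 y⟩
    have hs : π.support = Finset.univ := by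
      ext x
      simp [hne x]
    have ht : π.cycleType = {n + 2} := by
      rw [hc.cycleType, hs]
      simp
    have hconj : IsConj (finRotate (n + 2)) π := by
      rw [Equiv.Perm.isConj_iff_cycleType_eq, cycleType_finRotate, ht]
    rw [isConj_iff] at hconj
    obtain ⟨σ, hσ⟩ := hconj
    refine ⟨σ, fun j => ?_⟩
    rw [← hσ]
    simp

/-- Relabelling: from the two statements above; put `l' = l ∘ σ`, `m' = m ∘ σ`. -/
theorem cond2_of_perm {k : Type*} [Field k] {n : ℕ} (a : Fin n → ℕ)
    (π : Equiv.Perm (Fin n)) (h : ∀ x y, π.SameCycle x y) (l m : Fin n → ℕ) (hl : ∀ i, 0 < l i)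
    (hm : ∀ i, 0 < m i)
    (hI : toricIdeal k a = minors2 (fun i => X i ^ l i) (fun i => X (π i) ^ m (π i))) :
    Cond2 k a := by
  obtain ⟨σ, hσ⟩ := exists_relabel π h
  refine ⟨σ, fun j => l (σ j), fun j => m (σ j), fun i => hl _, fun i => hm _, ?_⟩
  rw [hI]
  unfold minors2
  congr 1
  ext q
  constructor
  · rintro ⟨⟨i, j⟩, rfl⟩
    refine ⟨(σ.symm i, σ.symm j), ?_⟩
    simp only [hσ, Equiv.apply_symm_apply]
  · rintro ⟨⟨i, j⟩, rfl⟩
    refine ⟨(σ i, σ j), ?_⟩
    simp only [hσ]

end Pool.Agent.NumSgp
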