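import Mathlib

/-!
# Numerical semigroups and determinantal ideals: definitions

`a : Fin n → ℕ` is the list of generators, with 0-based indices.
-/

namespace Pool.Agent.NumSgp

open MvPolynomial

/-- The submonoid of `ℤ` generated by the numbers `a i`. -/
def sgp {n : ℕ} (a : Fin n → ℕ) : AddSubmonoid ℤ :=
  AddSubmonoid.closure (Set.range fun i => (a i : ℤ))

/-- `a` lists the minimal generating set of a numerical semigroup: the greatest common divisor
is one and no `a i` is a sum of other `a j` (in particular the `a i` are positive and distinct). -/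
def IsMinGen {n : ℕ} (a : Fin n → ℕ) : Prop :=
  Finset.univ.gcd a = 1 ∧
    ∀ i, (a i : ℤ) ∉ AddSubmonoid.closure ((fun j => (a j : ℤ)) '' {j | j ≠ i})

/-- The set of pseudo-Frobenius numbers of the semigroup generated by `a`. -/
def PF {n : ℕ} (a : Fin n → ℕ) : Set ℤ :=
  {x | x ∉ sgp a ∧ ∀ s ∈ sgp a, 0 < s → x + s ∈ sgp a}

/-- The map `k[X_1,..,X_n] → k[t]`, `X_i ↦ t^(a_i)`. -/
noncomputable def toricMap (k : Type*) [Field k] {n : ℕ} (a : Fin n → ℕ) :
    MvPolynomial (Fin n) k →ₐ[k] Polynomial k :=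
  aeval fun i => (Polynomial.X : Polynomial k) ^ a i

/-- The defining ideal `I_H` of the semigroup ring. -/
noncomputable def toricIdeal (k : Type*) [Field k] {n : ℕ} (a : Fin n → ℕ) :
    Ideal (MvPolynomial (Fin n) k) :=
  RingHom.ker (toricMap k a)

/-- The ideal of `2 × 2` minors of the `2 × n` matrix with rows `f` and `g`. -/
noncomputable def minors2 {k : Type*} [Field k] {n : ℕ} (f g : Fin n → MvPolynomial (Fin n) k) :
    Ideal (MvPolynomial (Fin n) k) :=
  Ideal.span (Set.range fun p : Fin n × Fin n => f p.1 * g p.2 - f p.2 * g p.1)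

/-- Condition (1): the defining ideal is generated by the `2 × 2` minors of a `2 × n` matrix
whose entries are homogeneous of positive degree, where `deg X_i = a_i`. -/
def Cond1 (k : Type*) [Field k] {n : ℕ} (a : Fin n → ℕ) : Prop :=
  ∃ f g : Fin n → MvPolynomial (Fin n) k,
    (∀ i, ∃ d, 0 < d ∧ IsWeightedHomogeneous a (f i) d) ∧
    (∀ i, ∃ d, 0 < d ∧ IsWeightedHomogeneous a (g i) d) ∧
    toricIdeal k a = minors2 f g

/-- Condition (2): after a permutation `σ` of the variables, the defining ideal is generated by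
the minors of the matrix with columns `(X_j^(l_j), X_(j+1)^(m_(j+1)))`, indices cyclic, all
exponents positive. -/
def Cond2 (k : Type*) [Field k] {n : ℕ} (a : Fin n → ℕ) : Prop :=
  ∃ (σ : Equiv.Perm (Fin n)) (l m : Fin n → ℕ), (∀ i, 0 < l i) ∧ (∀ i, 0 < m i) ∧
    toricIdeal k a =
      minors2 (fun j => X (σ j) ^ l j) (fun j => X (σ (finRotate n j)) ^ m (finRotate n j))

/-- Condition (3): the set of pseudo-Frobenius numbers is an arithmetic sequence of length
`n - 1`. -/
def Cond3 {n : ℕ} (a : Fin n → ℕ) : Prop :=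
  ∃ h α : ℤ, 0 < α ∧ PF a = {x | ∃ j : ℕ, 1 ≤ j ∧ j < n ∧ x = h + j * α}

end Pool.Agent.NumSgp
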