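import Pool.Agent.Lib_MP_c084f5_al.Defs

/-!
# Piece A4: a generating matrix of monomials consists of pure powers
-/

namespace Pool.Agent.NumSgp

open MvPolynomial

/-- all variables except `X k₀` go to zero -/
noncomputable def killMap (k : Type*) [Field k] {n : ℕ} (k₀ : Fin n) :
    MvPolynomial (Fin n) k →ₐ[k] Polynomial k :=
  aeval fun l => if l = k₀ then (Polynomial.X : Polynomial k) else 0

theorem killMap_monomial_ne {k : Type*} [Field k] {n : ℕ} (k₀ : Fin n) (d : Fin n →₀ ℕ)
    (h : killMap k k₀ (monomial d (1 : k)) ≠ 0) : ∀ x, x ≠ k₀ → d x = 0 := by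
  intro x hx
  by_contra hd
  apply h
  unfold killMap
  rw [aeval_monomial]
  have h1 : d.prod (fun i e => (if i = k₀ then (Polynomial.X : Polynomial k) else 0) ^ e) = 0 := by
    unfold Finsupp.prod
    apply Finset.prod_eq_zero (Finsupp.mem_support_iff.2 hd)
    simp only
    rw [if_neg hx, zero_pow hd]
  rw [h1, mul_zero]

theorem single_of_supp {n : ℕ} (k₀ : Fin n) (d : Fin n →₀ ℕ) (h : ∀ x, x ≠ k₀ → d x = 0) :
    d = Finsupp.single k₀ (d k₀) := by
  ext x
  rw [Finsupp.single_apply]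
  split_ifs with hx
  · rw [hx]
  · exact h x (fun h' => hx h'.symm)

theorem pure_exists {k : Type*} [Field k] {n : ℕ} (hn : 2 ≤ n) (a : Fin n → ℕ)
    (ha : ∀ i, 0 < a i) (J : Finset (Fin n)) (b b' : Fin n → (Fin n →₀ ℕ))
    (hb : ∀ j ∈ J, b j ≠ 0) (hb' : ∀ j ∈ J, b' j ≠ 0)
    (hI : toricIdeal k a = Ideal.span {p | ∃ i ∈ J, ∃ j ∈ J,
        p = monomial (b i + b' j) (1 : k) - monomial (b j + b' i) 1}) (k₀ : Fin n) :
    ∃ i ∈ J, ∃ j ∈ J, i ≠ j ∧ ∃ l m : ℕ, 0 < l ∧ 0 < m ∧
      b i = Finsupp.single k₀ l ∧ b' j = Finsupp.single k₀ m := by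
  classical
  obtain ⟨j₀, hj₀⟩ : ∃ j : Fin n, j ≠ k₀ := by
    have : Nontrivial (Fin n) := Fin.nontrivial_iff_two_le.2 hn
    exact exists_ne k₀
  -- a generator with nonzero image
  have hgen : ∃ i ∈ J, ∃ j ∈ J,
      killMap k k₀ (monomial (b i + b' j) (1 : k) - monomial (b j + b' i) 1) ≠ 0 := by
    by_contra hcon
    push Not at hcon
    have hle : toricIdeal k a ≤ RingHom.ker (killMap k k₀) := by
      rw [hI, Ideal.span_le]
      rintro p ⟨i, hi, j, hj, rfl⟩
      exact hcon i hi j hj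
    have hel : (X k₀ ^ a j₀ - X j₀ ^ a k₀ : MvPolynomial (Fin n) k) ∈ toricIdeal k a := by
      unfold toricIdeal
      rw [RingHom.mem_ker]
      unfold toricMap
      rw [map_sub, map_pow, map_pow, aeval_X, aeval_X, ← pow_mul, ← pow_mul, mul_comm, sub_self]
    have h1 := hle hel
    rw [RingHom.mem_ker] at h1
    unfold killMap at h1
    rw [map_sub, map_pow, map_pow, aeval_X, aeval_X, if_pos rfl, if_neg hj₀,
      zero_pow (ha k₀).ne', sub_zero] at h1
    exact pow_ne_zero _ Polynomial.X_ne_zero h1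
  have main : ∀ i ∈ J, ∀ j ∈ J, i ≠ j → killMap k k₀ (monomial (b i + b' j) (1 : k)) ≠ 0 →
      ∃ i ∈ J, ∃ j ∈ J, i ≠ j ∧ ∃ l m : ℕ, 0 < l ∧ 0 < m ∧
      b i = Finsupp.single k₀ l ∧ b' j = Finsupp.single k₀ m := by
    intro i hi j hj hij hne
    have hs := killMap_monomial_ne k₀ _ hne
    have h1 : ∀ x, x ≠ k₀ → b i x = 0 := by
      intro x hx
      have := hs x hx
      rw [Finsupp.add_apply] at this
      omega
    have h2 : ∀ x, x ≠ k₀ → b' j x = 0 := by
      intro x hx
      have := hs x hx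
      rw [Finsupp.add_apply] at this
      omega
    have e1 := single_of_supp k₀ _ h1
    have e2 := single_of_supp k₀ _ h2
    refine ⟨i, hi, j, hj, hij, b i k₀, b' j k₀, ?_, ?_, e1, e2⟩
    · apply Nat.pos_of_ne_zero
      intro h0
      rw [h0, Finsupp.single_zero] at e1
      exact hb i hi e1
    · apply Nat.pos_of_ne_zero
      intro h0
      rw [h0, Finsupp.single_zero] at e2
      exact hb' j hj e2
  obtain ⟨i, hi, j, hj, hne⟩ := hgen
  have hij : i ≠ j := by
    rintro rfl
    apply hne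
    rw [sub_self, map_zero]
  rw [map_sub] at hne
  by_cases h1 : killMap k k₀ (monomial (b i + b' j) (1 : k)) = 0
  · rw [h1, zero_sub, neg_ne_zero] at hne
    exact main j hj i hi hij.symm hne
  · exact main i hi j hj hij h1

/-- For every `k₀` set all variables except `X_(k₀)` to zero (ring map
`aeval (fun l => if l = k₀ then X else 0)` to `Polynomial k`). The element
`X_(k₀)^(a_j) - X_j^(a_(k₀))`, `j ≠ k₀`, of the defining ideal has a nonzero image. So some
generator `X^(b_i + b'_j) - X^(b_j + b'_i)` has a nonzero image, so (exchanging `i` and `j` if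
necessary) `X^(b_i + b'_j)` has a nonzero image, so `b_i` and `b'_j` are supported in `{k₀}`, and
`i ≠ j` because the generator is not zero. This gives `i(k₀) ≠ j(k₀)` in `J` with
`b_(i(k₀)) = l_(k₀) e_(k₀)`, `b'_(j(k₀)) = m_(k₀) e_(k₀)` and `l, m > 0`.
The map `i : Fin n → J` is injective (`b_(i(k))` determines `k` as `l_k > 0`), so `J = univ` and
`i`, and in the same way `j`, is a bijection of `Fin n`. Put `π = j⁻¹ ∘ i`. Column `i(k)` has top
entry `X_k^(l_k)` and bottom entry `X_(π k)^(m_(π k))`, and `π k ≠ k`. Reindex the minors by the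
bijection `i`. -/
theorem pure_of_monomial {k : Type*} [Field k] {n : ℕ} (hn : 2 ≤ n) (a : Fin n → ℕ)
    (ha : ∀ i, 0 < a i) (J : Finset (Fin n)) (b b' : Fin n → (Fin n →₀ ℕ))
    (hb : ∀ j ∈ J, b j ≠ 0) (hb' : ∀ j ∈ J, b' j ≠ 0)
    (hI : toricIdeal k a = Ideal.span {p | ∃ i ∈ J, ∃ j ∈ J,
        p = monomial (b i + b' j) (1 : k) - monomial (b j + b' i) 1}) :
    ∃ (π : Equiv.Perm (Fin n)) (l m : Fin n → ℕ), (∀ i, 0 < l i) ∧ (∀ i, 0 < m i) ∧
      (∀ i, π i ≠ i) ∧
      toricIdeal k a = minors2 (fun i => X i ^ l i) (fun i => X (π i) ^ m (π i)) := by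
  classical
  choose I hIJ Jf hJJ hne l m hl hm hbI hbJ using pure_exists hn a ha J b b' hb hb' hI
  have hinj : ∀ (c d : Fin n) (r s : ℕ), 0 < r → Finsupp.single c r = Finsupp.single d s →
      c = d := by
    intro c d r s hr h
    have h1 := DFunLike.congr_fun h c
    rw [Finsupp.single_eq_same, Finsupp.single_apply] at h1
    split_ifs at h1 with h2
    · exact h2.symm
    · omega
  have hIinj : Function.Injective I := by
    intro c d h
    have h1 := hbI c
    rw [h, hbI d] at h1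
    exact (hinj d c _ _ (hl d) h1).symm
  have hJinj : Function.Injective Jf := by
    intro c d h
    have h1 := hbJ c
    rw [h, hbJ d] at h1
    exact (hinj d c _ _ (hm d) h1).symm
  have hIbij : Function.Bijective I := Finite.injective_iff_bijective.1 hIinj
  have hJbij : Function.Bijective Jf := Finite.injective_iff_bijective.1 hJinj
  set eI := Equiv.ofBijective I hIbij with heI
  set eJ := Equiv.ofBijective Jf hJbij with heJ
  have hπ : ∀ c, Jf ((eI.trans eJ.symm) c) = I c := by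
    intro c
    have h1 : eJ (eJ.symm (eI c)) = eI c := Equiv.apply_symm_apply _ _
    exact h1
  refine ⟨eI.trans eJ.symm, l, m, hl, hm, ?_, ?_⟩
  · intro c hc
    have h1 := hπ c
    rw [hc] at h1
    exact hne c h1.symm
  · rw [hI]
    unfold minors2
    congr 1
    ext p
    simp only [Set.mem_ofPred_eq, Set.mem_range, Prod.exists]
    have hgen : ∀ c d : Fin n, (X c ^ l c * X ((eI.trans eJ.symm) d) ^ m ((eI.trans eJ.symm) d) :
        MvPolynomial (Fin n) k) = monomial (b (I c) + b' (I d)) 1 := by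
      intro c d
      rw [X_pow_eq_monomial, X_pow_eq_monomial, monomial_mul, one_mul, ← hbI c, ← hbJ, hπ d]
    constructor
    · rintro ⟨i, _, j, _, rfl⟩
      obtain ⟨c, rfl⟩ := hIbij.2 i
      obtain ⟨d, rfl⟩ := hIbij.2 j
      exact ⟨c, d, by rw [hgen, hgen]⟩
    · rintro ⟨c, d, rfl⟩
      exact ⟨I c, hIJ c, I d, hIJ d, by rw [hgen, hgen]⟩

end Pool.Agent.NumSgp
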