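import Pool.Agent.Lib_MP_c084f5_al.Monomialize
import Pool.Agent.Lib_MP_c084f5_al.Pure
import Pool.Agent.Lib_MP_c084f5_al.Cycle

/-!
# Theorem A: conditions (1) and (2) are equivalent
-/

namespace Pool.Agent.NumSgp

open MvPolynomial

theorem IsMinGen.pos {n : ℕ} {a : Fin n → ℕ} (ha : IsMinGen a) (i : Fin n) : 0 < a i := by
  rcases Nat.eq_zero_or_pos (a i) with h | h
  · exact absurd (by rw [h]; exact AddSubmonoid.zero_mem _) (ha.2 i)
  · exact h

theorem IsMinGen.n_pos {n : ℕ} {a : Fin n → ℕ} (ha : IsMinGen a) : 0 < n := by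
  rcases Nat.eq_zero_or_pos n with h | h
  · subst h
    have := ha.1
    simp at this
  · exact h

theorem cond1_of_cond2 {k : Type*} [Field k] {n : ℕ} {a : Fin n → ℕ} (ha : ∀ i, 0 < a i)
    (h : Cond2 k a) : Cond1 k a := by
  obtain ⟨σ, l, m, hl, hm, hI⟩ := h
  refine ⟨_, _, ?_, ?_, hI⟩
  · intro j
    refine ⟨l j • a (σ j), ?_, ?_⟩
    · rw [smul_eq_mul]
      exact Nat.mul_pos (hl j) (ha _)
    · exact (isWeightedHomogeneous_X k a (σ j)).pow (l j)
  · intro j
    refine ⟨m (finRotate n j) • a (σ (finRotate n j)), ?_, ?_⟩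
    · rw [smul_eq_mul]
      exact Nat.mul_pos (hm _) (ha _)
    · exact (isWeightedHomogeneous_X k a (σ (finRotate n j))).pow (m (finRotate n j))

theorem cond2_of_cond1 {k : Type*} [Field k] {n : ℕ} (hn : 2 ≤ n) {a : Fin n → ℕ}
    (ha : ∀ i, 0 < a i) (h : Cond1 k a) : Cond2 k a := by
  obtain ⟨J, b, b', hb, hb', hI⟩ := monomialize hn a ha h
  obtain ⟨π, l, m, hl, hm, -, hI'⟩ := pure_of_monomial hn a ha J b b' hb hb' hI
  exact cond2_of_perm a π (sameCycle_of_minors a ha π l m hl hm hI') l m hl hm hI'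

/-- The case `n = 1`: `a = 1` and both ideals are zero. -/
theorem cond2_of_n_eq_one {k : Type*} [Field k] {n : ℕ} (hn : n = 1) {a : Fin n → ℕ}
    (ha : IsMinGen a) : Cond2 k a := by
  subst hn
  have ha0 : a = fun _ => 1 := by
    funext i
    have h := ha.1
    fin_cases i
    simpa using h
  refine ⟨1, fun _ => 1, fun _ => 1, fun _ => one_pos, fun _ => one_pos, ?_⟩
  have h1 : minors2 (k := k) (n := 1)
      (fun j => X ((1 : Equiv.Perm (Fin 1)) j) ^ (fun _ : Fin 1 => 1) j)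
      (fun j => X ((1 : Equiv.Perm (Fin 1)) (finRotate 1 j)) ^ (fun _ : Fin 1 => 1) (finRotate 1 j))
      = ⊥ := by
    unfold minors2
    rw [Ideal.span_eq_bot]
    rintro x ⟨p, rfl⟩
    have : p.1 = p.2 := Subsingleton.elim _ _
    simp [this]
  rw [h1]
  unfold toricIdeal
  rw [RingHom.ker_eq_bot_iff_eq_zero]
  intro f hf
  have key : toricMap k a = (MvPolynomial.uniqueAlgEquiv k (Fin 1)).toAlgHom := by
    apply MvPolynomial.algHom_ext
    intro i
    rw [ha0]
    simp [toricMap, MvPolynomial.uniqueAlgEquiv]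
  rw [key] at hf
  have hf' : (MvPolynomial.uniqueAlgEquiv k (Fin 1)) f = 0 := hf
  exact (map_eq_zero_iff _ (MvPolynomial.uniqueAlgEquiv k (Fin 1)).injective).1 hf'

theorem cond1_iff_cond2 {k : Type*} [Field k] {n : ℕ} {a : Fin n → ℕ} (ha : IsMinGen a) :
    Cond1 k a ↔ Cond2 k a := by
  refine ⟨fun h => ?_, cond1_of_cond2 ha.pos⟩
  rcases Nat.lt_or_ge n 2 with hn | hn
  · have := ha.n_pos
    exact cond2_of_n_eq_one (by omega) ha
  · exact cond2_of_cond1 hn ha.pos h

end Pool.Agent.NumSgp
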