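import Pool.Agent.Lib_MP_c084f5_al.FourParity

/-!
# Four generators: `h` has a unique factorization
-/

namespace Pool.Agent.NumSgp

/-- two different factorizations give two factorizations which are different modulo two -/
theorem par_two {n : ℕ} (a : Fin n → ℕ) (x : ℤ) (N : ℕ) : ∀ b b' : Fin n → ℕ,
    ∑ i, (b i : ℤ) * a i = x → ∑ i, (b' i : ℤ) * a i = x → b ≠ b' →
    ∑ i, ((b i - b' i) + (b' i - b i)) ≤ N →
    ∃ c c' : Fin n → ℕ, ∑ i, (c i : ℤ) * a i = x ∧ ∑ i, (c' i : ℤ) * a i = x ∧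
      ∃ i, c i % 2 ≠ c' i % 2 := by
  induction N with
  | zero =>
    intro b b' _ _ hne hN
    exfalso
    apply hne
    have h1 : ∑ i, ((b i - b' i) + (b' i - b i)) = 0 := Nat.le_zero.1 hN
    rw [Finset.sum_eq_zero_iff] at h1
    funext i
    have := h1 i (Finset.mem_univ i)
    omega
  | succ N ih =>
    intro b b' hb hb' hne hN
    by_cases hpar : ∃ i, b i % 2 ≠ b' i % 2
    · exact ⟨b, b', hb, hb', hpar⟩
    · push Not at hpar
      have hc : ∀ i, ((b i + b' i) / 2) * 2 = b i + b' i := by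
        intro i
        have := hpar i
        omega
      refine ih b (fun i => (b i + b' i) / 2) hb ?_ ?_ ?_
      · have e : ∀ i, 2 * ((((b i + b' i) / 2 : ℕ) : ℤ) * a i) =
            (b i : ℤ) * a i + (b' i : ℤ) * a i := by
          intro i
          have h2 : ((((b i + b' i) / 2 : ℕ)) : ℤ) * 2 = (b i : ℤ) + b' i := by
            exact_mod_cast hc i
          linear_combination (a i : ℤ) * h2
        have h3 : 2 * ∑ i, (((b i + b' i) / 2 : ℕ) : ℤ) * a i = 2 * x := by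
          rw [Finset.mul_sum, Finset.sum_congr rfl (fun i _ => e i), Finset.sum_add_distrib, hb, hb']
          ring
        linarith
      · intro heq
        apply hne
        funext i
        have h1 := congrFun heq i
        have h2 := hc i
        omega
      · have h4 : 2 * ∑ i, ((b i - (b i + b' i) / 2) + ((b i + b' i) / 2 - b i)) ≤
            ∑ i, ((b i - b' i) + (b' i - b i)) := by
          rw [Finset.mul_sum]
          apply Finset.sum_le_sum
          intro i _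
          have h2 := hc i
          omega
        omega

theorem par_minor {n : ℕ} {a : Fin n → ℕ} {h : ℤ} (P P' : Fin n → ℕ)
    (hP : ∑ i, (P i : ℤ) * a i = h) (hP' : ∑ i, (P' i : ℤ) * a i = h)
    (htwo : ∀ Q : Fin n → ℕ, ∑ i, (Q i : ℤ) * a i = h →
      (∀ i, Q i % 2 = P i % 2) ∨ (∀ i, Q i % 2 = P' i % 2)) (i j : Fin n) (k : ℕ) :
    ∀ Q : Fin n → ℕ, ∑ i, (Q i : ℤ) * a i = h →
      (2 : ℤ) ^ k ∣ ((Q i : ℤ) - P i) * ((P' j : ℤ) - P j) - ((Q j : ℤ) - P j) * ((P' i : ℤ) - P i) := by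
  induction k with
  | zero =>
    intro Q _
    simp
  | succ k ih =>
    intro Q hQ
    have hmid : ∀ S : Fin n → ℕ, ∑ i, (S i : ℤ) * a i = h → (∀ i, Q i % 2 = S i % 2) →
        ∑ i, (((Q i + S i) / 2 : ℕ) : ℤ) * a i = h ∧
          ∀ i, (((Q i + S i) / 2 : ℕ) : ℤ) * 2 = (Q i : ℤ) + S i := by
      intro S hS hpar
      have hc : ∀ i, ((Q i + S i) / 2) * 2 = Q i + S i := by
        intro i
        have := hpar i
        omega
      have hc' : ∀ i, (((Q i + S i) / 2 : ℕ) : ℤ) * 2 = (Q i : ℤ) + S i := by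
        intro i
        exact_mod_cast hc i
      refine ⟨?_, hc'⟩
      have e : ∀ i, 2 * ((((Q i + S i) / 2 : ℕ) : ℤ) * a i) =
          (Q i : ℤ) * a i + (S i : ℤ) * a i := by
        intro i
        linear_combination (a i : ℤ) * hc' i
      have h3 : 2 * ∑ i, (((Q i + S i) / 2 : ℕ) : ℤ) * a i = 2 * h := by
        rw [Finset.mul_sum, Finset.sum_congr rfl (fun i _ => e i), Finset.sum_add_distrib, hQ, hS]
        ring
      linarith
    rcases htwo Q hQ with hpar | hpar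
    · obtain ⟨h1, h2⟩ := hmid P hP hpar
      obtain ⟨c, hc⟩ := ih _ h1
      refine ⟨c, ?_⟩
      rw [pow_succ, mul_assoc, mul_comm 2 c, ← mul_assoc, ← hc]
      linear_combination (-((P' j : ℤ) - P j)) * h2 i + ((P' i : ℤ) - P i) * h2 j
    · obtain ⟨h1, h2⟩ := hmid P' hP' hpar
      obtain ⟨c, hc⟩ := ih _ h1
      refine ⟨c, ?_⟩
      rw [pow_succ, mul_assoc, mul_comm 2 c, ← mul_assoc, ← hc]
      linear_combination (-((P' j : ℤ) - P j)) * h2 i + ((P' i : ℤ) - P i) * h2 j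

/-- if the factorizations of `h` have at most two parity classes they lie on a line -/
theorem par_line {n : ℕ} {a : Fin n → ℕ} {h : ℤ} (P P' : Fin n → ℕ)
    (hP : ∑ i, (P i : ℤ) * a i = h) (hP' : ∑ i, (P' i : ℤ) * a i = h)
    (htwo : ∀ Q : Fin n → ℕ, ∑ i, (Q i : ℤ) * a i = h →
      (∀ i, Q i % 2 = P i % 2) ∨ (∀ i, Q i % 2 = P' i % 2)) (i j : Fin n)
    (Q : Fin n → ℕ) (hQ : ∑ i, (Q i : ℤ) * a i = h) :
    ((Q i : ℤ) - P i) * ((P' j : ℤ) - P j) = ((Q j : ℤ) - P j) * ((P' i : ℤ) - P i) := by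
  set M : ℤ := ((Q i : ℤ) - P i) * ((P' j : ℤ) - P j) - ((Q j : ℤ) - P j) * ((P' i : ℤ) - P i) with hM
  have h1 : (2 : ℤ) ^ M.natAbs ∣ M := par_minor P P' hP hP' htwo i j M.natAbs Q hQ
  have h2 : M = 0 := by
    apply Int.eq_zero_of_abs_lt_dvd h1
    have h3 : M.natAbs < 2 ^ M.natAbs := Nat.lt_two_pow_self
    rw [Int.abs_eq_natAbs]
    exact_mod_cast h3
  linarith

/-- the end of the line and the neighbour of the end -/
theorem line_end {n : ℕ} {a : Fin n → ℕ} {h : ℤ} (ha : ∀ i, 0 < a i) (D : Fin n → ℤ) (l : Fin n)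
    (hDl : D l ≠ 0)
    (hline : ∀ Q Q' : Fin n → ℕ, ∑ i, (Q i : ℤ) * a i = h → ∑ i, (Q' i : ℤ) * a i = h →
      ∀ i, ((Q i : ℤ) - Q' i) * D l = ((Q l : ℤ) - Q' l) * D i)
    (P0 P1 : Fin n → ℕ) (hP0 : ∑ i, (P0 i : ℤ) * a i = h) (hP1 : ∑ i, (P1 i : ℤ) * a i = h)
    (hne : P0 ≠ P1) :
    ∃ P P' : Fin n → ℕ, ∑ i, (P i : ℤ) * a i = h ∧ ∑ i, (P' i : ℤ) * a i = h ∧ P l < P' l ∧
      (∀ Q : Fin n → ℕ, ∑ i, (Q i : ℤ) * a i = h → Q = P' ∨
        ∀ i, (P' i < P i → P i ≤ Q i) ∧ (P i < P' i → Q i ≤ P i) ∧ (P i = P' i → Q i = P i)) ∧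
      (∀ i, (P i < P' i ↔ 0 < D i * D l) ∧ (P' i < P i ↔ D i * D l < 0)) := by
  classical
  have heq : ∀ Q Q' : Fin n → ℕ, ∑ i, (Q i : ℤ) * a i = h → ∑ i, (Q' i : ℤ) * a i = h →
      Q l = Q' l → Q = Q' := by
    intro Q Q' hQ hQ' hl
    funext i
    have h1 := hline Q Q' hQ hQ' i
    rw [hl, sub_self, zero_mul] at h1
    rcases mul_eq_zero.1 h1 with h2 | h2
    · omega
    · exact absurd h2 hDl
  have hbd : ∀ Q : Fin n → ℕ, ∑ i, (Q i : ℤ) * a i = h → Q l ≤ h.toNat := by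
    intro Q hQ
    have h1 : (Q l : ℤ) * a l ≤ h := by
      rw [← hQ]
      exact Finset.single_le_sum (f := fun i => (Q i : ℤ) * a i) (fun i _ => by positivity)
        (Finset.mem_univ l)
    have h2 : (Q l : ℤ) ≤ (Q l : ℤ) * a l := by
      have h3 : (1 : ℤ) ≤ a l := by exact_mod_cast ha l
      nlinarith [Int.natCast_nonneg (Q l)]
    omega
  obtain ⟨P', hP', hmax⟩ : ∃ P' : Fin n → ℕ, ∑ i, (P' i : ℤ) * a i = h ∧
      ∀ Q : Fin n → ℕ, ∑ i, (Q i : ℤ) * a i = h → Q l ≤ P' l := by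
    set S : Set ℕ := {v | ∃ Q : Fin n → ℕ, ∑ i, (Q i : ℤ) * a i = h ∧ Q l = v} with hS
    have hb : BddAbove S := ⟨h.toNat, by
      rintro v ⟨Q, hQ, rfl⟩
      exact hbd Q hQ⟩
    have hm := Nat.sSup_mem (s := S) ⟨_, P0, hP0, rfl⟩ hb
    obtain ⟨Q, hQ, hQl⟩ := hm
    refine ⟨Q, hQ, fun Q' hQ' => ?_⟩
    rw [hQl]
    exact le_csSup hb ⟨Q', hQ', rfl⟩
  obtain ⟨P, hP, hPl, hmax2⟩ : ∃ P : Fin n → ℕ, ∑ i, (P i : ℤ) * a i = h ∧ P l < P' l ∧
      ∀ Q : Fin n → ℕ, ∑ i, (Q i : ℤ) * a i = h → Q l < P' l → Q l ≤ P l := by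
    set S : Set ℕ := {v | ∃ Q : Fin n → ℕ, ∑ i, (Q i : ℤ) * a i = h ∧ Q l < P' l ∧ Q l = v} with hS
    have hb : BddAbove S := ⟨h.toNat, by
      rintro v ⟨Q, hQ, _, rfl⟩
      exact hbd Q hQ⟩
    have hnonempty : S.Nonempty := by
      by_cases h0 : P0 l < P' l
      · exact ⟨_, P0, hP0, h0, rfl⟩
      · have h1 : P0 l = P' l := le_antisymm (hmax P0 hP0) (not_lt.1 h0)
        have h2 : P1 l ≠ P' l := by
          intro h3
          exact hne (heq P0 P1 hP0 hP1 (by rw [h1, h3]))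
        exact ⟨_, P1, hP1, lt_of_le_of_ne (hmax P1 hP1) h2, rfl⟩
    have hm := Nat.sSup_mem (s := S) hnonempty hb
    obtain ⟨Q, hQ, hQl, hQs⟩ := hm
    refine ⟨Q, hQ, hQl, fun Q' hQ' hlt => ?_⟩
    rw [hQs]
    exact le_csSup hb ⟨Q', hQ', hlt, rfl⟩
  refine ⟨P, P', hP, hP', hPl, ?_, ?_⟩
  · intro Q hQ
    by_cases hQP : Q l = P' l
    · left
      exact heq Q P' hQ hP' hQP
    · right
      have hQl : Q l ≤ P l := hmax2 Q hQ (lt_of_le_of_ne (hmax Q hQ) hQP)
      intro i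
      have h1 := hline P P' hP hP' i
      have h2 := hline Q P' hQ hP' i
      have h3 : ((Q i : ℤ) - P' i) * ((P l : ℤ) - P' l) = ((P i : ℤ) - P' i) * ((Q l : ℤ) - P' l) := by
        apply mul_left_cancel₀ hDl
        linear_combination ((P l : ℤ) - P' l) * h2 - ((Q l : ℤ) - P' l) * h1
      have h4 : (P l : ℤ) - P' l < 0 := by omega
      have h5 : (Q l : ℤ) - P' l ≤ (P l : ℤ) - P' l := by omega
      refine ⟨fun g => ?_, fun g => ?_, fun g => ?_⟩
      · by_contra hcon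
        push Not at hcon
        have g1 : (0 : ℤ) < (P i : ℤ) - P' i := by omega
        have g2 : (Q i : ℤ) - P' i < (P i : ℤ) - P' i := by omega
        nlinarith
      · by_contra hcon
        push Not at hcon
        have g1 : (P i : ℤ) - P' i < 0 := by omega
        have g2 : (P i : ℤ) - P' i < (Q i : ℤ) - P' i := by omega
        nlinarith
      · have g1 : (P i : ℤ) - P' i = 0 := by omega
        rw [g1, zero_mul] at h3
        rcases mul_eq_zero.1 h3 with g2 | g2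
        · omega
        · omega
  · intro i
    have h1 := hline P P' hP hP' i
    have h4 : (P l : ℤ) - P' l < 0 := by omega
    have h6 : 0 < D l * D l := mul_self_pos.2 hDl
    have h7 : ((P i : ℤ) - P' i) * (D l * D l) = ((P l : ℤ) - P' l) * (D i * D l) := by
      linear_combination D l * h1
    refine ⟨⟨fun g => ?_, fun g => ?_⟩, ⟨fun g => ?_, fun g => ?_⟩⟩
    · have g1 : (P i : ℤ) - P' i < 0 := by omega
      by_contra hcon
      push Not at hcon
      nlinarith
    · by_contra hcon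
      push Not at hcon
      have g1 : 0 ≤ (P i : ℤ) - P' i := by omega
      nlinarith
    · have g1 : 0 < (P i : ℤ) - P' i := by omega
      by_contra hcon
      push Not at hcon
      nlinarith
    · by_contra hcon
      push Not at hcon
      have g1 : (P i : ℤ) - P' i ≤ 0 := by omega
      nlinarith

/-- an element of a proper subset of the semigroup has a reaction -/
theorem four_reaction {a : Fin 4 → ℕ} {h α : ℤ} (ha : IsMinGen a) (hp : ArithPF a h α)
    (l : Fin 4 → ℕ) (hl : ∀ q : Fin 4 → ℕ, ∑ i, (q i : ℤ) * a i = h → ∃ i, q i < l i) :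
    ∃ m : Fin 4 → ℕ, ∑ i, (m i : ℤ) * a i = ∑ i, (l i : ℤ) * a i + α ∧ ∃ i, 0 < m i := by
  have hx : ∑ i, (l i : ℤ) * a i ∈ sgp a := (mem_sgp_iff a _).2 ⟨l, rfl⟩
  rcases hp.E_or_L ha.1 hx with h1 | h1
  · exfalso
    obtain ⟨m, hm⟩ := (mem_sgp_iff a _).1 h1
    obtain ⟨i, hi⟩ := hl (fun i => l i + m i) (by
      have e : ∀ i, ((l i + m i : ℕ) : ℤ) * a i = (l i : ℤ) * a i + (m i : ℤ) * a i := by
        intro i
        push_cast
        ring
      rw [Finset.sum_congr rfl (fun i _ => e i), Finset.sum_add_distrib, ← hm]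
      ring)
    omega
  · obtain ⟨m, hm⟩ := (mem_sgp_iff a _).1 h1
    refine ⟨m, hm.symm, ?_⟩
    by_contra hcon
    push Not at hcon
    have h2 : ∑ i, (m i : ℤ) * a i = 0 := by
      apply Finset.sum_eq_zero
      intro i _
      have h3 : m i = 0 := Nat.le_zero.1 (hcon i)
      rw [h3]
      simp
    have h4 := nonneg_of_mem_sgp a hx
    have h5 := hp.1
    omega

theorem four_sgn_flip {x y z : ℤ} (h : x * y < 0) : 0 < z * x ↔ z * y < 0 := by
  rw [mul_neg_iff] at h
  rw [mul_pos_iff, mul_neg_iff]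
  omega

/-- four generators: `h` has at most one factorization -/
theorem four_unique {a : Fin 4 → ℕ} {h α : ℤ} (ha : IsMinGen a) (hp : ArithPF a h α)
    (b b' : Fin 4 → ℕ) (hb : h = ∑ i, (b i : ℤ) * a i) (hb' : h = ∑ i, (b' i : ℤ) * a i) :
    b = b' := by
  classical
  by_contra hne
  have hpos : ∀ i, 0 < a i := nalpha_pos ha
  obtain ⟨A0, A1, hA0, hA1, iA, hiA⟩ := par_two a h _ b b' hb.symm hb'.symm hne le_rfl
  -- two factorizations of `h + 4α`
  have htop : h + 4 * α ∈ sgp a := by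
    by_contra hcon
    obtain ⟨j, h1, h2, h3⟩ := hp.dual ha.1 hcon
    have h4 := nonneg_of_mem_sgp a h3
    have h5 : (j : ℤ) < 4 := by exact_mod_cast h2
    have h6 := hp.1
    nlinarith
  obtain ⟨B, hB⟩ := (mem_sgp_iff a _).1 htop
  have hB2 : ∃ B' : Fin 4 → ℕ, h + 4 * α = ∑ i, (B' i : ℤ) * a i ∧ B' ≠ B := by
    by_contra hcon
    push Not at hcon
    exact hne (unique_of_top_unique (n := 4) (by norm_num) ha hp B (by exact_mod_cast hB)
      (fun c' hc' => hcon c' (by exact_mod_cast hc')) b b' hb hb')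
  obtain ⟨B', hB', hBne⟩ := hB2
  obtain ⟨B0, B1, hB0, hB1, iB, hiB⟩ := par_two a (h + 4 * α) _ B' B hB'.symm hB.symm hBne le_rfl
  -- at most two parity classes
  have htwo : ∀ Q : Fin 4 → ℕ, ∑ i, (Q i : ℤ) * a i = h →
      (∀ i, Q i % 2 = A0 i % 2) ∨ (∀ i, Q i % 2 = A1 i % 2) := by
    intro Q hQ
    by_contra hcon
    rw [not_or] at hcon
    obtain ⟨h1, h2⟩ := hcon
    have hA01 : ¬ ∀ i, A0 i % 2 = A1 i % 2 := fun g => hiA (g iA)
    have hB01 : ¬ ∀ i, B0 i % 2 = B1 i % 2 := fun g => hiB (g iB)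
    refine par_three ha hp ![A0, A1, Q] ?_ ?_ ![B0, B1] ?_ ?_
    · intro t
      fin_cases t
      · exact hA0
      · exact hA1
      · exact hQ
    · intro t t' htt
      fin_cases t <;> fin_cases t' <;> first
        | rfl
        | exact absurd htt hA01
        | exact absurd (fun i => (htt i).symm) hA01
        | exact absurd htt h1
        | exact absurd (fun i => (htt i).symm) h1
        | exact absurd htt h2
        | exact absurd (fun i => (htt i).symm) h2
    · intro t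
      fin_cases t
      · exact hB0
      · exact hB1
    · intro t t' htt
      fin_cases t <;> fin_cases t' <;> first
        | rfl
        | exact absurd htt hB01
        | exact absurd (fun i => (htt i).symm) hB01
  have hAne : A0 ≠ A1 := fun g => hiA (by rw [g])
  have hmin := fun i j Q hQ => par_line A0 A1 hA0 hA1 htwo i j Q hQ
  set D : Fin 4 → ℤ := fun i => (A1 i : ℤ) - A0 i with hD
  have hline : ∀ (l : Fin 4) (Q Q' : Fin 4 → ℕ), ∑ i, (Q i : ℤ) * a i = h →
      ∑ i, (Q' i : ℤ) * a i = h → ∀ i, ((Q i : ℤ) - Q' i) * D l = ((Q l : ℤ) - Q' l) * D i := by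
    intro l Q Q' hQ hQ' i
    have h1 := hmin i l Q hQ
    have h2 := hmin i l Q' hQ'
    simp only [hD]
    linear_combination h1 - h2
  have hend := fun (l : Fin 4) (hl : D l ≠ 0) =>
    line_end hpos D l hl (hline l) A0 A1 hA0 hA1 hAne
  -- some coordinate goes down as well
  have hdown : ∀ P P' : Fin 4 → ℕ, ∑ i, (P i : ℤ) * a i = h → ∑ i, (P' i : ℤ) * a i = h →
      ∀ l, P l < P' l → ∃ i, P' i < P i := by
    intro P P' hP hP' l hl
    by_contra hcon
    push Not at hcon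
    have h1 : ∑ i, (P i : ℤ) * a i < ∑ i, (P' i : ℤ) * a i := by
      refine Finset.sum_lt_sum (fun i _ => ?_) ⟨l, Finset.mem_univ l, ?_⟩
      · exact mul_le_mul_of_nonneg_right (by exact_mod_cast hcon i) (by positivity)
      · exact mul_lt_mul_of_pos_right (by exact_mod_cast hl) (by exact_mod_cast hpos l)
    rw [hP, hP'] at h1
    exact lt_irrefl _ h1
  have hN : ∀ (r : ℕ) (b : Fin 4 → ℕ), 1 ≤ r → r ≤ 3 →
      ∑ i, (b i : ℤ) * a i = h + ∑ i, (a i : ℤ) + r * α → ∃ i, b i = 0 := by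
    intro r c h1 h3 hc
    exact par_no_pos hp h1 (by omega) c hc
  have hl : ∃ l, D l ≠ 0 := by
    by_contra hcon
    push Not at hcon
    apply hAne
    funext i
    have := hcon i
    simp only [hD] at this
    omega
  obtain ⟨l, hl⟩ := hl
  obtain ⟨P, P', hP, hP', hPl, hX, hsgn⟩ := hend l hl
  obtain ⟨l', hl'⟩ := hdown P P' hP hP' l hPl
  rcases le_total (Finset.univ.filter fun i => P' i < P i).card
    (Finset.univ.filter fun i => P i < P' i).card with hc | hc
  · exact four_line_false hN (four_reaction ha hp) P P' hP hP' hX ⟨l', hl'⟩ ⟨l, hPl⟩ hc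
  · have hDl' : D l' * D l < 0 := ((hsgn l').2).1 hl'
    have hDne : D l' ≠ 0 := by
      intro h0
      rw [h0, zero_mul] at hDl'
      exact lt_irrefl _ hDl'
    obtain ⟨R, R', hR, hR', hRl, hX', hsgn'⟩ := hend l' hDne
    obtain ⟨l'', hl''⟩ := hdown R R' hR hR' l' hRl
    have e1 : (Finset.univ.filter fun i => R' i < R i) = Finset.univ.filter fun i => P i < P' i := by
      ext i
      simp only [Finset.mem_filter, Finset.mem_univ, true_and]
      rw [(hsgn' i).2, (hsgn i).1]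
      exact (four_sgn_flip (by rw [mul_comm]; exact hDl')).symm
    have e2 : (Finset.univ.filter fun i => R i < R' i) = Finset.univ.filter fun i => P' i < P i := by
      ext i
      simp only [Finset.mem_filter, Finset.mem_univ, true_and]
      rw [(hsgn' i).1, (hsgn i).2]
      exact four_sgn_flip hDl'
    refine four_line_false hN (four_reaction ha hp) R R' hR hR' hX' ⟨l'', hl''⟩ ⟨l', hRl⟩ ?_
    rw [e1, e2]
    exact hc

end Pool.Agent.NumSgp
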