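import Pool.Agent.Lib_MP_c084f5_al.FourTypes

/-!
# Four generators: the factorizations of `h` cannot lie on a line
-/

namespace Pool.Agent.NumSgp

/-- the vector `v` moved by a permutation -/
theorem four_sum_perm (a : Fin 4 → ℕ) (σ : Equiv.Perm (Fin 4)) (b1 b2 b3 b4 : ℕ) :
    ∑ i, ((![b1, b2, b3, b4] (σ.symm i) : ℕ) : ℤ) * a i =
      b1 * a (σ 0) + b2 * a (σ 1) + b3 * a (σ 2) + b4 * a (σ 3) := by
  rw [← Equiv.sum_comp σ (fun i => ((![b1, b2, b3, b4] (σ.symm i) : ℕ) : ℤ) * a i)]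
  simp [Fin.sum_univ_four]

theorem four_sum_perm' (a : Fin 4 → ℕ) (σ : Equiv.Perm (Fin 4)) (b : Fin 4 → ℕ) :
    ∑ i, (b i : ℤ) * a i =
      b (σ 0) * a (σ 0) + b (σ 1) * a (σ 1) + b (σ 2) * a (σ 2) + b (σ 3) * a (σ 3) := by
  rw [← Equiv.sum_comp σ (fun i => (b i : ℤ) * a i)]
  simp [Fin.sum_univ_four]

theorem four_sum_perm'' (a : Fin 4 → ℕ) (σ : Equiv.Perm (Fin 4)) :
    ∑ i, (a i : ℤ) = a (σ 0) + a (σ 1) + a (σ 2) + a (σ 3) := by
  rw [← Equiv.sum_comp σ (fun i => (a i : ℤ))]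
  simp [Fin.sum_univ_four]

/-- a monotone sequence of length four with values in `0, 1, 2` -/
theorem four_patterns (f : Fin 4 → ℕ) (hf : Monotone f) (h2 : ∀ i, f i ≤ 2)
    (h0 : ∃ i, f i = 0) (h1 : ∃ i, f i = 1)
    (hc : (Finset.univ.filter fun i => f i = 0).card ≤ (Finset.univ.filter fun i => f i = 1).card) :
    (f 0 = 0 ∧ f 1 = 1 ∧ f 2 = 2 ∧ f 3 = 2) ∨ (f 0 = 0 ∧ f 1 = 1 ∧ f 2 = 1 ∧ f 3 = 2) ∨
    (f 0 = 0 ∧ f 1 = 1 ∧ f 2 = 1 ∧ f 3 = 1) ∨ (f 0 = 0 ∧ f 1 = 0 ∧ f 2 = 1 ∧ f 3 = 1) := by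
  have m1 : f 0 ≤ f 1 := hf (by decide)
  have m2 : f 1 ≤ f 2 := hf (by decide)
  have m3 : f 2 ≤ f 3 := hf (by decide)
  have b0 := h2 0
  have b1 := h2 1
  have b2 := h2 2
  have b3 := h2 3
  rw [Finset.card_filter, Finset.card_filter, Fin.sum_univ_four, Fin.sum_univ_four] at hc
  have e0 : f 0 = 0 := by
    obtain ⟨i, hi⟩ := h0
    have : f 0 ≤ f i := hf (Fin.zero_le i)
    omega
  have e1 : f 1 = 1 ∨ f 2 = 1 ∨ f 3 = 1 := by
    obtain ⟨i, hi⟩ := h1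
    fin_cases i
    · simp at hi
      omega
    · exact Or.inl hi
    · exact Or.inr (Or.inl hi)
    · exact Or.inr (Or.inr hi)
  have d1 : f 1 = 0 ∨ f 1 = 1 ∨ f 1 = 2 := by omega
  have d2 : f 2 = 0 ∨ f 2 = 1 ∨ f 2 = 2 := by omega
  have d3 : f 3 = 0 ∨ f 3 = 1 ∨ f 3 = 2 := by omega
  rcases d1 with g1 | g1 | g1 <;> rcases d2 with g2 | g2 | g2 <;> rcases d3 with g3 | g3 | g3 <;>
    simp only [e0, g1, g2, g3] at hc e1 m2 m3 ⊢ <;> simp at hc e1 m2 m3 ⊢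

theorem four_line_false {a : Fin 4 → ℕ} {h α : ℤ}
    (N : ∀ (r : ℕ) (b : Fin 4 → ℕ), 1 ≤ r → r ≤ 3 →
      ∑ i, (b i : ℤ) * a i = h + ∑ i, (a i : ℤ) + r * α → ∃ i, b i = 0)
    (R : ∀ l : Fin 4 → ℕ, (∀ q : Fin 4 → ℕ, ∑ i, (q i : ℤ) * a i = h → ∃ i, q i < l i) →
      ∃ m : Fin 4 → ℕ, ∑ i, (m i : ℤ) * a i = ∑ i, (l i : ℤ) * a i + α ∧ ∃ i, 0 < m i)
    (P P' : Fin 4 → ℕ) (hP : ∑ i, (P i : ℤ) * a i = h) (hP' : ∑ i, (P' i : ℤ) * a i = h)
    (hX : ∀ q : Fin 4 → ℕ, ∑ i, (q i : ℤ) * a i = h → q = P' ∨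
      ∀ i, (P' i < P i → P i ≤ q i) ∧ (P i < P' i → q i ≤ P i) ∧ (P i = P' i → q i = P i))
    (hU : ∃ i, P' i < P i) (hV : ∃ i, P i < P' i)
    (hcard : (Finset.univ.filter fun i => P' i < P i).card ≤
      (Finset.univ.filter fun i => P i < P' i).card) : False := by
  classical
  set s : Fin 4 → ℕ := fun i => if P' i < P i then 0 else if P i < P' i then 1 else 2 with hs
  have hs0 : ∀ i, s i = 0 ↔ P' i < P i := by
    intro i
    simp only [hs]
    split_ifs <;> simp_all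
  have hs1 : ∀ i, s i = 1 ↔ P i < P' i := by
    intro i
    simp only [hs]
    split_ifs with g1 g2
    · simp
      omega
    · simp [g2]
    · simp [g2]
  have hs2 : ∀ i, s i = 2 → P i = P' i := by
    intro i hi
    have g1 : ¬ P' i < P i := fun g => by
      have := (hs0 i).2 g
      omega
    have g2 : ¬ P i < P' i := fun g => by
      have := (hs1 i).2 g
      omega
    omega
  have hs3 : ∀ i, s i ≤ 2 := by
    intro i
    simp only [hs]
    split_ifs <;> omega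
  set σ : Equiv.Perm (Fin 4) := Tuple.sort s with hσ
  have hmono : Monotone (s ∘ σ) := Tuple.monotone_sort s
  have hpat := four_patterns (s ∘ σ) hmono (fun i => hs3 _) (by
      obtain ⟨i, hi⟩ := hU
      exact ⟨σ.symm i, by simpa using (hs0 i).2 hi⟩) (by
      obtain ⟨i, hi⟩ := hV
      exact ⟨σ.symm i, by simpa using (hs1 i).2 hi⟩) (by
      have e : ∀ k, (Finset.univ.filter fun i => (s ∘ σ) i = k).card =
          (Finset.univ.filter fun i => s i = k).card := by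
        intro k
        apply Finset.card_bij (fun i _ => σ i)
        · intro i hi
          simpa using hi
        · intro i _ j _ hij
          exact σ.injective hij
        · intro j hj
          exact ⟨σ.symm j, by simpa using hj, by simp⟩
      rw [e 0, e 1]
      have e0 : (Finset.univ.filter fun i => s i = 0) = Finset.univ.filter fun i => P' i < P i := by
        ext i
        simp [hs0]
      have e1 : (Finset.univ.filter fun i => s i = 1) = Finset.univ.filter fun i => P i < P' i := by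
        ext i
        simp [hs1]
      rw [e0, e1]
      exact hcard)
  simp only [Function.comp] at hpat
  -- the explicit system
  have N' : ∀ r b1 b2 b3 b4 : ℕ, 1 ≤ r → r ≤ 3 →
      (b1 : ℤ) * a (σ 0) + b2 * a (σ 1) + b3 * a (σ 2) + b4 * a (σ 3) =
        h + (a (σ 0) + a (σ 1) + a (σ 2) + a (σ 3)) + r * α →
      b1 = 0 ∨ b2 = 0 ∨ b3 = 0 ∨ b4 = 0 := by
    intro r b1 b2 b3 b4 h1 h3 heq
    obtain ⟨i, hi⟩ := N r (fun i => ![b1, b2, b3, b4] (σ.symm i)) h1 h3 (by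
      rw [four_sum_perm, four_sum_perm'' a σ]
      exact heq)
    generalize σ.symm i = j at hi
    fin_cases j
    · exact Or.inl hi
    · exact Or.inr (Or.inl hi)
    · exact Or.inr (Or.inr (Or.inl hi))
    · exact Or.inr (Or.inr (Or.inr hi))
  have R' : ∀ l1 l2 l3 l4 : ℕ, (∀ q1 q2 q3 q4 : ℕ,
      (q1 : ℤ) * a (σ 0) + q2 * a (σ 1) + q3 * a (σ 2) + q4 * a (σ 3) = h →
        q1 < l1 ∨ q2 < l2 ∨ q3 < l3 ∨ q4 < l4) →
      ∃ m1 m2 m3 m4 : ℕ, (m1 : ℤ) * a (σ 0) + m2 * a (σ 1) + m3 * a (σ 2) + m4 * a (σ 3) =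
        l1 * a (σ 0) + l2 * a (σ 1) + l3 * a (σ 2) + l4 * a (σ 3) + α ∧ 0 < m1 + m2 + m3 + m4 := by
    intro l1 l2 l3 l4 hl
    obtain ⟨m, hm, i, hi⟩ := R (fun i => ![l1, l2, l3, l4] (σ.symm i)) (by
      intro q hq
      rw [four_sum_perm' a σ] at hq
      have := hl _ _ _ _ hq
      rcases this with g | g | g | g
      · exact ⟨σ 0, by simpa using g⟩
      · exact ⟨σ 1, by simpa using g⟩
      · exact ⟨σ 2, by simpa using g⟩
      · exact ⟨σ 3, by simpa using g⟩)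
    rw [four_sum_perm' a σ, four_sum_perm] at hm
    refine ⟨m (σ 0), m (σ 1), m (σ 2), m (σ 3), hm, ?_⟩
    obtain ⟨j, rfl⟩ := σ.surjective i
    fin_cases j
    · have : 0 < m (σ 0) := hi
      omega
    · have : 0 < m (σ 1) := hi
      omega
    · have : 0 < m (σ 2) := hi
      omega
    · have : 0 < m (σ 3) := hi
      omega
  rw [four_sum_perm' a σ] at hP hP'
  have hX' : ∀ q1 q2 q3 q4 : ℕ,
      (q1 : ℤ) * a (σ 0) + q2 * a (σ 1) + q3 * a (σ 2) + q4 * a (σ 3) = h →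
      (q1 = P' (σ 0) ∧ q2 = P' (σ 1) ∧ q3 = P' (σ 2) ∧ q4 = P' (σ 3)) ∨
      ((P' (σ 0) < P (σ 0) → P (σ 0) ≤ q1) ∧ (P (σ 0) < P' (σ 0) → q1 ≤ P (σ 0)) ∧
        (P (σ 0) = P' (σ 0) → q1 = P (σ 0))) ∧
      ((P' (σ 1) < P (σ 1) → P (σ 1) ≤ q2) ∧ (P (σ 1) < P' (σ 1) → q2 ≤ P (σ 1)) ∧
        (P (σ 1) = P' (σ 1) → q2 = P (σ 1))) ∧
      ((P' (σ 2) < P (σ 2) → P (σ 2) ≤ q3) ∧ (P (σ 2) < P' (σ 2) → q3 ≤ P (σ 2)) ∧
        (P (σ 2) = P' (σ 2) → q3 = P (σ 2))) ∧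
      ((P' (σ 3) < P (σ 3) → P (σ 3) ≤ q4) ∧ (P (σ 3) < P' (σ 3) → q4 ≤ P (σ 3)) ∧
        (P (σ 3) = P' (σ 3) → q4 = P (σ 3))) := by
    intro q1 q2 q3 q4 hq
    rcases hX (fun i => ![q1, q2, q3, q4] (σ.symm i)) (by rw [four_sum_perm]; exact hq) with g | g
    · left
      have g0 := congrFun g (σ 0)
      have g1 := congrFun g (σ 1)
      have g2 := congrFun g (σ 2)
      have g3 := congrFun g (σ 3)
      simp at g0 g1 g2 g3
      exact ⟨g0, g1, g2, g3⟩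
    · right
      have g0 := g (σ 0)
      have g1 := g (σ 1)
      have g2 := g (σ 2)
      have g3 := g (σ 3)
      simp only [Equiv.symm_apply_apply] at g0 g1 g2 g3
      exact ⟨g0, g1, g2, g3⟩
  clear_value σ
  rcases hpat with ⟨k0, k1, k2, k3⟩ | ⟨k0, k1, k2, k3⟩ | ⟨k0, k1, k2, k3⟩ | ⟨k0, k1, k2, k3⟩
  · have j0 := (hs0 _).1 k0
    have j1 := (hs1 _).1 k1
    have j2 := hs2 _ k2
    have j3 := hs2 _ k3
    obtain ⟨u0, hu0⟩ := Nat.exists_eq_add_of_lt j0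
    obtain ⟨v1, hv1⟩ := Nat.exists_eq_add_of_lt j1
    refine four_type11 N' R' (P' (σ 0)) (P (σ 1)) (P' (σ 2)) (P' (σ 3)) (u0 + 1) (v1 + 1)
      (by omega) (by omega) ?_ ?_ ?_
    · rw [← hP', hv1]
      push_cast
      ring
    · rw [← hP, hu0, j2, j3]
      push_cast
      ring
    · intro q1 q2 q3 q4 hq
      rcases hX' _ _ _ _ hq with g | g
      · left
        omega
      · right
        omega
  · have j0 := (hs0 _).1 k0
    have j1 := (hs1 _).1 k1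
    have j2 := (hs1 _).1 k2
    have j3 := hs2 _ k3
    obtain ⟨u0, hu0⟩ := Nat.exists_eq_add_of_lt j0
    obtain ⟨v1, hv1⟩ := Nat.exists_eq_add_of_lt j1
    obtain ⟨v2, hv2⟩ := Nat.exists_eq_add_of_lt j2
    refine four_type12 N' R' (P' (σ 0)) (P (σ 1)) (P (σ 2)) (P' (σ 3)) (u0 + 1) (v1 + 1) (v2 + 1)
      (by omega) (by omega) (by omega) ?_ ?_ ?_
    · rw [← hP', hv1, hv2]
      push_cast
      ring
    · rw [← hP, hu0, j3]
      push_cast
      ring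
    · intro q1 q2 q3 q4 hq
      rcases hX' _ _ _ _ hq with g | g
      · left
        omega
      · right
        omega
  · have j0 := (hs0 _).1 k0
    have j1 := (hs1 _).1 k1
    have j2 := (hs1 _).1 k2
    have j3 := (hs1 _).1 k3
    obtain ⟨u0, hu0⟩ := Nat.exists_eq_add_of_lt j0
    obtain ⟨v1, hv1⟩ := Nat.exists_eq_add_of_lt j1
    obtain ⟨v2, hv2⟩ := Nat.exists_eq_add_of_lt j2
    obtain ⟨v3, hv3⟩ := Nat.exists_eq_add_of_lt j3
    refine four_type13 N' R' (P' (σ 0)) (P (σ 1)) (P (σ 2)) (P (σ 3)) (u0 + 1) (v1 + 1) (v2 + 1)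
      (v3 + 1) (by omega) (by omega) (by omega) (by omega) ?_ ?_ ?_
    · rw [← hP', hv1, hv2, hv3]
      push_cast
      ring
    · rw [← hP, hu0]
      push_cast
      ring
    · intro q1 q2 q3 q4 hq
      rcases hX' _ _ _ _ hq with g | g
      · left
        omega
      · right
        omega
  · have j0 := (hs0 _).1 k0
    have j1 := (hs0 _).1 k1
    have j2 := (hs1 _).1 k2
    have j3 := (hs1 _).1 k3
    obtain ⟨u0, hu0⟩ := Nat.exists_eq_add_of_lt j0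
    obtain ⟨u1, hu1⟩ := Nat.exists_eq_add_of_lt j1
    obtain ⟨v2, hv2⟩ := Nat.exists_eq_add_of_lt j2
    obtain ⟨v3, hv3⟩ := Nat.exists_eq_add_of_lt j3
    refine four_type22 N' R' (P' (σ 0)) (P' (σ 1)) (P (σ 2)) (P (σ 3)) (u0 + 1) (u1 + 1) (v2 + 1)
      (v3 + 1) (by omega) (by omega) (by omega) (by omega) ?_ ?_ ?_
    · rw [← hP', hv2, hv3]
      push_cast
      ring
    · rw [← hP, hu0, hu1]
      push_cast
      ring
    · intro q1 q2 q3 q4 hq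
      rcases hX' _ _ _ _ hq with g | g
      · left
        omega
      · right
        omega

end Pool.Agent.NumSgp
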