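import Pool.Agent.Lib_MP_c084f5_al.Mirror
import Pool.Agent.Lib_MP_c084f5_al.FourLine

/-!
# Four generators: parity classes
-/

namespace Pool.Agent.NumSgp

/-- a vector with positive entries does not have degree `h + ∑ a_i + rα`, `1 ≤ r < n` -/
theorem par_no_pos {n : ℕ} {a : Fin n → ℕ} {h α : ℤ} (hp : ArithPF a h α) {r : ℕ} (h1 : 1 ≤ r)
    (hr : r < n) (b : Fin n → ℕ)
    (hb : ∑ i, (b i : ℤ) * a i = h + ∑ i, (a i : ℤ) + r * α) : ∃ i, b i = 0 := by
  by_contra hcon
  push Not at hcon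
  refine hp.not_mem_h h1 hr ?_
  rw [mem_sgp_iff]
  refine ⟨fun i => b i - 1, ?_⟩
  have e : ∀ i, ((b i - 1 : ℕ) : ℤ) * a i = (b i : ℤ) * a i - a i := by
    intro i
    rw [Nat.cast_sub (Nat.one_le_iff_ne_zero.2 (hcon i))]
    push_cast
    ring
  rw [Finset.sum_congr rfl (fun i _ => e i), Finset.sum_sub_distrib, hb]
  ring

/-- the midpoint of two points of levels `j`, `j'` -/
theorem par_mid {n : ℕ} {a : Fin n → ℕ} {h α : ℤ} (hp : ArithPF a h α) {j j' r : ℕ}
    (hj : j + j' = 2 * r) (h1 : 1 ≤ r) (hr : r < n) (b b' : Fin n → ℕ)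
    (hpar : ∀ i, b i % 2 = b' i % 2) (hpos : ∀ i, 0 < b i + b' i)
    (hb : ∑ i, (b i : ℤ) * a i = h + ∑ i, (a i : ℤ) + j * α)
    (hb' : ∑ i, (b' i : ℤ) * a i = h + ∑ i, (a i : ℤ) + j' * α) : False := by
  have hc : ∀ i, ((b i + b' i) / 2) * 2 = b i + b' i := by
    intro i
    have := hpar i
    omega
  obtain ⟨i, hi⟩ := par_no_pos hp h1 hr (fun i => (b i + b' i) / 2) (by
    have e : ∀ i, 2 * ((((b i + b' i) / 2 : ℕ) : ℤ) * a i) = (b i : ℤ) * a i + (b' i : ℤ) * a i := by
      intro i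
      have h2 : ((((b i + b' i) / 2 : ℕ)) : ℤ) * 2 = (b i : ℤ) + b' i := by
        exact_mod_cast hc i
      linear_combination (a i : ℤ) * h2
    have h3 : 2 * ∑ i, (((b i + b' i) / 2 : ℕ) : ℤ) * a i =
        2 * (h + ∑ i, (a i : ℤ) + r * α) := by
      rw [Finset.mul_sum, Finset.sum_congr rfl (fun i _ => e i), Finset.sum_add_distrib, hb, hb']
      have h4 : (j : ℤ) + j' = 2 * r := by exact_mod_cast hj
      linear_combination α * h4
    linarith)
  have h5 := hc i
  have h6 := hpos i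
  omega

/-- a pure point of type `i` and level two -/
theorem par_pure {n : ℕ} (hn : 3 ≤ n) {a : Fin n → ℕ} {h α : ℤ} (ha : IsMinGen a)
    (hp : ArithPF a h α) (i : Fin n) :
    ∃ b : Fin n → ℕ, b i = 0 ∧ (∀ k, k ≠ i → 0 < b k) ∧
      ∑ k, (b k : ℤ) * a k = h + ∑ k, (a k : ℤ) + (2 : ℕ) * α := by
  classical
  have h1 := (hp.mem_PF (j := 2) (by omega) (by omega)).2 (a i) (nalpha_gen_mem a i)
    (by exact_mod_cast nalpha_pos ha i)
  obtain ⟨m, hm⟩ := (mem_sgp_iff a _).1 h1
  have hmi : m i = 0 := by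
    by_contra h0
    have h2 := sub_gen_mem a m i (Nat.pos_of_ne_zero h0)
    rw [← hm, add_sub_cancel_right] at h2
    exact hp.not_mem_h (j := 2) (by omega) (by omega) h2
  refine ⟨fun k => if k = i then 0 else m k + 1, by simp, fun k hk => by simp [hk], ?_⟩
  have e : ∀ k, (((if k = i then 0 else m k + 1 : ℕ)) : ℤ) * a k =
      (m k : ℤ) * a k + a k - if k = i then (a i : ℤ) else 0 := by
    intro k
    split_ifs with hk
    · subst hk
      rw [hmi]
      simp
    · push_cast
      ring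
  rw [Finset.sum_congr rfl (fun k _ => e k), Finset.sum_sub_distrib, Finset.sum_add_distrib, ← hm]
  simp
  ring

/-- the parity vectors with a given value of a nonzero linear form -/
theorem par_card : ∀ (A : Fin 4 → ZMod 2), A ≠ 0 → ∀ s : ZMod 2,
    (Finset.univ.filter fun e : Fin 4 → ZMod 2 => ∑ i, e i * A i = s).card ≤ 8 := by
  decide

theorem par_three {a : Fin 4 → ℕ} {h α : ℤ} (ha : IsMinGen a) (hp : ArithPF a h α)
    (A : Fin 3 → Fin 4 → ℕ) (hA : ∀ t, ∑ i, (A t i : ℤ) * a i = h)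
    (hAi : ∀ t t', (∀ i, A t i % 2 = A t' i % 2) → t = t')
    (B : Fin 2 → Fin 4 → ℕ) (hB : ∀ t, ∑ i, (B t i : ℤ) * a i = h + 4 * α)
    (hBi : ∀ t t', (∀ i, B t i % 2 = B t' i % 2) → t = t') : False := by
  classical
  choose b hb0 hb1 hb2 using fun i : Fin 4 => par_pure (n := 4) (by norm_num) ha hp i
  have hA' : ∀ t, ∑ i, ((A t i + 1 : ℕ) : ℤ) * a i = h + ∑ i, (a i : ℤ) + (0 : ℕ) * α := by
    intro t
    rw [← hA t, ← Finset.sum_add_distrib]
    push_cast
    rw [zero_mul, add_zero]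
    exact Finset.sum_congr rfl fun i _ => by ring
  have hB' : ∀ t, ∑ i, ((B t i + 1 : ℕ) : ℤ) * a i = h + ∑ i, (a i : ℤ) + (4 : ℕ) * α := by
    intro t
    have h1 : ∑ i, ((B t i + 1 : ℕ) : ℤ) * a i = ∑ i, (B t i : ℤ) * a i + ∑ i, (a i : ℤ) := by
      rw [← Finset.sum_add_distrib]
      push_cast
      exact Finset.sum_congr rfl fun i _ => by ring
    rw [h1, hB t]
    push_cast
    ring
  set g : (Fin 4 ⊕ Fin 3) ⊕ Fin 2 → Fin 4 → ℕ :=
    Sum.elim (Sum.elim b fun t i => A t i + 1) (fun t i => B t i + 1) with hg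
  have hinj : ∀ x y, (∀ i, g x i % 2 = g y i % 2) → x = y := by
    rintro ((x | x) | x) ((y | y) | y) hxy
    · simp only [hg, Sum.elim_inl] at hxy
      by_contra hne
      have hne' : x ≠ y := fun e => hne (by rw [e])
      refine par_mid hp (j := 2) (j' := 2) (r := 2) (by norm_num) (by norm_num) (by norm_num)
        (b x) (b y) hxy (fun i => ?_) (hb2 x) (hb2 y)
      by_cases hi : i = x
      · have := hb1 y i (by rw [hi]; exact hne')
        omega
      · have := hb1 x i hi
        omega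
    · exfalso
      simp only [hg, Sum.elim_inl, Sum.elim_inr] at hxy
      exact par_mid hp (j := 2) (j' := 0) (r := 1) (by norm_num) (by norm_num) (by norm_num)
        (b x) (fun i => A y i + 1) hxy (fun i => by omega) (hb2 x) (hA' y)
    · exfalso
      simp only [hg, Sum.elim_inl, Sum.elim_inr] at hxy
      exact par_mid hp (j := 2) (j' := 4) (r := 3) (by norm_num) (by norm_num) (by norm_num)
        (b x) (fun i => B y i + 1) hxy (fun i => by omega) (hb2 x) (hB' y)
    · exfalso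
      simp only [hg, Sum.elim_inl, Sum.elim_inr] at hxy
      exact par_mid hp (j := 0) (j' := 2) (r := 1) (by norm_num) (by norm_num) (by norm_num)
        (fun i => A x i + 1) (b y) hxy (fun i => by omega) (hA' x) (hb2 y)
    · simp only [hg, Sum.elim_inl, Sum.elim_inr] at hxy
      rw [hAi x y fun i => by have := hxy i; omega]
    · exfalso
      simp only [hg, Sum.elim_inl, Sum.elim_inr] at hxy
      exact par_mid hp (j := 0) (j' := 4) (r := 2) (by norm_num) (by norm_num) (by norm_num)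
        (fun i => A x i + 1) (fun i => B y i + 1) hxy (fun i => by omega) (hA' x) (hB' y)
    · exfalso
      simp only [hg, Sum.elim_inl, Sum.elim_inr] at hxy
      exact par_mid hp (j := 4) (j' := 2) (r := 3) (by norm_num) (by norm_num) (by norm_num)
        (fun i => B x i + 1) (b y) hxy (fun i => by omega) (hB' x) (hb2 y)
    · exfalso
      simp only [hg, Sum.elim_inl, Sum.elim_inr] at hxy
      exact par_mid hp (j := 4) (j' := 0) (r := 2) (by norm_num) (by norm_num) (by norm_num)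
        (fun i => B x i + 1) (fun i => A y i + 1) hxy (fun i => by omega) (hB' x) (hA' y)
    · simp only [hg, Sum.elim_inr] at hxy
      rw [hBi x y fun i => by have := hxy i; omega]
  have hval : ∀ x, ∑ i, ((g x i : ℕ) : ZMod 2) * (a i : ZMod 2) =
      ((h + ∑ i, (a i : ℤ) : ℤ) : ZMod 2) := by
    have key : ∀ (v : Fin 4 → ℕ) (j : ℕ), j % 2 = 0 →
        ∑ i, (v i : ℤ) * a i = h + ∑ i, (a i : ℤ) + (j : ℕ) * α →
        ∑ i, (v i : ZMod 2) * (a i : ZMod 2) = ((h + ∑ i, (a i : ℤ) : ℤ) : ZMod 2) := by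
      intro v j hj hv
      have h1 := congrArg (Int.cast : ℤ → ZMod 2) hv
      push_cast at h1
      have h2 : (j : ZMod 2) = 0 := by
        rw [ZMod.natCast_eq_zero_iff]
        exact Nat.dvd_of_mod_eq_zero hj
      rw [h2, zero_mul, add_zero] at h1
      push_cast
      exact h1
    rintro ((x | x) | x)
    · exact key (b x) 2 rfl (hb2 x)
    · exact key (fun i => A x i + 1) 0 rfl (hA' x)
    · exact key (fun i => B x i + 1) 4 rfl (hB' x)
  have hA0 : (fun i => (a i : ZMod 2)) ≠ 0 := by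
    intro h0
    have h1 : 2 ∣ Finset.univ.gcd a := by
      refine Finset.dvd_gcd fun i _ => ?_
      have h2 := congrFun h0 i
      simp only [Pi.zero_apply] at h2
      exact (ZMod.natCast_eq_zero_iff _ _).1 h2
    rw [ha.1] at h1
    omega
  have hcard := par_card (fun i => (a i : ZMod 2)) hA0 ((h + ∑ i, (a i : ℤ) : ℤ) : ZMod 2)
  have hle : Fintype.card ((Fin 4 ⊕ Fin 3) ⊕ Fin 2) ≤
      (Finset.univ.filter fun e : Fin 4 → ZMod 2 =>
        ∑ i, e i * (a i : ZMod 2) = ((h + ∑ i, (a i : ℤ) : ℤ) : ZMod 2)).card := by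
    rw [← Finset.card_univ]
    apply Finset.card_le_card_of_injOn (fun x i => ((g x i : ℕ) : ZMod 2))
    · intro x _
      rw [Finset.mem_coe, Finset.mem_filter]
      exact ⟨Finset.mem_univ _, hval x⟩
    · intro x _ y _ hxy
      apply hinj
      intro i
      have h1 := congrFun hxy i
      simp only at h1
      exact (ZMod.natCast_eq_natCast_iff' _ _ _).1 h1
  simp only [Fintype.card_sum, Fintype.card_fin] at hle
  omega

end Pool.Agent.NumSgp
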