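import Mathlib

/-!
# Four generators: the four types of a line of factorizations of `h`

Explicit form with numbers `a1, .., a4`. `N` : a monomial with all exponents positive does not
have degree `h + (a1 + .. + a4) + r α`, `1 ≤ r ≤ 3`. `R` : a monomial `l` which divides no
factorization of `h` has degree `x` with `x + α` in the semigroup.
-/

namespace Pool.Agent.NumSgp

/-- type `|U| = |V| = 2` -/
theorem four_type22 {a1 a2 a3 a4 h α : ℤ}
    (N : ∀ r b1 b2 b3 b4 : ℕ, 1 ≤ r → r ≤ 3 →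
      (b1 : ℤ) * a1 + b2 * a2 + b3 * a3 + b4 * a4 = h + (a1 + a2 + a3 + a4) + r * α →
      b1 = 0 ∨ b2 = 0 ∨ b3 = 0 ∨ b4 = 0)
    (R : ∀ l1 l2 l3 l4 : ℕ, (∀ q1 q2 q3 q4 : ℕ,
      (q1 : ℤ) * a1 + q2 * a2 + q3 * a3 + q4 * a4 = h → q1 < l1 ∨ q2 < l2 ∨ q3 < l3 ∨ q4 < l4) →
      ∃ m1 m2 m3 m4 : ℕ, (m1 : ℤ) * a1 + m2 * a2 + m3 * a3 + m4 * a4 =
        l1 * a1 + l2 * a2 + l3 * a3 + l4 * a4 + α ∧ 0 < m1 + m2 + m3 + m4)
    (p1 p2 t3 t4 u1 u2 v3 v4 : ℕ) (hu1 : 0 < u1) (hu2 : 0 < u2) (hv3 : 0 < v3) (hv4 : 0 < v4)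
    (hP' : (p1 : ℤ) * a1 + p2 * a2 + (v3 + t3) * a3 + (v4 + t4) * a4 = h)
    (hP : ((p1 : ℤ) + u1) * a1 + (p2 + u2) * a2 + t3 * a3 + t4 * a4 = h)
    (hX : ∀ q1 q2 q3 q4 : ℕ, (q1 : ℤ) * a1 + q2 * a2 + q3 * a3 + q4 * a4 = h →
      (q1 = p1 ∧ q2 = p2 ∧ q3 = v3 + t3 ∧ q4 = v4 + t4) ∨
      (p1 + u1 ≤ q1 ∧ p2 + u2 ≤ q2 ∧ q3 ≤ t3 ∧ q4 ≤ t4)) : False := by
  obtain ⟨x1, x2, x3, x4, hx, hx0⟩ := R (p1 + 1) 0 (t3 + 1) 0 (by
    intro q1 q2 q3 q4 hq
    rcases hX _ _ _ _ hq with h1 | h1 <;> omega)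
  obtain ⟨y1, y2, y3, y4, hy, hy0⟩ := R 0 (p2 + 1) 0 (t4 + 1) (by
    intro q1 q2 q3 q4 hq
    rcases hX _ _ _ _ hq with h1 | h1 <;> omega)
  obtain ⟨z1, z2, z3, z4, hz, hz0⟩ := R (p1 + 1) 0 0 (t4 + 1) (by
    intro q1 q2 q3 q4 hq
    rcases hX _ _ _ _ hq with h1 | h1 <;> omega)
  obtain ⟨w1, w2, w3, w4, hw, hw0⟩ := R 0 (p2 + 1) (t3 + 1) 0 (by
    intro q1 q2 q3 q4 hq
    rcases hX _ _ _ _ hq with h1 | h1 <;> omega)
  push_cast at hx hy hz hw
  -- level one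
  have e1 := N 1 x1 (p2 + 1 + x2) (v3 + x3) (v4 + t4 + 1 + x4) le_rfl (by omega)
    (by push_cast; linear_combination hx + hP')
  have e2 := N 1 (u1 + x1) (p2 + u2 + 1 + x2) x3 (t4 + 1 + x4) le_rfl (by omega)
    (by push_cast; linear_combination hx + hP)
  have e3 := N 1 (p1 + 1 + y1) y2 (v3 + t3 + 1 + y3) (v4 + y4) le_rfl (by omega)
    (by push_cast; linear_combination hy + hP')
  have e4 := N 1 (p1 + u1 + 1 + y1) (u2 + y2) (t3 + 1 + y3) y4 le_rfl (by omega)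
    (by push_cast; linear_combination hy + hP)
  have e5 := N 1 z1 (p2 + 1 + z2) (v3 + t3 + 1 + z3) (v4 + z4) le_rfl (by omega)
    (by push_cast; linear_combination hz + hP')
  have e6 := N 1 (u1 + z1) (p2 + u2 + 1 + z2) (t3 + 1 + z3) z4 le_rfl (by omega)
    (by push_cast; linear_combination hz + hP)
  have e7 := N 1 (p1 + 1 + w1) w2 (v3 + w3) (v4 + t4 + 1 + w4) le_rfl (by omega)
    (by push_cast; linear_combination hw + hP')
  have e8 := N 1 (p1 + u1 + 1 + w1) (u2 + w2) w3 (t4 + 1 + w4) le_rfl (by omega)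
    (by push_cast; linear_combination hw + hP)
  have hx1 : x1 = 0 := by omega
  have hx3 : x3 = 0 := by omega
  have hy2 : y2 = 0 := by omega
  have hy4 : y4 = 0 := by omega
  have hz1 : z1 = 0 := by omega
  have hz4 : z4 = 0 := by omega
  have hw2 : w2 = 0 := by omega
  have hw3 : w3 = 0 := by omega
  subst hx1 hx3 hy2 hy4 hz1 hz4 hw2 hw3
  -- level two
  have f1 := N 2 (u1 + y1) (u2 + x2) y3 x4 (by omega) (by omega)
    (by push_cast; linear_combination hx + hy + hP)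
  have f2 := N 2 y1 x2 (v3 + y3) (v4 + x4) (by omega) (by omega)
    (by push_cast; linear_combination hx + hy + hP')
  have f3 := N 2 (u1 + w1) (u2 + z2) z3 w4 (by omega) (by omega)
    (by push_cast; linear_combination hz + hw + hP)
  have f4 := N 2 w1 z2 (v3 + z3) (v4 + w4) (by omega) (by omega)
    (by push_cast; linear_combination hz + hw + hP')
  have f1' : y3 = 0 ∨ x4 = 0 := by omega
  have f2' : y1 = 0 ∨ x2 = 0 := by omega
  have f3' : z3 = 0 ∨ w4 = 0 := by omega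
  have f4' : w1 = 0 ∨ z2 = 0 := by omega
  have c1 : (x4 = 0 ∧ y1 = 0) ∨ (y3 = 0 ∧ x2 = 0) := by omega
  have c2 : (z3 = 0 ∧ w1 = 0) ∨ (w4 = 0 ∧ z2 = 0) := by omega
  rcases c1 with ⟨g1, g2⟩ | ⟨g1, g2⟩ <;> rcases c2 with ⟨g3, g4⟩ | ⟨g3, g4⟩ <;>
    subst g1 g2 g3 g4
  · -- `13 → 2`, `14 → 2`
    rcases le_total z2 x2 with hle | hle
    · obtain ⟨d, rfl⟩ := Nat.exists_eq_add_of_le hle
      obtain ⟨v, rfl⟩ := Nat.exists_eq_add_of_le' hv3
      have := hX p1 (p2 + d) v (v4 + t4 + (t4 + 1)) (by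
        push_cast at hx hz hP' ⊢
        linear_combination hP' + hx - hz)
      omega
    · obtain ⟨d, rfl⟩ := Nat.exists_eq_add_of_le hle
      obtain ⟨v, rfl⟩ := Nat.exists_eq_add_of_le' hv4
      have := hX p1 (p2 + d) (v3 + t3 + (t3 + 1)) v (by
        push_cast at hx hz hP' ⊢
        linear_combination hP' - hx + hz)
      omega
  · -- `24 → 3`, `14 → 3`
    rcases le_total z3 y3 with hle | hle
    · obtain ⟨d, rfl⟩ := Nat.exists_eq_add_of_le hle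
      obtain ⟨v, rfl⟩ := Nat.exists_eq_add_of_le' hu2
      have := hX (p1 + u1 + (p1 + 1)) v (t3 + d) t4 (by
        push_cast at hy hz hP ⊢
        linear_combination hP + hy - hz)
      omega
    · obtain ⟨d, rfl⟩ := Nat.exists_eq_add_of_le hle
      obtain ⟨v, rfl⟩ := Nat.exists_eq_add_of_le' hu1
      have := hX v (p2 + u2 + (p2 + 1)) (t3 + d) t4 (by
        push_cast at hy hz hP ⊢
        linear_combination hP - hy + hz)
      omega
  · -- `13 → 4`, `23 → 4`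
    rcases le_total w4 x4 with hle | hle
    · obtain ⟨d, rfl⟩ := Nat.exists_eq_add_of_le hle
      obtain ⟨v, rfl⟩ := Nat.exists_eq_add_of_le' hu1
      have := hX v (p2 + u2 + (p2 + 1)) t3 (t4 + d) (by
        push_cast at hx hw hP ⊢
        linear_combination hP + hx - hw)
      omega
    · obtain ⟨d, rfl⟩ := Nat.exists_eq_add_of_le hle
      obtain ⟨v, rfl⟩ := Nat.exists_eq_add_of_le' hu2
      have := hX (p1 + u1 + (p1 + 1)) v t3 (t4 + d) (by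
        push_cast at hx hw hP ⊢
        linear_combination hP - hx + hw)
      omega
  · -- `24 → 1`, `23 → 1`
    rcases le_total w1 y1 with hle | hle
    · obtain ⟨d, rfl⟩ := Nat.exists_eq_add_of_le hle
      obtain ⟨v, rfl⟩ := Nat.exists_eq_add_of_le' hv4
      have := hX (p1 + d) p2 (v3 + t3 + (t3 + 1)) v (by
        push_cast at hy hw hP' ⊢
        linear_combination hP' + hy - hw)
      omega
    · obtain ⟨d, rfl⟩ := Nat.exists_eq_add_of_le hle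
      obtain ⟨v, rfl⟩ := Nat.exists_eq_add_of_le' hv3
      have := hX (p1 + d) p2 v (v4 + t4 + (t4 + 1)) (by
        push_cast at hy hw hP' ⊢
        linear_combination hP' - hy + hw)
      omega

/-- type `|U| = |V| = 1` -/
theorem four_type11 {a1 a2 a3 a4 h α : ℤ}
    (N : ∀ r b1 b2 b3 b4 : ℕ, 1 ≤ r → r ≤ 3 →
      (b1 : ℤ) * a1 + b2 * a2 + b3 * a3 + b4 * a4 = h + (a1 + a2 + a3 + a4) + r * α →
      b1 = 0 ∨ b2 = 0 ∨ b3 = 0 ∨ b4 = 0)
    (R : ∀ l1 l2 l3 l4 : ℕ, (∀ q1 q2 q3 q4 : ℕ,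
      (q1 : ℤ) * a1 + q2 * a2 + q3 * a3 + q4 * a4 = h → q1 < l1 ∨ q2 < l2 ∨ q3 < l3 ∨ q4 < l4) →
      ∃ m1 m2 m3 m4 : ℕ, (m1 : ℤ) * a1 + m2 * a2 + m3 * a3 + m4 * a4 =
        l1 * a1 + l2 * a2 + l3 * a3 + l4 * a4 + α ∧ 0 < m1 + m2 + m3 + m4)
    (p1 t2 p3 p4 u1 v2 : ℕ) (hu1 : 0 < u1) (hv2 : 0 < v2)
    (hP' : (p1 : ℤ) * a1 + (v2 + t2) * a2 + p3 * a3 + p4 * a4 = h)
    (hP : ((p1 : ℤ) + u1) * a1 + t2 * a2 + p3 * a3 + p4 * a4 = h)
    (hX : ∀ q1 q2 q3 q4 : ℕ, (q1 : ℤ) * a1 + q2 * a2 + q3 * a3 + q4 * a4 = h →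
      (q1 = p1 ∧ q2 = v2 + t2 ∧ q3 = p3 ∧ q4 = p4) ∨
      (p1 + u1 ≤ q1 ∧ q2 ≤ t2 ∧ q3 = p3 ∧ q4 = p4)) : False := by
  obtain ⟨x1, x2, x3, x4, hx, hx0⟩ := R (p1 + 1) (t2 + 1) 0 0 (by
    intro q1 q2 q3 q4 hq
    rcases hX _ _ _ _ hq with h1 | h1 <;> omega)
  obtain ⟨y1, y2, y3, y4, hy, hy0⟩ := R 0 0 (p3 + 1) 0 (by
    intro q1 q2 q3 q4 hq
    rcases hX _ _ _ _ hq with h1 | h1 <;> omega)
  obtain ⟨z1, z2, z3, z4, hz, hz0⟩ := R 0 0 0 (p4 + 1) (by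
    intro q1 q2 q3 q4 hq
    rcases hX _ _ _ _ hq with h1 | h1 <;> omega)
  push_cast at hx hy hz
  have e1 := N 1 x1 (v2 + x2) (p3 + 1 + x3) (p4 + 1 + x4) le_rfl (by omega)
    (by push_cast; linear_combination hx + hP')
  have e2 := N 1 (u1 + x1) x2 (p3 + 1 + x3) (p4 + 1 + x4) le_rfl (by omega)
    (by push_cast; linear_combination hx + hP)
  have e3 := N 1 (p1 + 1 + y1) (v2 + t2 + 1 + y2) y3 (p4 + 1 + y4) le_rfl (by omega)
    (by push_cast; linear_combination hy + hP')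
  have e4 := N 1 (p1 + 1 + z1) (v2 + t2 + 1 + z2) (p3 + 1 + z3) z4 le_rfl (by omega)
    (by push_cast; linear_combination hz + hP')
  have hx1 : x1 = 0 := by omega
  have hx2 : x2 = 0 := by omega
  have hy3 : y3 = 0 := by omega
  have hz4 : z4 = 0 := by omega
  subst hx1 hx2 hy3 hz4
  have f1 := N 2 y1 (v2 + y2) x3 (p4 + 1 + x4 + y4) (by omega) (by omega)
    (by push_cast; linear_combination hx + hy + hP')
  have f2 := N 2 (u1 + y1) y2 x3 (p4 + 1 + x4 + y4) (by omega) (by omega)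
    (by push_cast; linear_combination hx + hy + hP)
  have f3 := N 2 z1 (v2 + z2) (p3 + 1 + x3 + z3) x4 (by omega) (by omega)
    (by push_cast; linear_combination hx + hz + hP')
  have f4 := N 2 (u1 + z1) z2 (p3 + 1 + x3 + z3) x4 (by omega) (by omega)
    (by push_cast; linear_combination hx + hz + hP)
  have f5 := N 2 (p1 + 1 + y1 + z1) (v2 + t2 + 1 + y2 + z2) z3 y4 (by omega) (by omega)
    (by push_cast; linear_combination hy + hz + hP')
  have g1 := N 3 (y1 + z1) (v2 + y2 + z2) (x3 + z3) (x4 + y4) (by omega) (by omega)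
    (by push_cast; linear_combination hx + hy + hz + hP')
  have g2 := N 3 (u1 + y1 + z1) (y2 + z2) (x3 + z3) (x4 + y4) (by omega) (by omega)
    (by push_cast; linear_combination hx + hy + hz + hP)
  omega

/-- type `|U| = 1`, `|V| = 2` -/
theorem four_type12 {a1 a2 a3 a4 h α : ℤ}
    (N : ∀ r b1 b2 b3 b4 : ℕ, 1 ≤ r → r ≤ 3 →
      (b1 : ℤ) * a1 + b2 * a2 + b3 * a3 + b4 * a4 = h + (a1 + a2 + a3 + a4) + r * α →
      b1 = 0 ∨ b2 = 0 ∨ b3 = 0 ∨ b4 = 0)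
    (R : ∀ l1 l2 l3 l4 : ℕ, (∀ q1 q2 q3 q4 : ℕ,
      (q1 : ℤ) * a1 + q2 * a2 + q3 * a3 + q4 * a4 = h → q1 < l1 ∨ q2 < l2 ∨ q3 < l3 ∨ q4 < l4) →
      ∃ m1 m2 m3 m4 : ℕ, (m1 : ℤ) * a1 + m2 * a2 + m3 * a3 + m4 * a4 =
        l1 * a1 + l2 * a2 + l3 * a3 + l4 * a4 + α ∧ 0 < m1 + m2 + m3 + m4)
    (p1 t2 t3 p4 u1 v2 v3 : ℕ) (hu1 : 0 < u1) (hv2 : 0 < v2) (hv3 : 0 < v3)
    (hP' : (p1 : ℤ) * a1 + (v2 + t2) * a2 + (v3 + t3) * a3 + p4 * a4 = h)
    (hP : ((p1 : ℤ) + u1) * a1 + t2 * a2 + t3 * a3 + p4 * a4 = h)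
    (hX : ∀ q1 q2 q3 q4 : ℕ, (q1 : ℤ) * a1 + q2 * a2 + q3 * a3 + q4 * a4 = h →
      (q1 = p1 ∧ q2 = v2 + t2 ∧ q3 = v3 + t3 ∧ q4 = p4) ∨
      (p1 + u1 ≤ q1 ∧ q2 ≤ t2 ∧ q3 ≤ t3 ∧ q4 = p4)) : False := by
  have hlt : p1 < u1 := by
    by_contra hcon
    push Not at hcon
    obtain ⟨d, rfl⟩ := Nat.exists_eq_add_of_le hcon
    have := hX d (v2 + (v2 + t2)) (v3 + (v3 + t3)) p4 (by
      push_cast at hP hP' ⊢
      linear_combination 2 * hP' - hP)
    omega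
  obtain ⟨z0, rfl⟩ := Nat.exists_eq_add_of_lt hlt
  obtain ⟨x1, x2, x3, x4, hx, hx0⟩ := R 0 (v2 + t2 + 1) 0 0 (by
    intro q1 q2 q3 q4 hq
    rcases hX _ _ _ _ hq with h1 | h1 <;> omega)
  obtain ⟨y1, y2, y3, y4, hy, hy0⟩ := R 0 0 (v3 + t3 + 1) 0 (by
    intro q1 q2 q3 q4 hq
    rcases hX _ _ _ _ hq with h1 | h1 <;> omega)
  obtain ⟨z1, z2, z3, z4, hz, hz0⟩ := R 0 0 0 (p4 + 1) (by
    intro q1 q2 q3 q4 hq
    rcases hX _ _ _ _ hq with h1 | h1 <;> omega)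
  obtain ⟨l1, l2, l3, l4, hl, hl0⟩ := R (p1 + 1) (t2 + 1) 0 0 (by
    intro q1 q2 q3 q4 hq
    rcases hX _ _ _ _ hq with h1 | h1 <;> omega)
  obtain ⟨m1, m2, m3, m4, hm, hm0⟩ := R (p1 + 1) 0 (t3 + 1) 0 (by
    intro q1 q2 q3 q4 hq
    rcases hX _ _ _ _ hq with h1 | h1 <;> omega)
  push_cast at hx hy hz hl hm hP
  -- level one, in `P' + 1`
  have e1 := N 1 (p1 + 1 + x1) x2 (v3 + t3 + 1 + x3) (p4 + 1 + x4) le_rfl (by omega)
    (by push_cast; linear_combination hx + hP')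
  have e2 := N 1 (p1 + 1 + y1) (v2 + t2 + 1 + y2) y3 (p4 + 1 + y4) le_rfl (by omega)
    (by push_cast; linear_combination hy + hP')
  have e3 := N 1 (p1 + 1 + z1) (v2 + t2 + 1 + z2) (v3 + t3 + 1 + z3) z4 le_rfl (by omega)
    (by push_cast; linear_combination hz + hP')
  have hx2 : x2 = 0 := by omega
  have hy3 : y3 = 0 := by omega
  have hz4 : z4 = 0 := by omega
  subst hx2 hy3 hz4
  have f1 := N 2 (p1 + 1 + x1 + y1) y2 x3 (p4 + 1 + x4 + y4) (by omega) (by omega)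
    (by push_cast; linear_combination hx + hy + hP')
  have f2 := N 2 (p1 + 1 + x1 + z1) z2 (v3 + t3 + 1 + x3 + z3) x4 (by omega) (by omega)
    (by push_cast; linear_combination hx + hz + hP')
  have f3 := N 2 (p1 + 1 + y1 + z1) (v2 + t2 + 1 + y2 + z2) z3 y4 (by omega) (by omega)
    (by push_cast; linear_combination hy + hz + hP')
  have g1 := N 3 (p1 + 1 + x1 + y1 + z1) (y2 + z2) (x3 + z3) (x4 + y4) (by omega) (by omega)
    (by push_cast; linear_combination hx + hy + hz + hP')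
  rcases Nat.eq_zero_or_pos z0 with h0 | h0
  · subst h0
    push_cast at hP
    -- `u1 = p1 + 1`; one has `(p1 + 1) a1 = v2 a2 + v3 a3`
    have i1 := N 1 x1 v2 (2 * v3 + t3 + 1 + x3) (p4 + 1 + x4) le_rfl (by omega)
      (by push_cast; linear_combination hx + 2 * hP' - hP)
    have i2 := N 1 y1 (2 * v2 + t2 + 1 + y2) v3 (p4 + 1 + y4) le_rfl (by omega)
      (by push_cast; linear_combination hy + 2 * hP' - hP)
    have hx1 : x1 = 0 := by omega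
    have hy1 : y1 = 0 := by omega
    subst hx1 hy1
    have i3 := N 2 z1 (v2 + z2) (2 * v3 + t3 + 1 + x3 + z3) x4 (by omega) (by omega)
      (by push_cast; linear_combination hx + hz + 2 * hP' - hP)
    have i4 := N 2 z1 (2 * v2 + t2 + 1 + y2 + z2) (v3 + z3) y4 (by omega) (by omega)
      (by push_cast; linear_combination hy + hz + 2 * hP' - hP)
    omega
  · have j1 := N 1 l1 (v2 + l2) (v3 + t3 + 1 + l3) (p4 + 1 + l4) le_rfl (by omega)
      (by push_cast; linear_combination hl + hP')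
    have j2 := N 1 (p1 + z0 + 1 + l1) l2 (t3 + 1 + l3) (p4 + 1 + l4) le_rfl (by omega)
      (by push_cast; linear_combination hl + hP)
    have j3 := N 1 m1 (v2 + t2 + 1 + m2) (v3 + m3) (p4 + 1 + m4) le_rfl (by omega)
      (by push_cast; linear_combination hm + hP')
    have j4 := N 1 (p1 + z0 + 1 + m1) (t2 + 1 + m2) m3 (p4 + 1 + m4) le_rfl (by omega)
      (by push_cast; linear_combination hm + hP)
    have hl1 : l1 = 0 := by omega
    have hl2 : l2 = 0 := by omega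
    have hm1 : m1 = 0 := by omega
    have hm3 : m3 = 0 := by omega
    subst hl1 hl2 hm1 hm3
    have k1 := N 2 z0 m2 l3 (p4 + 1 + l4 + m4) (by omega) (by omega)
      (by push_cast; linear_combination hl + hm + hP)
    have k2 := N 2 z1 (v2 + z2) (v3 + t3 + 1 + l3 + z3) l4 (by omega) (by omega)
      (by push_cast; linear_combination hl + hz + hP')
    have k3 := N 2 (p1 + z0 + 1 + z1) z2 (t3 + 1 + l3 + z3) l4 (by omega) (by omega)
      (by push_cast; linear_combination hl + hz + hP)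
    have k4 := N 2 z1 (v2 + t2 + 1 + m2 + z2) (v3 + z3) m4 (by omega) (by omega)
      (by push_cast; linear_combination hm + hz + hP')
    have k5 := N 2 (p1 + z0 + 1 + z1) (t2 + 1 + m2 + z2) z3 m4 (by omega) (by omega)
      (by push_cast; linear_combination hm + hz + hP)
    have g2 := N 3 (z0 + z1) (m2 + z2) (l3 + z3) (l4 + m4) (by omega) (by omega)
      (by push_cast; linear_combination hl + hm + hz + hP)
    omega

/-- type `|U| = 1`, `|V| = 3` -/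
theorem four_type13 {a1 a2 a3 a4 h α : ℤ}
    (N : ∀ r b1 b2 b3 b4 : ℕ, 1 ≤ r → r ≤ 3 →
      (b1 : ℤ) * a1 + b2 * a2 + b3 * a3 + b4 * a4 = h + (a1 + a2 + a3 + a4) + r * α →
      b1 = 0 ∨ b2 = 0 ∨ b3 = 0 ∨ b4 = 0)
    (R : ∀ l1 l2 l3 l4 : ℕ, (∀ q1 q2 q3 q4 : ℕ,
      (q1 : ℤ) * a1 + q2 * a2 + q3 * a3 + q4 * a4 = h → q1 < l1 ∨ q2 < l2 ∨ q3 < l3 ∨ q4 < l4) →
      ∃ m1 m2 m3 m4 : ℕ, (m1 : ℤ) * a1 + m2 * a2 + m3 * a3 + m4 * a4 =
        l1 * a1 + l2 * a2 + l3 * a3 + l4 * a4 + α ∧ 0 < m1 + m2 + m3 + m4)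
    (p1 t2 t3 t4 u1 v2 v3 v4 : ℕ) (hu1 : 0 < u1) (hv2 : 0 < v2) (hv3 : 0 < v3) (hv4 : 0 < v4)
    (hP' : (p1 : ℤ) * a1 + (v2 + t2) * a2 + (v3 + t3) * a3 + (v4 + t4) * a4 = h)
    (hP : ((p1 : ℤ) + u1) * a1 + t2 * a2 + t3 * a3 + t4 * a4 = h)
    (hX : ∀ q1 q2 q3 q4 : ℕ, (q1 : ℤ) * a1 + q2 * a2 + q3 * a3 + q4 * a4 = h →
      (q1 = p1 ∧ q2 = v2 + t2 ∧ q3 = v3 + t3 ∧ q4 = v4 + t4) ∨
      (p1 + u1 ≤ q1 ∧ q2 ≤ t2 ∧ q3 ≤ t3 ∧ q4 ≤ t4)) : False := by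
  have hlt : p1 < u1 := by
    by_contra hcon
    push Not at hcon
    obtain ⟨d, rfl⟩ := Nat.exists_eq_add_of_le hcon
    have := hX d (v2 + (v2 + t2)) (v3 + (v3 + t3)) (v4 + (v4 + t4)) (by
      push_cast at hP hP' ⊢
      linear_combination 2 * hP' - hP)
    omega
  obtain ⟨z0, rfl⟩ := Nat.exists_eq_add_of_lt hlt
  obtain ⟨x1, x2, x3, x4, hx, hx0⟩ := R 0 (v2 + t2 + 1) 0 0 (by
    intro q1 q2 q3 q4 hq
    rcases hX _ _ _ _ hq with h1 | h1 <;> omega)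
  obtain ⟨y1, y2, y3, y4, hy, hy0⟩ := R 0 0 (v3 + t3 + 1) 0 (by
    intro q1 q2 q3 q4 hq
    rcases hX _ _ _ _ hq with h1 | h1 <;> omega)
  obtain ⟨z1, z2, z3, z4, hz, hz0⟩ := R 0 0 0 (v4 + t4 + 1) (by
    intro q1 q2 q3 q4 hq
    rcases hX _ _ _ _ hq with h1 | h1 <;> omega)
  obtain ⟨l1, l2, l3, l4, hl, hl0⟩ := R (p1 + 1) (t2 + 1) 0 0 (by
    intro q1 q2 q3 q4 hq
    rcases hX _ _ _ _ hq with h1 | h1 <;> omega)
  obtain ⟨m1, m2, m3, m4, hm, hm0⟩ := R (p1 + 1) 0 (t3 + 1) 0 (by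
    intro q1 q2 q3 q4 hq
    rcases hX _ _ _ _ hq with h1 | h1 <;> omega)
  obtain ⟨n1, n2, n3, n4, hn, hn0⟩ := R (p1 + 1) 0 0 (t4 + 1) (by
    intro q1 q2 q3 q4 hq
    rcases hX _ _ _ _ hq with h1 | h1 <;> omega)
  push_cast at hx hy hz hl hm hn hP
  -- level one, in `P' + 1`
  have e1 := N 1 (p1 + 1 + x1) x2 (v3 + t3 + 1 + x3) (v4 + t4 + 1 + x4) le_rfl (by omega)
    (by push_cast; linear_combination hx + hP')
  have e2 := N 1 (p1 + 1 + y1) (v2 + t2 + 1 + y2) y3 (v4 + t4 + 1 + y4) le_rfl (by omega)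
    (by push_cast; linear_combination hy + hP')
  have e3 := N 1 (p1 + 1 + z1) (v2 + t2 + 1 + z2) (v3 + t3 + 1 + z3) z4 le_rfl (by omega)
    (by push_cast; linear_combination hz + hP')
  have hx2 : x2 = 0 := by omega
  have hy3 : y3 = 0 := by omega
  have hz4 : z4 = 0 := by omega
  subst hx2 hy3 hz4
  have f1 := N 2 (p1 + 1 + x1 + y1) y2 x3 (v4 + t4 + 1 + x4 + y4) (by omega) (by omega)
    (by push_cast; linear_combination hx + hy + hP')
  have f2 := N 2 (p1 + 1 + x1 + z1) z2 (v3 + t3 + 1 + x3 + z3) x4 (by omega) (by omega)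
    (by push_cast; linear_combination hx + hz + hP')
  have f3 := N 2 (p1 + 1 + y1 + z1) (v2 + t2 + 1 + y2 + z2) z3 y4 (by omega) (by omega)
    (by push_cast; linear_combination hy + hz + hP')
  have g1 := N 3 (p1 + 1 + x1 + y1 + z1) (y2 + z2) (x3 + z3) (x4 + y4) (by omega) (by omega)
    (by push_cast; linear_combination hx + hy + hz + hP')
  rcases Nat.eq_zero_or_pos z0 with h0 | h0
  · subst h0
    push_cast at hP
    have i1 := N 1 x1 v2 (2 * v3 + t3 + 1 + x3) (2 * v4 + t4 + 1 + x4) le_rfl (by omega)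
      (by push_cast; linear_combination hx + 2 * hP' - hP)
    have i2 := N 1 y1 (2 * v2 + t2 + 1 + y2) v3 (2 * v4 + t4 + 1 + y4) le_rfl (by omega)
      (by push_cast; linear_combination hy + 2 * hP' - hP)
    have i3 := N 1 z1 (2 * v2 + t2 + 1 + z2) (2 * v3 + t3 + 1 + z3) v4 le_rfl (by omega)
      (by push_cast; linear_combination hz + 2 * hP' - hP)
    omega
  · have j1 := N 1 l1 (v2 + l2) (v3 + t3 + 1 + l3) (v4 + t4 + 1 + l4) le_rfl (by omega)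
      (by push_cast; linear_combination hl + hP')
    have j2 := N 1 (p1 + z0 + 1 + l1) l2 (t3 + 1 + l3) (t4 + 1 + l4) le_rfl (by omega)
      (by push_cast; linear_combination hl + hP)
    have j3 := N 1 m1 (v2 + t2 + 1 + m2) (v3 + m3) (v4 + t4 + 1 + m4) le_rfl (by omega)
      (by push_cast; linear_combination hm + hP')
    have j4 := N 1 (p1 + z0 + 1 + m1) (t2 + 1 + m2) m3 (t4 + 1 + m4) le_rfl (by omega)
      (by push_cast; linear_combination hm + hP)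
    have j5 := N 1 n1 (v2 + t2 + 1 + n2) (v3 + t3 + 1 + n3) (v4 + n4) le_rfl (by omega)
      (by push_cast; linear_combination hn + hP')
    have j6 := N 1 (p1 + z0 + 1 + n1) (t2 + 1 + n2) (t3 + 1 + n3) n4 le_rfl (by omega)
      (by push_cast; linear_combination hn + hP)
    have hl1 : l1 = 0 := by omega
    have hl2 : l2 = 0 := by omega
    have hm1 : m1 = 0 := by omega
    have hm3 : m3 = 0 := by omega
    have hn1 : n1 = 0 := by omega
    have hn4 : n4 = 0 := by omega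
    subst hl1 hl2 hm1 hm3 hn1 hn4
    have k1 := N 2 z0 m2 l3 (t4 + 1 + l4 + m4) (by omega) (by omega)
      (by push_cast; linear_combination hl + hm + hP)
    have k2 := N 2 z0 n2 (t3 + 1 + l3 + n3) l4 (by omega) (by omega)
      (by push_cast; linear_combination hl + hn + hP)
    have k3 := N 2 z0 (t2 + 1 + m2 + n2) n3 m4 (by omega) (by omega)
      (by push_cast; linear_combination hm + hn + hP)
    have c1 : m2 = 0 ∨ l3 = 0 := by omega
    have c2 : n2 = 0 ∨ l4 = 0 := by omega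
    have c3 : n3 = 0 ∨ m4 = 0 := by omega
    have q1 := N 2 y1 (v2 + y2) l3 (v4 + t4 + 1 + l4 + y4) (by omega) (by omega)
      (by push_cast; linear_combination hl + hy + hP')
    have q2 := N 2 z1 (v2 + z2) (v3 + t3 + 1 + l3 + z3) l4 (by omega) (by omega)
      (by push_cast; linear_combination hl + hz + hP')
    have q3 := N 2 x1 m2 (v3 + x3) (v4 + t4 + 1 + m4 + x4) (by omega) (by omega)
      (by push_cast; linear_combination hm + hx + hP')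
    have q4 := N 2 z1 (v2 + t2 + 1 + m2 + z2) (v3 + z3) m4 (by omega) (by omega)
      (by push_cast; linear_combination hm + hz + hP')
    have q5 := N 2 x1 n2 (v3 + t3 + 1 + n3 + x3) (v4 + x4) (by omega) (by omega)
      (by push_cast; linear_combination hn + hx + hP')
    have q6 := N 2 y1 (v2 + t2 + 1 + n2 + y2) n3 (v4 + y4) (by omega) (by omega)
      (by push_cast; linear_combination hn + hy + hP')
    have hx1 : x1 = 0 := by omega
    have hy1 : y1 = 0 := by omega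
    have hz1 : z1 = 0 := by omega
    omega

end Pool.Agent.NumSgp
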