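import Pool.Agent.Lib_MP_c084f5_al.Phi
import Pool.Agent.Lib_MP_c084f5_al.Connect

/-!
# Piece C7: from connectivity to the defining ideal
-/

namespace Pool.Agent.NumSgp

open MvPolynomial

theorem symm_add_single {n : ℕ} (d : Fin n → ℕ) (i : Fin n) (v : ℕ) :
    Finsupp.equivFunOnFinite.symm (d + Pi.single i v) =
      Finsupp.equivFunOnFinite.symm d + Finsupp.single i v := by
  ext z
  by_cases h : z = i
  · subst h
    simp
  · simp [h]

/-- A move gives a binomial in the ideal of minors. (`monomial` is over `Fin n →₀ ℕ`; use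
`Finsupp.equivFunOnFinite.symm`.) -/
theorem sub_mem_of_move {k : Type*} [Field k] {n : ℕ} (π : Equiv.Perm (Fin n)) (l m : Fin n → ℕ)
    {c c' : Fin n → ℕ} (h : Move π l m c c') :
    monomial (Finsupp.equivFunOnFinite.symm c) (1 : k) -
      monomial (Finsupp.equivFunOnFinite.symm c') 1 ∈
      minors2 (fun i => (X i : MvPolynomial (Fin n) k) ^ l i) (fun i => X (π i) ^ m (π i)) := by
  obtain ⟨d, i, j, rfl, rfl⟩ := h
  rw [symm_add_single, symm_add_single, symm_add_single, symm_add_single,
    monomial_add_single, monomial_add_single, monomial_add_single, monomial_add_single]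
  have hmem : (X i : MvPolynomial (Fin n) k) ^ l i * X (π j) ^ m (π j) -
      X j ^ l j * X (π i) ^ m (π i) ∈
      minors2 (fun i => (X i : MvPolynomial (Fin n) k) ^ l i) (fun i => X (π i) ^ m (π i)) :=
    Ideal.subset_span ⟨(i, j), rfl⟩
  have e : monomial (Finsupp.equivFunOnFinite.symm d) (1 : k) * X i ^ l i * X (π j) ^ m (π j) -
      monomial (Finsupp.equivFunOnFinite.symm d) (1 : k) * X j ^ l j * X (π i) ^ m (π i) =
      monomial (Finsupp.equivFunOnFinite.symm d) (1 : k) *
        ((X i : MvPolynomial (Fin n) k) ^ l i * X (π j) ^ m (π j) -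
          X j ^ l j * X (π i) ^ m (π i)) := by ring
  rw [e]
  exact Ideal.mul_mem_left _ _ hmem

theorem sub_mem_of_chain {k : Type*} [Field k] {n : ℕ} (π : Equiv.Perm (Fin n)) (l m : Fin n → ℕ)
    {c c' : Fin n → ℕ} (h : Relation.ReflTransGen (Move π l m) c c') :
    monomial (Finsupp.equivFunOnFinite.symm c) (1 : k) -
      monomial (Finsupp.equivFunOnFinite.symm c') 1 ∈
      minors2 (fun i => (X i : MvPolynomial (Fin n) k) ^ l i) (fun i => X (π i) ^ m (π i)) := by
  induction h with
  | refl => rw [sub_self]; exact Ideal.zero_mem _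
  | tail _ hstep ih =>
    have h1 := sub_mem_of_move (k := k) π l m hstep
    have := Ideal.add_mem _ ih h1
    rwa [sub_add_sub_cancel] at this

/-- weight of an exponent -/
def wtE {n : ℕ} (a : Fin n → ℕ) (u : Fin n →₀ ℕ) : ℕ := ∑ i, a i * u i

theorem toricMap_eq {k : Type*} [Field k] {n : ℕ} (a : Fin n → ℕ) (f : MvPolynomial (Fin n) k) :
    toricMap k a f = ∑ u ∈ f.support, Polynomial.C (coeff u f) * Polynomial.X ^ (wtE a u) := by
  unfold toricMap
  rw [aeval_def, eval₂_eq']
  apply Finset.sum_congr rfl
  intro u _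
  congr 1
  unfold wtE
  rw [← Finset.prod_pow_eq_pow_sum]
  apply Finset.prod_congr rfl
  intro i _
  rw [pow_mul]

theorem sum_coeff_eq_zero {k : Type*} [Field k] {n : ℕ} (a : Fin n → ℕ)
    {f : MvPolynomial (Fin n) k} (hf : f ∈ toricIdeal k a) (w : ℕ) :
    ∑ u ∈ f.support with wtE a u = w, coeff u f = 0 := by
  have h1 : toricMap k a f = 0 := hf
  rw [toricMap_eq] at h1
  have h2 := congrArg (fun p => Polynomial.coeff p w) h1
  simp only [Polynomial.finsetSum_coeff, Polynomial.coeff_C_mul, Polynomial.coeff_X_pow,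
    Polynomial.coeff_zero, mul_ite, mul_one, mul_zero] at h2
  rw [Finset.sum_filter]
  refine Eq.trans ?_ h2
  apply Finset.sum_congr rfl
  intro u _
  by_cases h : wtE a u = w
  · rw [if_pos h, if_pos h.symm]
  · rw [if_neg h, if_neg (fun h' => h h'.symm)]

/-- If any two factorizations of the same number are connected by moves then the ideal of minors
is the defining ideal. `⊇`: the minor of columns `i, j` is weighted homogeneous of degree
`l_i a_i + l_j a_j + α` with value zero at `(1,..,1)`, use F2. `⊆`: split into weighted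
homogeneous components (`component_mem_toricIdeal`); a component `f = ∑ f_u X^u` with
`∑ f_u = 0` is `∑ f_u (X^u - X^(u_0))` and each difference is in the ideal of minors. -/
theorem toricIdeal_eq_of_connected {k : Type*} [Field k] {n : ℕ} (a : Fin n → ℕ) (α : ℤ)
    (π : Equiv.Perm (Fin n)) (l m : Fin n → ℕ)
    (hrel : ∀ i, (l i : ℤ) * a i + α = m (π i) * a (π i))
    (hconn : ∀ b b' : Fin n → ℕ, ∑ i, (b i : ℤ) * a i = ∑ i, (b' i : ℤ) * a i →
      Relation.ReflTransGen (Move π l m) b b') :
    toricIdeal k a =
      minors2 (fun i => (X i : MvPolynomial (Fin n) k) ^ l i) (fun i => X (π i) ^ m (π i)) := by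
  classical
  apply le_antisymm
  · intro f hf
    set J := minors2 (fun i => (X i : MvPolynomial (Fin n) k) ^ l i)
      (fun i => X (π i) ^ m (π i)) with hJ
    -- a representative for each weight
    have hrep : ∃ rep : ℕ → (Fin n →₀ ℕ), ∀ u, wtE a (rep (wtE a u)) = wtE a u := by
      refine ⟨fun w => if h : ∃ u, wtE a u = w then h.choose else 0, fun u => ?_⟩
      have hex : ∃ u', wtE a u' = wtE a u := ⟨u, rfl⟩
      simp only [dif_pos hex]
      exact hex.choose_spec
    obtain ⟨rep, hrep⟩ := hrep
    have hdiff : ∀ u, monomial u (1 : k) - monomial (rep (wtE a u)) 1 ∈ J := by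
      intro u
      have h1 := hconn (fun i => u i) (fun i => rep (wtE a u) i) (by
        have := hrep u
        unfold wtE at this
        have h2 : ((∑ i, a i * (rep (∑ i, a i * u i)) i : ℕ) : ℤ) = ((∑ i, a i * u i : ℕ) : ℤ) := by
          exact_mod_cast this
        push_cast at h2
        unfold wtE
        calc ∑ i, (u i : ℤ) * a i = ∑ i, (a i : ℤ) * u i :=
              Finset.sum_congr rfl (fun i _ => mul_comm _ _)
          _ = ∑ i, (a i : ℤ) * (rep (∑ i, a i * u i)) i := h2.symm
          _ = _ := Finset.sum_congr rfl (fun i _ => mul_comm _ _))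
      have h2 := sub_mem_of_chain (k := k) π l m h1
      have e1 : Finsupp.equivFunOnFinite.symm (fun i => u i) = u := by ext i; simp
      have e2 : Finsupp.equivFunOnFinite.symm (fun i => rep (wtE a u) i) = rep (wtE a u) := by
        ext i; simp
      rwa [e1, e2] at h2
    have hsplit : f = ∑ u ∈ f.support, C (coeff u f) * (monomial u (1 : k) -
        monomial (rep (wtE a u)) 1) + ∑ u ∈ f.support, monomial (rep (wtE a u)) (coeff u f) := by
      rw [← Finset.sum_add_distrib]
      conv_lhs => rw [f.as_sum]
      apply Finset.sum_congr rfl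
      intro u _
      rw [mul_sub, C_mul_monomial, C_mul_monomial, mul_one]
      ring
    have hzero : ∑ u ∈ f.support, monomial (rep (wtE a u)) (coeff u f) = 0 := by
      rw [← Finset.sum_fiberwise_of_maps_to (g := wtE a) (t := f.support.image (wtE a))
        (fun u hu => Finset.mem_image_of_mem _ hu)]
      apply Finset.sum_eq_zero
      intro w _
      have h1 : ∑ u ∈ f.support with wtE a u = w, monomial (rep (wtE a u)) (coeff u f) =
          ∑ u ∈ f.support with wtE a u = w, monomial (rep w) (coeff u f) := by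
        apply Finset.sum_congr rfl
        intro u hu
        rw [(Finset.mem_filter.1 hu).2]
      rw [h1, ← map_sum, sum_coeff_eq_zero a hf w, map_zero]
    rw [hsplit, hzero, add_zero]
    apply Ideal.sum_mem
    intro u _
    exact Ideal.mul_mem_left _ _ (hdiff u)
  · unfold minors2
    rw [Ideal.span_le]
    rintro _ ⟨⟨i, j⟩, rfl⟩
    simp only [SetLike.mem_coe, toricIdeal, RingHom.mem_ker]
    unfold toricMap
    simp only [map_sub, map_mul, map_pow, aeval_X]
    rw [← pow_mul, ← pow_mul, ← pow_mul, ← pow_mul, ← pow_add, ← pow_add]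
    have e : a i * l i + a (π j) * m (π j) = a j * l j + a (π i) * m (π i) := by
      have h1 := hrel i
      have h2 := hrel j
      have : ((a i * l i + a (π j) * m (π j) : ℕ) : ℤ) = ((a j * l j + a (π i) * m (π i) : ℕ) : ℤ) := by
        push_cast
        linarith
      exact_mod_cast this
    rw [e, sub_self]

end Pool.Agent.NumSgp
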