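import Mathlib

/-!
# Piece C3: a combinatorial lemma on functions all of whose directed cycles are long
-/

namespace Pool.Agent.NumSgp

/-- a selection of `T` is cyclic of period `n` -/
theorem selection_cycle {n : ℕ} (T : Fin n → Set (Fin n))
    (hc : ∀ (r : ℕ) (k : ℕ → Fin n), 1 ≤ r → Set.InjOn k (Set.Iio r) →
      (∀ t < r, k (t + 1) ∈ T (k t)) → k r = k 0 → n ≤ r)
    (f : Fin n → Fin n) (hf : ∀ i, f i ∈ T i) (x : Fin n) :
    f^[n] x = x ∧ Set.InjOn (fun t => f^[t] x) (Set.Iio n) := by
  classical
  -- pigeonhole
  have hex : ∃ q : ℕ, ∃ p < q, f^[p] x = f^[q] x := by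
    by_contra hcon
    push Not at hcon
    have hinj : Function.Injective (fun t : ℕ => f^[t] x) := by
      intro a b hab
      rcases lt_trichotomy a b with h | h | h
      · exact absurd hab (hcon b a h)
      · exact h
      · exact absurd hab.symm (hcon a b h)
    exact not_injective_infinite_finite _ hinj
  obtain ⟨p, hpq, hp⟩ := Nat.find_spec hex
  set q := Nat.find hex with hq
  have hmin : ∀ q' < q, ∀ p' < q', f^[p'] x ≠ f^[q'] x := by
    intro q' hq' p' hp' he
    exact Nat.find_min hex hq' ⟨p', hp', he⟩
  have hinjq : Set.InjOn (fun t => f^[t] x) (Set.Iio q) := by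
    intro a ha b hb hab
    simp only [Set.mem_Iio] at ha hb
    rcases lt_trichotomy a b with h | h | h
    · exact absurd hab (hmin b hb a h)
    · exact h
    · exact absurd hab.symm (hmin a ha b h)
  have hqn : q ≤ n := by
    have h1 : (Finset.range q).card ≤ (Finset.univ : Finset (Fin n)).card := by
      apply Finset.card_le_card_of_injOn (fun t => f^[t] x) (fun _ _ => Finset.mem_univ _)
      intro a ha b hb hab
      exact hinjq (by simpa using ha) (by simpa using hb) hab
    simpa using h1
  have hr : n ≤ q - p := by
    apply hc (q - p) (fun t => f^[p + t] x) (by omega)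
    · intro a ha b hb hab
      simp only [Set.mem_Iio] at ha hb
      have := hinjq (show p + a ∈ Set.Iio q by simp only [Set.mem_Iio]; omega)
        (show p + b ∈ Set.Iio q by simp only [Set.mem_Iio]; omega) hab
      omega
    · intro t _
      have e : p + (t + 1) = (p + t) + 1 := by ring
      simp only [e, Function.iterate_succ_apply']
      exact hf _
    · have e : p + (q - p) = q := by omega
      simp only [e, add_zero]
      exact hp.symm
  have hp0 : p = 0 := by omega
  have hqn' : q = n := by omega
  subst hp0
  rw [hqn'] at hp hinjq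
  exact ⟨hp.symm, hinjq⟩

theorem selection_bijective {n : ℕ} (T : Fin n → Set (Fin n))
    (hc : ∀ (r : ℕ) (k : ℕ → Fin n), 1 ≤ r → Set.InjOn k (Set.Iio r) →
      (∀ t < r, k (t + 1) ∈ T (k t)) → k r = k 0 → n ≤ r)
    (f : Fin n → Fin n) (hf : ∀ i, f i ∈ T i) :
    Function.Bijective f ∧ ∀ x y, ∃ t : ℕ, f^[t] x = y := by
  have hsurj : ∀ x y, ∃ t : ℕ, f^[t] x = y := by
    intro x y
    obtain ⟨_, h2⟩ := selection_cycle T hc f hf x
    have h3 : Function.Injective (fun t : Fin n => f^[(t : ℕ)] x) := by
      intro a b hab
      exact Fin.ext (h2 (by simp) (by simp) hab)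
    have h4 : Function.Surjective (fun t : Fin n => f^[(t : ℕ)] x) :=
      Finite.surjective_of_injective h3
    obtain ⟨t, ht⟩ := h4 y
    exact ⟨t, ht⟩
  refine ⟨?_, hsurj⟩
  apply (Finite.surjective_iff_bijective).1
  intro y
  obtain ⟨h1, _⟩ := selection_cycle T hc f hf y
  have hn : n ≠ 0 := by
    intro h0
    subst h0
    exact y.elim0
  obtain ⟨n', rfl⟩ := Nat.exists_eq_succ_of_ne_zero hn
  refine ⟨f^[n'] y, ?_⟩
  rwa [← Function.iterate_succ_apply' f n' y]

/-- Let `T i` be nonempty subsets of `Fin n` such that every directed cycle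
`k 0 → k 1 → .. → k r = k 0` with `k 0, .., k (r-1)` distinct, `k (t+1) ∈ T (k t)`, `r ≥ 1`,
has `r ≥ n`. Then there is a permutation `π` with one orbit and `T i = {π i}` for all `i`.
Proof: choose any `f` with `f i ∈ T i`. The functional graph of `f` has a directed cycle; it has
length `≥ n`, so it contains all points and `f` is a permutation with one orbit. If `T i`
contains another element `j' ≠ f i`, change `f` to `f' = Function.update f i j'`; the `f`-path
from `j'` to `i` has fewer than `n - 1` steps (as `f i ≠ j'` and the `f`-path from `f i` to `i` has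
`n - 1` steps), so together with `i → j'` we get a directed cycle of length `< n`,
contradiction. -/
theorem exists_perm_of_long_cycles {n : ℕ} (T : Fin n → Set (Fin n)) (hT : ∀ i, (T i).Nonempty)
    (hc : ∀ (r : ℕ) (k : ℕ → Fin n), 1 ≤ r → Set.InjOn k (Set.Iio r) →
      (∀ t < r, k (t + 1) ∈ T (k t)) → k r = k 0 → n ≤ r) :
    ∃ π : Equiv.Perm (Fin n), (∀ x y, π.SameCycle x y) ∧ ∀ i, T i = {π i} := by
  choose f hf using hT
  obtain ⟨hbij, horb⟩ := selection_bijective T hc f hf
  refine ⟨Equiv.ofBijective f hbij, ?_, ?_⟩
  · intro x y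
    obtain ⟨t, ht⟩ := horb x y
    refine ⟨(t : ℤ), ?_⟩
    rw [zpow_natCast]
    have : ∀ s : ℕ, ((Equiv.ofBijective f hbij) ^ s) x = f^[s] x := by
      intro s
      induction s with
      | zero => rfl
      | succ s ih =>
        rw [pow_succ', Equiv.Perm.mul_apply, ih, Function.iterate_succ_apply']
        rfl
    rw [this, ht]
  · intro i
    ext j'
    simp only [Set.mem_singleton_iff, Equiv.ofBijective_apply]
    constructor
    · intro hj'
      have hf' : ∀ z, Function.update f i j' z ∈ T z := by
        intro z
        by_cases hz : z = i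
        · subst hz; simpa using hj'
        · rw [Function.update_of_ne hz]; exact hf z
      obtain ⟨hbij', _⟩ := selection_bijective T hc _ hf'
      obtain ⟨z, hz⟩ := hbij.2 j'
      by_cases hzi : z = i
      · rw [← hz, hzi]
      · exfalso
        apply hzi
        apply hbij'.1
        rw [Function.update_of_ne hzi, Function.update_self, hz]
    · intro h
      rw [h]; exact hf i

end Pool.Agent.NumSgp
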