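import Pool.Agent.Lib_MP_c084f5_al.Arith
import Pool.Agent.Lib_MP_c084f5_al.PermCycle

/-!
# Piece C4: if `h` has a unique factorization then the relations of level one are pure
-/

namespace Pool.Agent.NumSgp

theorem mul_gen_mem_sgp {n : ℕ} (a : Fin n → ℕ) (i : Fin n) (r : ℕ) : (r : ℤ) * a i ∈ sgp a := by
  rw [mem_sgp_iff]
  refine ⟨fun j => if j = i then r else 0, ?_⟩
  have e : ∀ j, (((if j = i then r else 0 : ℕ)) : ℤ) * a j =
      if j = i then (r : ℤ) * a i else 0 := by
    intro j
    split_ifs with hj
    · subst hj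
      rfl
    · simp
  rw [Finset.sum_congr rfl (fun j _ => e j)]
  simp

/-- subtracting a generator that occurs in a factorization -/
theorem sub_gen_mem {n : ℕ} (a : Fin n → ℕ) (d : Fin n → ℕ) (j : Fin n) (hj : 0 < d j) :
    (∑ i, (d i : ℤ) * a i) - a j ∈ sgp a := by
  rw [mem_sgp_iff]
  refine ⟨fun i => d i - if i = j then 1 else 0, ?_⟩
  have e : ∀ i, ((d i - (if i = j then 1 else 0) : ℕ) : ℤ) * a i =
      (d i : ℤ) * a i - if i = j then (a j : ℤ) else 0 := by
    intro i
    split_ifs with hi
    · subst hi
      rw [Nat.cast_sub hj]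
      push_cast
      ring
    · simp
  rw [Finset.sum_congr rfl (fun i _ => e i), Finset.sum_sub_distrib]
  simp

/-- the element `l_i a_i + α` is in `H` -/
theorem level_one_mem {n : ℕ} {a : Fin n → ℕ} {h α : ℤ} (ha : IsMinGen a)
    (hp : ArithPF a h α) (c : Fin n → ℕ)
    (huniq : ∀ c' : Fin n → ℕ, h = ∑ i, (c' i : ℤ) * a i → c' = c) (i : Fin n) :
    ((c i : ℤ) + 1) * a i + α ∈ sgp a := by
  have hx : ((c i : ℤ) + 1) * a i ∈ sgp a := by
    have := mul_gen_mem_sgp a i (c i + 1)
    push_cast at this
    exact this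
  rcases hp.E_or_L ha.1 hx with h1 | h1
  · exfalso
    obtain ⟨b, hb⟩ := (mem_sgp_iff a _).1 h1
    have h2 := huniq (fun j => b j + if j = i then c i + 1 else 0) (by
      have e : ∀ j, ((b j + (if j = i then c i + 1 else 0) : ℕ) : ℤ) * a j =
          (b j : ℤ) * a j + if j = i then ((c i : ℤ) + 1) * a i else 0 := by
        intro j
        split_ifs with hj
        · subst hj
          push_cast
          ring
        · simp
      rw [Finset.sum_congr rfl (fun j _ => e j), Finset.sum_add_distrib, ← hb]
      simp)
    have h3 := congrFun h2 i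
    simp only [if_pos] at h3
    omega
  · exact h1

/-- Put `l = c + 1`. A monomial `b` has degree in `E` iff `b ≤ c` (if `h - ∑ b_i a_i = ∑ b'_i a_i`
then `b + b' = c` by uniqueness). So `(l i) a_i ∈ L`, that is `l_i a_i + α ∈ H`
(`ArithPF.E_or_L`). Let `T i` be the set of all `j` such that `l_i a_i + α - a_j ∈ H`. It is
nonempty as `l_i a_i + α > 0` is in `H`.
Every directed cycle `k 0 → .. → k r = k 0` as in `exists_perm_of_long_cycles` has `r ≥ n`: with
`x = ∑_(t<r) (l_(k t) - 1) a_(k t)` the element `x` divides `h` (the `k t` are distinct) and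
`x + rα = ∑_(t<r) (l_(k t) a_(k t) + α - a_(k (t+1))) ∈ H`, so `r ≥ n` by
`ArithPF.not_mem_of_E`.
Hence `T i = {π i}`. So every factorization of `l_i a_i + α` is supported in `{π i}`:
`l_i a_i + α = m a_(π i)` for some `m > 0`; call it `m (π i)`. -/
theorem pure_relations {n : ℕ} (hn : 3 ≤ n) {a : Fin n → ℕ} {h α : ℤ} (ha : IsMinGen a)
    (hp : ArithPF a h α) (c : Fin n → ℕ) (hc : h = ∑ i, (c i : ℤ) * a i)
    (huniq : ∀ c' : Fin n → ℕ, h = ∑ i, (c' i : ℤ) * a i → c' = c) :
    ∃ (π : Equiv.Perm (Fin n)) (m : Fin n → ℕ), (∀ x y, π.SameCycle x y) ∧ (∀ i, 0 < m i) ∧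
      ∀ i, ((c i : ℤ) + 1) * a i + α = m (π i) * a (π i) := by
  classical
  have hα : 0 < α := hp.1
  have hmem := level_one_mem ha hp c huniq
  have hpos : ∀ i, 0 < ((c i : ℤ) + 1) * a i + α := by
    intro i
    positivity
  obtain ⟨π, hπ, hT⟩ := exists_perm_of_long_cycles
    (fun i => {j | ((c i : ℤ) + 1) * a i + α - a j ∈ sgp a}) (by
      intro i
      obtain ⟨d, hd⟩ := (mem_sgp_iff a _).1 (hmem i)
      have h1 : ∃ j, 0 < d j := by
        by_contra hcon
        push Not at hcon
        have h2 : ∑ j, (d j : ℤ) * a j = 0 := by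
          apply Finset.sum_eq_zero
          intro j _
          have := hcon j
          have h3 : d j = 0 := by omega
          rw [h3]
          simp
        rw [h2] at hd
        have := hpos i
        omega
      obtain ⟨j, hj⟩ := h1
      refine ⟨j, ?_⟩
      change ((c i : ℤ) + 1) * a i + α - a j ∈ sgp a
      rw [hd]
      exact sub_gen_mem a d j hj) (by
      intro r k hr hk hstep hcyc
      by_contra hlt
      push Not at hlt
      have hE : h - ∑ t ∈ Finset.range r, (c (k t) : ℤ) * a (k t) ∈ sgp a := by
        have himg : ∑ t ∈ Finset.range r, (c (k t) : ℤ) * a (k t) =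
            ∑ i ∈ (Finset.range r).image k, (c i : ℤ) * a i := by
          rw [Finset.sum_image]
          intro x hx y hy hxy
          exact hk (by simpa using hx) (by simpa using hy) hxy
        rw [himg, hc, mem_sgp_iff]
        refine ⟨fun i => if i ∈ (Finset.range r).image k then 0 else c i, ?_⟩
        rw [← Finset.sum_filter_add_sum_filter_not Finset.univ
          (fun i => i ∈ (Finset.range r).image k) (fun i => (c i : ℤ) * a i)]
        have e1 : Finset.univ.filter (fun i => i ∈ (Finset.range r).image k) =
            (Finset.range r).image k := by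
          ext i
          simp
        rw [e1, add_sub_cancel_left, Finset.sum_filter]
        apply Finset.sum_congr rfl
        intro i _
        by_cases h1 : i ∈ (Finset.range r).image k
        · simp only [h1, if_true, not_true, if_false]
          simp
        · simp only [h1, if_false, not_false_iff, if_true]
      have hL : ∑ t ∈ Finset.range r, (c (k t) : ℤ) * a (k t) + (r : ℤ) * α ∈ sgp a := by
        have h1 : ∑ t ∈ Finset.range r, (((c (k t) : ℤ) + 1) * a (k t) + α - a (k (t + 1))) ∈
            sgp a := by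
          apply AddSubmonoid.sum_mem
          intro t ht
          exact hstep t (Finset.mem_range.1 ht)
        have h2 : ∑ t ∈ Finset.range r, (a (k (t + 1)) : ℤ) = ∑ t ∈ Finset.range r, (a (k t) : ℤ) := by
          have h3 := Finset.sum_range_succ (fun t => (a (k t) : ℤ)) r
          have h4 := Finset.sum_range_succ' (fun t => (a (k t) : ℤ)) r
          rw [h3] at h4
          rw [hcyc] at h4
          linarith
        have h5 : ∑ t ∈ Finset.range r, (((c (k t) : ℤ) + 1) * a (k t) + α - a (k (t + 1))) =
            ∑ t ∈ Finset.range r, (c (k t) : ℤ) * a (k t) + (r : ℤ) * α := by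
          have h6 : ∀ t, ((c (k t) : ℤ) + 1) * a (k t) + α - a (k (t + 1)) =
              (c (k t) : ℤ) * a (k t) + α + ((a (k t) : ℤ) - a (k (t + 1))) := by
            intro t
            ring
          rw [Finset.sum_congr rfl (fun t _ => h6 t), Finset.sum_add_distrib,
            Finset.sum_add_distrib, Finset.sum_sub_distrib, h2, sub_self, add_zero,
            Finset.sum_const, Finset.card_range, nsmul_eq_mul]
        rw [← h5]
        exact h1
      exact hp.not_mem_of_E hE hr hlt hL)
  have hfac : ∀ i, ∃ m' : ℕ, 0 < m' ∧ ((c i : ℤ) + 1) * a i + α = m' * a (π i) := by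
    intro i
    obtain ⟨d, hd⟩ := (mem_sgp_iff a _).1 (hmem i)
    have hsupp : ∀ j, 0 < d j → j = π i := by
      intro j hj
      have h1 : j ∈ {j | ((c i : ℤ) + 1) * a i + α - a j ∈ sgp a} := by
        change ((c i : ℤ) + 1) * a i + α - a j ∈ sgp a
        rw [hd]
        exact sub_gen_mem a d j hj
      rw [hT i] at h1
      exact h1
    have h2 : ∑ j, (d j : ℤ) * a j = (d (π i) : ℤ) * a (π i) := by
      apply Finset.sum_eq_single (π i)
      · intro j _ hj
        have h3 : d j = 0 := by
          by_contra h4
          exact hj (hsupp j (Nat.pos_of_ne_zero h4))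
        rw [h3]
        simp
      · intro h3
        exact absurd (Finset.mem_univ _) h3
    refine ⟨d (π i), ?_, by rw [hd, h2]⟩
    apply Nat.pos_of_ne_zero
    intro h3
    rw [h2, h3] at hd
    have := hpos i
    simp only [Nat.cast_zero, zero_mul] at hd
    omega
  choose m' hm' hrel using hfac
  refine ⟨π, fun j => m' (π.symm j), hπ, fun i => hm' _, ?_⟩
  intro i
  simp only [Equiv.symm_apply_apply]
  exact hrel i

end Pool.Agent.NumSgp
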