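import Pool.Agent.Lib_MP_c084f5_al.NAlpha
import Pool.Agent.Lib_MP_c084f5_al.Unique

/-!
# If `h + nα` has a unique factorization then so has `h`
Mirror image of `pure_relations`.
-/

namespace Pool.Agent.NumSgp

/-- the element `l_i a_i - α` is in `H`, where `l = c + 1` and `c` is the unique factorization
of `h + nα` -/
theorem mirror_level_one_mem {n : ℕ} {a : Fin n → ℕ} {h α : ℤ} (ha : IsMinGen a)
    (hp : ArithPF a h α) (c : Fin n → ℕ)
    (huniq : ∀ c' : Fin n → ℕ, h + n * α = ∑ i, (c' i : ℤ) * a i → c' = c) (i : Fin n) :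
    ((c i : ℤ) + 1) * a i - α ∈ sgp a := by
  by_contra hcon
  have hx : ((c i : ℤ) + 1) * a i ∈ sgp a := by
    have := mul_gen_mem_sgp a i (c i + 1)
    push_cast at this
    exact this
  have h1 := hp.D_dvd ha.1 hx hcon
  obtain ⟨b, hb⟩ := (mem_sgp_iff a _).1 h1
  have h2 := huniq (fun j => b j + if j = i then c i + 1 else 0) (by
    have e : ∀ j, ((b j + (if j = i then c i + 1 else 0) : ℕ) : ℤ) * a j =
        (b j : ℤ) * a j + if j = i then ((c i : ℤ) + 1) * a i else 0 := by
      intro j
      split_ifs with hj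
      · subst hj
        push_cast
        ring
      · simp
    rw [Finset.sum_congr rfl (fun j _ => e j), Finset.sum_add_distrib, ← hb]
    simp)
  have h3 := congrFun h2 i
  simp only [if_pos] at h3
  omega

theorem unique_of_top_unique {n : ℕ} (hn : 3 ≤ n) {a : Fin n → ℕ} {h α : ℤ} (ha : IsMinGen a)
    (hp : ArithPF a h α) (c : Fin n → ℕ) (hc : h + n * α = ∑ i, (c i : ℤ) * a i)
    (huniq : ∀ c' : Fin n → ℕ, h + n * α = ∑ i, (c' i : ℤ) * a i → c' = c)
    (b b' : Fin n → ℕ) (hb : h = ∑ i, (b i : ℤ) * a i) (hb' : h = ∑ i, (b' i : ℤ) * a i) :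
    b = b' := by
  classical
  have hα : 0 < α := hp.1
  have hmem := mirror_level_one_mem ha hp c huniq
  have hne : ∀ i, ((c i : ℤ) + 1) * a i - α ≠ 0 := by
    intro i h0
    apply hp.alpha_not_mem hn
    have h1 : α = ((c i + 1 : ℕ) : ℤ) * a i := by
      push_cast
      linarith
    rw [h1]
    exact mul_gen_mem_sgp a i (c i + 1)
  obtain ⟨π, hπ, hT⟩ := exists_perm_of_long_cycles
    (fun i => {j | ((c i : ℤ) + 1) * a i - α - a j ∈ sgp a}) (by
      intro i
      obtain ⟨k, hk⟩ := nalpha_exists_gen (hmem i) (hne i)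
      exact ⟨k, hk⟩) (by
      intro r k hr hk hstep hcyc
      by_contra hlt
      push Not at hlt
      -- `h + nα - ∑ c_(k t) a_(k t)` is in `H`
      have hE : h + n * α - ∑ t ∈ Finset.range r, (c (k t) : ℤ) * a (k t) ∈ sgp a := by
        have himg : ∑ t ∈ Finset.range r, (c (k t) : ℤ) * a (k t) =
            ∑ i ∈ (Finset.range r).image k, (c i : ℤ) * a i := by
          rw [Finset.sum_image]
          intro x hx y hy hxy
          exact hk (by simpa using hx) (by simpa using hy) hxy
        rw [himg, hc, mem_sgp_iff]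
        refine ⟨fun i => if i ∈ (Finset.range r).image k then 0 else c i, ?_⟩
        rw [← Finset.sum_filter_add_sum_filter_not Finset.univ
          (fun i => i ∈ (Finset.range r).image k) (fun i => (c i : ℤ) * a i)]
        have e1 : Finset.univ.filter (fun i => i ∈ (Finset.range r).image k) =
            (Finset.range r).image k := by
          ext i
          simp
        rw [e1, add_sub_cancel_left, Finset.sum_filter]
        apply Finset.sum_congr rfl
        intro i _
        by_cases h1 : i ∈ (Finset.range r).image k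
        · simp only [h1, if_true, not_true, if_false]
          simp
        · simp only [h1, if_false, not_false_iff, if_true]
      have hL : ∑ t ∈ Finset.range r, (c (k t) : ℤ) * a (k t) - (r : ℤ) * α ∈ sgp a := by
        have h1 : ∑ t ∈ Finset.range r, (((c (k t) : ℤ) + 1) * a (k t) - α - a (k (t + 1))) ∈
            sgp a := by
          apply AddSubmonoid.sum_mem
          intro t ht
          exact hstep t (Finset.mem_range.1 ht)
        have h2 : ∑ t ∈ Finset.range r, (a (k (t + 1)) : ℤ) = ∑ t ∈ Finset.range r, (a (k t) : ℤ) := by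
          have h3 := Finset.sum_range_succ (fun t => (a (k t) : ℤ)) r
          have h4 := Finset.sum_range_succ' (fun t => (a (k t) : ℤ)) r
          rw [h3] at h4
          rw [hcyc] at h4
          linarith
        have h5 : ∑ t ∈ Finset.range r, (((c (k t) : ℤ) + 1) * a (k t) - α - a (k (t + 1))) =
            ∑ t ∈ Finset.range r, (c (k t) : ℤ) * a (k t) - (r : ℤ) * α := by
          have h6 : ∀ t, ((c (k t) : ℤ) + 1) * a (k t) - α - a (k (t + 1)) =
              (c (k t) : ℤ) * a (k t) - α + ((a (k t) : ℤ) - a (k (t + 1))) := by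
            intro t
            ring
          rw [Finset.sum_congr rfl (fun t _ => h6 t), Finset.sum_add_distrib,
            Finset.sum_sub_distrib, Finset.sum_sub_distrib, h2, sub_self, add_zero,
            Finset.sum_const, Finset.card_range, nsmul_eq_mul]
        rw [← h5]
        exact h1
      have hsum := (sgp a).add_mem hE hL
      refine hp.not_mem_h (j := n - r) (by omega) (by omega) ?_
      have : h + ((n - r : ℕ) : ℤ) * α = h + n * α - ∑ t ∈ Finset.range r, (c (k t) : ℤ) * a (k t) +
          (∑ t ∈ Finset.range r, (c (k t) : ℤ) * a (k t) - (r : ℤ) * α) := by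
        rw [Nat.cast_sub hlt.le]
        ring
      rw [this]
      exact hsum)
  -- pure relations
  have hfac : ∀ i, ∃ m' : ℕ, 0 < m' ∧ ((c i : ℤ) + 1) * a i - α = m' * a (π i) := by
    intro i
    obtain ⟨d, hd⟩ := (mem_sgp_iff a _).1 (hmem i)
    have hsupp : ∀ j, 0 < d j → j = π i := by
      intro j hj
      have h1 : j ∈ {j | ((c i : ℤ) + 1) * a i - α - a j ∈ sgp a} := by
        change ((c i : ℤ) + 1) * a i - α - a j ∈ sgp a
        rw [hd]
        exact sub_gen_mem a d j hj
      rw [hT i] at h1
      exact h1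
    have h2 : ∑ j, (d j : ℤ) * a j = (d (π i) : ℤ) * a (π i) := by
      apply Finset.sum_eq_single (π i)
      · intro j _ hj
        have h3 : d j = 0 := by
          by_contra h4
          exact hj (hsupp j (Nat.pos_of_ne_zero h4))
        rw [h3]
        simp
      · intro h3
        exact absurd (Finset.mem_univ _) h3
    refine ⟨d (π i), ?_, by rw [hd, h2]⟩
    apply Nat.pos_of_ne_zero
    intro h3
    rw [h2, h3] at hd
    apply hne i
    rw [hd]
    simp
  choose m' hm' hrel using hfac
  set m : Fin n → ℕ := fun j => m' (π.symm j) with hm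
  have hmpos : ∀ i, 0 < m i := fun i => hm' _
  have hmrel : ∀ i, ((c i : ℤ) + 1) * a i - α = m (π i) * a (π i) := by
    intro i
    simp only [hm, Equiv.symm_apply_apply]
    exact hrel i
  -- `h = ∑ (m_i - 1) a_i`
  have hh : h = ∑ i, ((m i : ℤ) - 1) * a i := by
    have h1 : ∑ i, (((c i : ℤ) + 1) * a i - α) = ∑ i, (m i : ℤ) * a i := by
      rw [← Equiv.sum_comp π (fun i => (m i : ℤ) * a i)]
      exact Finset.sum_congr rfl fun i _ => hmrel i
    have h2 : ∑ i, (((c i : ℤ) + 1) * a i - α) = ∑ i, (c i : ℤ) * a i + ∑ i, (a i : ℤ) - n * α := by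
      rw [Finset.sum_sub_distrib]
      simp only [add_mul, one_mul, Finset.sum_add_distrib, Finset.sum_const, Finset.card_univ,
        Fintype.card_fin, nsmul_eq_mul]
    have h3 : ∑ i, ((m i : ℤ) - 1) * a i = ∑ i, (m i : ℤ) * a i - ∑ i, (a i : ℤ) := by
      simp only [sub_mul, one_mul, Finset.sum_sub_distrib]
    rw [h3, ← h1, h2, ← hc]
    ring
  -- a factorization of `h` is `≤ m - 1`
  have key : ∀ b : Fin n → ℕ, h = ∑ i, (b i : ℤ) * a i → ∀ i, b i = m i - 1 := by
    intro b hb
    have hle : ∀ i, b i < m i := by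
      intro i
      by_contra hcon
      push Not at hcon
      have h1 : h - (m i : ℤ) * a i ∈ sgp a := by
        rw [hb, mem_sgp_iff]
        refine ⟨fun j => if j = i then b j - m j else b j, ?_⟩
        rw [← Finset.add_sum_erase _ _ (Finset.mem_univ i),
          ← Finset.add_sum_erase _ _ (Finset.mem_univ i)]
        have e1 : ∑ x ∈ Finset.univ.erase i, ((if x = i then b x - m x else b x : ℕ) : ℤ) * a x =
            ∑ x ∈ Finset.univ.erase i, (b x : ℤ) * a x := by
          refine Finset.sum_congr rfl fun x hx => ?_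
          rw [if_neg (Finset.ne_of_mem_erase hx)]
        rw [e1]
        beta_reduce
        rw [if_pos rfl, Nat.cast_sub hcon]
        ring
      refine hp.not_mem_of_E h1 (j := 1) le_rfl (by omega) ?_
      have h2 := hmrel (π.symm i)
      simp only [Equiv.apply_symm_apply] at h2
      have h3 : (m i : ℤ) * a i + ((1 : ℕ) : ℤ) * α = ((c (π.symm i) + 1 : ℕ) : ℤ) * a (π.symm i) := by
        push_cast
        linarith
      rw [h3]
      exact mul_gen_mem_sgp a _ _
    have h4 : ∑ i, ((m i : ℤ) - 1 - b i) * a i = 0 := by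
      have h5 : ∑ i, ((m i : ℤ) - 1 - b i) * a i =
          ∑ i, ((m i : ℤ) - 1) * a i - ∑ i, (b i : ℤ) * a i := by
        rw [← Finset.sum_sub_distrib]
        exact Finset.sum_congr rfl fun i _ => by ring
      rw [h5, ← hh, ← hb, sub_self]
    have h6 : ∀ i ∈ Finset.univ, 0 ≤ ((m i : ℤ) - 1 - b i) * a i := by
      intro i _
      have h7 := hle i
      have h8 : (0 : ℤ) ≤ (m i : ℤ) - 1 - b i := by omega
      positivity
    intro i
    have h9 := (Finset.sum_eq_zero_iff_of_nonneg h6).1 h4 i (Finset.mem_univ i)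
    have h10 : (0 : ℤ) < a i := by exact_mod_cast nalpha_pos ha i
    have h11 : (m i : ℤ) - 1 - b i = 0 := by
      rcases mul_eq_zero.1 h9 with h12 | h12
      · exact h12
      · omega
    have := hle i
    omega
  funext i
  rw [key b hb i, key b' hb' i]

end Pool.Agent.NumSgp
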