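import Mathlib

/-!
# Piece A2: graded Nakayama lemma for ideals of a weighted polynomial ring
-/

namespace Pool.Agent.NumSgp

open MvPolynomial

/-- An ideal generated by weighted homogeneous elements contains the weighted homogeneous
components of its elements.
Proof: span induction; for `p • f` with `f` weighted homogeneous of degree `e`, the component
of degree `d` of `p * f` is `p_(d-e) * f` if `e ≤ d` and zero otherwise. (Write `p` as the sum of
its components.) -/
theorem component_mem_span {k σ : Type*} [Field k] (w : σ → ℕ) (s : Set (MvPolynomial σ k))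
    (hs : ∀ f ∈ s, ∃ d, IsWeightedHomogeneous w f d) :
    ∀ f ∈ Ideal.span s, ∀ d, weightedHomogeneousComponent w d f ∈ Ideal.span s := by
  classical
  let _ := MvPolynomial.weightedGradedAlgebra k w
  have h : (Ideal.span s).IsHomogeneous (weightedHomogeneousSubmodule k w) := by
    apply Ideal.homogeneous_span
    intro f hf
    obtain ⟨d, hd⟩ := hs f hf
    exact ⟨d, (mem_weightedHomogeneousSubmodule k w d f).mpr hd⟩
  intro f hf d
  exact weightedHomogeneousComponent_mem_of_mem k w h hf d

/-- Components of `X_i * r`. -/
theorem component_X_mul {k σ : Type*} [Field k] (w : σ → ℕ) (i : σ) (r : MvPolynomial σ k) (d : ℕ) :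
    weightedHomogeneousComponent w d (X i * r) =
      if w i ≤ d then X i * weightedHomogeneousComponent w (d - w i) r else 0 := by
  classical
  ext m
  rw [coeff_weightedHomogeneousComponent, coeff_X_mul']
  have hw : ∀ m : σ →₀ ℕ, i ∈ m.support →
      Finsupp.weight w m = Finsupp.weight w (m - Finsupp.single i 1) + w i := by
    intro m hm
    have h1 : m - Finsupp.single i 1 + Finsupp.single i 1 = m := by
      apply tsub_add_cancel_of_le
      rw [Finsupp.single_le_iff]
      exact Nat.one_le_iff_ne_zero.mpr (Finsupp.mem_support_iff.mp hm)
    conv_lhs => rw [← h1]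
    rw [map_add, Finsupp.weight_single, one_smul]
  by_cases hd : w i ≤ d
  · rw [if_pos hd, coeff_X_mul']
    by_cases hm : i ∈ m.support
    · rw [if_pos hm, if_pos hm, coeff_weightedHomogeneousComponent, hw m hm]
      by_cases he : Finsupp.weight w (m - Finsupp.single i 1) = d - w i
      · rw [if_pos he, if_pos (by omega)]
      · rw [if_neg he, if_neg (by omega)]
    · rw [if_neg hm, if_neg hm, ite_self]
  · rw [if_neg hd, coeff_zero]
    by_cases hm : i ∈ m.support
    · rw [if_neg (by rw [hw m hm]; omega)]
    · rw [if_neg hm, ite_self]

/-- Graded Nakayama. Proof: `J ≤ I` is given. For `I ≤ J` it is enough to treat weighted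
homogeneous elements `f ∈ I` of degree `d` (any element is the sum of its components, which lie in
`I`); strong induction on `d`. Write `f = j + ∑_i X_i g_i` with `j ∈ J`, `g_i ∈ I`; take
components of degree `d`: `f = j_d + ∑_i X_i (g_i)_(d - w_i)` (the term is zero when `d < w_i`).
Here `j_d ∈ J` and `(g_i)_(d - w_i) ∈ I` is weighted homogeneous of degree `d - w_i < d`, so it
lies in `J` by induction. -/
theorem graded_nakayama {k σ : Type*} [Field k] [Fintype σ] (w : σ → ℕ) (hw : ∀ i, 0 < w i)
    (I J : Ideal (MvPolynomial σ k))
    (hI : ∀ f ∈ I, ∀ d, weightedHomogeneousComponent w d f ∈ I)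
    (hJ : ∀ f ∈ J, ∀ d, weightedHomogeneousComponent w d f ∈ J)
    (hle : J ≤ I)
    (h : I ≤ J ⊔ Ideal.span (Set.range (X : σ → MvPolynomial σ k)) * I) : I = J := by
  refine le_antisymm ?_ hle
  have key : ∀ d : ℕ, ∀ f ∈ I, IsWeightedHomogeneous w f d → f ∈ J := by
    intro d
    induction d using Nat.strong_induction_on with
    | _ d ih =>
      intro f hf hfd
      -- components of products
      have hprod : ∀ p ∈ Ideal.span (Set.range (X : σ → MvPolynomial σ k)), ∀ q ∈ I,
          weightedHomogeneousComponent w d (p * q) ∈ J := by
        intro p hp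
        refine Submodule.span_induction (p := fun p _ => ∀ q ∈ I,
          weightedHomogeneousComponent w d (p * q) ∈ J) ?_ ?_ ?_ ?_ hp
        · rintro _ ⟨i, rfl⟩ q hq
          rw [component_X_mul]
          split_ifs with hd
          · refine Ideal.mul_mem_left _ _ (ih (d - w i) ?_ _ (hI q hq _) ?_)
            · have := hw i
              omega
            · exact weightedHomogeneousComponent_isWeightedHomogeneous _ _
          · exact J.zero_mem
        · intro q _
          rw [zero_mul, map_zero]
          exact J.zero_mem
        · intro x y _ _ hx hy q hq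
          rw [add_mul, map_add]
          exact add_mem (hx q hq) (hy q hq)
        · intro a x _ hx q hq
          rw [smul_eq_mul, show a * x * q = x * (a * q) by ring]
          exact hx _ (Ideal.mul_mem_left _ _ hq)
      have hm : ∀ g ∈ Ideal.span (Set.range (X : σ → MvPolynomial σ k)) * I,
          weightedHomogeneousComponent w d g ∈ J := by
        intro g hg
        refine Submodule.mul_induction_on hg hprod ?_
        intro x y hx hy
        rw [map_add]
        exact add_mem hx hy
      obtain ⟨j, hj, g, hg, hjg⟩ := Submodule.mem_sup.mp (h hf)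
      have h1 : f = weightedHomogeneousComponent w d j + weightedHomogeneousComponent w d g := by
        rw [← map_add, hjg]
        exact hfd.weightedHomogeneousComponent_same.symm
      rw [h1]
      exact add_mem (hJ j hj d) (hm g hg)
  intro f hf
  rw [← sum_weightedHomogeneousComponent w f, finsum_eq_sum _ (weightedHomogeneousComponent_finsupp f)]
  exact Ideal.sum_mem _ fun m _ => key m _ (hI f hf m)
    (weightedHomogeneousComponent_isWeightedHomogeneous _ _)

end Pool.Agent.NumSgp
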