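import Pool.Agent.Lib_MP_c084f5_al.Phi
import Pool.Agent.Lib_MP_c084f5_al.Nakayama

/-!
# Piece A3: condition (1) gives a matrix of monomials
-/

namespace Pool.Agent.NumSgp

open MvPolynomial

/-- A weighted homogeneous polynomial of positive degree lies in the ideal generated by the
variables. -/
theorem mem_maximal_of_isWH {k : Type*} [Field k] {n : ℕ} (a : Fin n → ℕ)
    {f : MvPolynomial (Fin n) k} {d : ℕ} (hd : 0 < d) (hf : IsWeightedHomogeneous a f d) :
    f ∈ Ideal.span (Set.range (X : Fin n → MvPolynomial (Fin n) k)) := by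
  rw [← Set.image_univ, mem_ideal_span_X_image]
  intro m hm
  have h1 := hf (mem_support_iff.mp hm)
  by_contra hne
  push Not at hne
  have h2 : m = 0 := by
    ext i
    exact hne i (Set.mem_univ i)
  rw [h2, map_zero] at h1
  omega

/-- The defining ideal is not zero if `n ≥ 2`: it contains
`X_i^(a_j) - X_j^(a_i)` for `i ≠ j`, which is not zero. -/
theorem toricIdeal_ne_bot {k : Type*} [Field k] {n : ℕ} (hn : 2 ≤ n) (a : Fin n → ℕ)
    (ha : ∀ i, 0 < a i) : toricIdeal k a ≠ ⊥ := by
  set i : Fin n := ⟨0, by omega⟩ with hi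
  set j : Fin n := ⟨1, by omega⟩ with hj
  have hij : i ≠ j := by
    rw [hi, hj, Ne, Fin.mk.injEq]
    omega
  intro h
  have hmem : (X i ^ a j - X j ^ a i : MvPolynomial (Fin n) k) ∈ toricIdeal k a := by
    rw [toricIdeal, RingHom.mem_ker, toricMap, map_sub, map_pow, map_pow, aeval_X, aeval_X,
      ← pow_mul, ← pow_mul, mul_comm, sub_self]
  rw [h, Ideal.mem_bot, sub_eq_zero, X_pow_eq_monomial, X_pow_eq_monomial] at hmem
  have h1 := monomial_left_injective (R := k) one_ne_zero hmem
  have h2 := DFunLike.congr_fun h1 i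
  rw [Finsupp.single_eq_same, Finsupp.single_eq_of_ne hij] at h2
  exact absurd h2 (ha j).ne'

theorem evalOne_monomial {k : Type*} [Field k] {n : ℕ} (u : Fin n →₀ ℕ) :
    evalOne k n (monomial u 1) = 1 := by
  rw [evalOne, aeval_monomial]
  simp

/-- Put `m = (X_1,..,X_n)`, `I = toricIdeal`, `c_i = f_i(1,..,1)`, `c'_i = g_i(1,..,1)`, degrees
`d_i, d'_i > 0`.
(i) If all `c_i = 0` then `f_i ∈ I` (F2), so every minor is in `m I` (`g_j ∈ m`), so `I ≤ m I`,
so `I = 0` by `graded_nakayama` with `J = ⊥`: contradiction to `toricIdeal_ne_bot`. Same for the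
`c'_i`. The minors are in `I`, so `c_i c'_j = c_j c'_i` (`evalOne_of_mem`). Hence
`J := {j | c_j ≠ 0} = {j | c'_j ≠ 0}` is not empty. For `i, j ∈ J` the minor maps under `toricMap`
to `c_i c'_j (t^(d_i + d'_j) - t^(d_j + d'_i)) = 0` so `d_i + d'_j = d_j + d'_i`.
(ii) For `j ∈ J` choose a monomial `b_j` of the support of `f_j` and `b'_j` of the support of
`g_j` (weights `d_j`, `d'_j`, positive so `b_j ≠ 0 ≠ b'_j`). Then `u_j := f_j - c_j X^(b_j) ∈ I`
and `u'_j := g_j - c'_j X^(b'_j) ∈ I` by F2.
(iii) Let `I_0` be the span of the binomials on the right-hand side. They are weighted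
homogeneous and lie in `I` by F2. Every minor lies in `I_0 + m I`: if `i ∉ J` or `j ∉ J` it is in
`m I`; if `i, j ∈ J` it is `c_i c'_j X^(b_i + b'_j) - c_j c'_i X^(b_j + b'_i)` modulo `m I`, and
`c_i c'_j = c_j c'_i`. So `I = I_0` by `graded_nakayama`. -/
theorem monomialize {k : Type*} [Field k] {n : ℕ} (hn : 2 ≤ n) (a : Fin n → ℕ)
    (ha : ∀ i, 0 < a i) (h1 : Cond1 k a) :
    ∃ (J : Finset (Fin n)) (b b' : Fin n → (Fin n →₀ ℕ)),
      (∀ j ∈ J, b j ≠ 0) ∧ (∀ j ∈ J, b' j ≠ 0) ∧
      toricIdeal k a = Ideal.span {p | ∃ i ∈ J, ∃ j ∈ J,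
        p = monomial (b i + b' j) (1 : k) - monomial (b j + b' i) 1} := by
  classical
  obtain ⟨f, g, hf, hg, hI⟩ := h1
  choose d hd0 hd using hf
  choose d' hd0' hd' using hg
  set I := toricIdeal k a with hIdef
  set 𝔪 : Ideal (MvPolynomial (Fin n) k) := Ideal.span (Set.range X) with h𝔪
  set c : Fin n → k := fun i => evalOne k n (f i) with hc
  set c' : Fin n → k := fun i => evalOne k n (g i) with hc'
  have hfm : ∀ i, f i ∈ 𝔪 := fun i => mem_maximal_of_isWH a (hd0 i) (hd i)
  have hgm : ∀ i, g i ∈ 𝔪 := fun i => mem_maximal_of_isWH a (hd0' i) (hd' i)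
  have hfI : ∀ i, c i = 0 → f i ∈ I := fun i h => (mem_toricIdeal_iff_of_isWH a (hd i)).mpr h
  have hgI : ∀ i, c' i = 0 → g i ∈ I := fun i h => (mem_toricIdeal_iff_of_isWH a (hd' i)).mpr h
  have hminor : ∀ i j, f i * g j - f j * g i ∈ I := by
    intro i j
    rw [hI]
    exact Ideal.subset_span ⟨(i, j), rfl⟩
  have hcc : ∀ i j, c i * c' j = c j * c' i := by
    intro i j
    have := evalOne_of_mem a (hminor i j)
    rw [map_sub, map_mul, map_mul, sub_eq_zero] at this
    exact this
  -- nothing vanishes identically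
  have hnak : (∀ i j, f i * g j - f j * g i ∈ 𝔪 * I) → False := by
    intro h
    apply toricIdeal_ne_bot hn a ha (k := k)
    refine graded_nakayama a ha I ⊥ (fun p hp e => component_mem_toricIdeal a hp e) ?_ bot_le ?_
    · intro p hp e
      rw [Ideal.mem_bot] at hp ⊢
      rw [hp, map_zero]
    · rw [bot_sup_eq]
      conv_lhs => rw [hI]
      rw [minors2, Ideal.span_le]
      rintro _ ⟨⟨i, j⟩, rfl⟩
      exact h i j
  have hex : ∃ i, c i ≠ 0 := by
    by_contra hall
    push Not at hall
    refine hnak fun i j => sub_mem ?_ ?_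
    · rw [mul_comm (f i)]
      exact Ideal.mul_mem_mul (hgm j) (hfI i (hall i))
    · rw [mul_comm (f j)]
      exact Ideal.mul_mem_mul (hgm i) (hfI j (hall j))
  have hex' : ∃ i, c' i ≠ 0 := by
    by_contra hall
    push Not at hall
    refine hnak fun i j => sub_mem ?_ ?_
    · exact Ideal.mul_mem_mul (hfm i) (hgI j (hall j))
    · exact Ideal.mul_mem_mul (hfm j) (hgI i (hall i))
  obtain ⟨i₀, hi₀⟩ := hex
  obtain ⟨j₀, hj₀⟩ := hex'
  have hi₀' : c' i₀ ≠ 0 := by
    have h1 : c i₀ * c' j₀ ≠ 0 := mul_ne_zero hi₀ hj₀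
    rw [hcc] at h1
    exact right_ne_zero_of_mul h1
  have hiff : ∀ j, c j ≠ 0 ↔ c' j ≠ 0 := by
    intro j
    constructor
    · intro h
      have h1 : c j * c' i₀ ≠ 0 := mul_ne_zero h hi₀'
      rw [hcc] at h1
      exact right_ne_zero_of_mul h1
    · intro h
      have h1 : c i₀ * c' j ≠ 0 := mul_ne_zero hi₀ h
      rw [hcc] at h1
      exact left_ne_zero_of_mul h1
  -- the monomials
  have hb : ∀ j, ∃ b : Fin n →₀ ℕ, c j ≠ 0 → Finsupp.weight a b = d j := by
    intro j
    by_cases h : c j = 0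
    · exact ⟨0, fun h' => absurd h h'⟩
    · have hne : f j ≠ 0 := fun h0 => h (by rw [hc]; simp only; rw [h0, map_zero])
      obtain ⟨b, hb⟩ := MvPolynomial.ne_zero_iff.mp hne
      exact ⟨b, fun _ => hd j hb⟩
  have hb' : ∀ j, ∃ b : Fin n →₀ ℕ, c' j ≠ 0 → Finsupp.weight a b = d' j := by
    intro j
    by_cases h : c' j = 0
    · exact ⟨0, fun h' => absurd h h'⟩
    · have hne : g j ≠ 0 := fun h0 => h (by rw [hc']; simp only; rw [h0, map_zero])
      obtain ⟨b, hb⟩ := MvPolynomial.ne_zero_iff.mp hne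
      exact ⟨b, fun _ => hd' j hb⟩
  choose b hb using hb
  choose b' hb' using hb'
  set J : Finset (Fin n) := Finset.univ.filter fun j => c j ≠ 0 with hJ
  have hmJ : ∀ j, j ∈ J ↔ c j ≠ 0 := fun j => by simp [hJ]
  -- degrees
  have hdeg : ∀ i ∈ J, ∀ j ∈ J, d i + d' j = d j + d' i := by
    intro i hi j hj
    have h1 : toricMap k a (f i * g j - f j * g i) = 0 := hminor i j
    rw [map_sub, map_mul, map_mul, toricMap_of_isWH a (hd i), toricMap_of_isWH a (hd j),
      toricMap_of_isWH a (hd' i), toricMap_of_isWH a (hd' j)] at h1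
    have h2 : Polynomial.C (c i * c' j) * Polynomial.X ^ (d i + d' j) -
        Polynomial.C (c i * c' j) * Polynomial.X ^ (d j + d' i) = (0 : Polynomial k) := by
      rw [← h1]
      conv_lhs => rw [show Polynomial.C (c i * c' j) * Polynomial.X ^ (d j + d' i) =
        Polynomial.C (c j * c' i) * Polynomial.X ^ (d j + d' i) by rw [hcc i j]]
      simp only [hc, hc', Polynomial.C_mul]
      ring
    have h3 : c i * c' j ≠ 0 := mul_ne_zero ((hmJ i).mp hi) ((hiff j).mp ((hmJ j).mp hj))
    by_contra hne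
    have h4 := congrArg (fun p => Polynomial.coeff p (d i + d' j)) h2
    simp only [Polynomial.coeff_sub, Polynomial.coeff_C_mul, Polynomial.coeff_X_pow, if_pos,
      if_neg hne, Polynomial.coeff_zero, mul_one, mul_zero, sub_zero] at h4
    exact h3 h4
  have hBm : ∀ j ∈ J, monomial (b j) (1 : k) ∈ 𝔪 := fun j hj =>
    mem_maximal_of_isWH a (hd0 j)
      (isWeightedHomogeneous_monomial a (b j) 1 (hb j ((hmJ j).mp hj)))
  have hu : ∀ j ∈ J, f j - C (c j) * monomial (b j) 1 ∈ I := by
    intro j hj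
    refine (mem_toricIdeal_iff_of_isWH a ((hd j).sub ?_)).mpr ?_
    · have := (isWeightedHomogeneous_C (R := k) a (c j)).mul
        (isWeightedHomogeneous_monomial a (b j) 1 (hb j ((hmJ j).mp hj)))
      rwa [zero_add] at this
    · rw [map_sub, map_mul, evalOne_monomial, mul_one, evalOne, aeval_C]
      exact sub_self _
  have hu' : ∀ j ∈ J, g j - C (c' j) * monomial (b' j) 1 ∈ I := by
    intro j hj
    have hj' := (hiff j).mp ((hmJ j).mp hj)
    refine (mem_toricIdeal_iff_of_isWH a ((hd' j).sub ?_)).mpr ?_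
    · have := (isWeightedHomogeneous_C (R := k) a (c' j)).mul
        (isWeightedHomogeneous_monomial a (b' j) 1 (hb' j hj'))
      rwa [zero_add] at this
    · rw [map_sub, map_mul, evalOne_monomial, mul_one, evalOne, aeval_C]
      exact sub_self _
  refine ⟨J, b, b', ?_, ?_, ?_⟩
  · intro j hj h0
    have h1 := hb j ((hmJ j).mp hj)
    rw [h0, map_zero] at h1
    exact (hd0 j).ne h1
  · intro j hj h0
    have h1 := hb' j ((hiff j).mp ((hmJ j).mp hj))
    rw [h0, map_zero] at h1
    exact (hd0' j).ne h1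
  set S : Set (MvPolynomial (Fin n) k) := {p | ∃ i ∈ J, ∃ j ∈ J,
        p = monomial (b i + b' j) (1 : k) - monomial (b j + b' i) 1} with hS
  have hSWH : ∀ p ∈ S, ∃ e, IsWeightedHomogeneous a p e := by
    rintro _ ⟨i, hi, j, hj, rfl⟩
    have hi' := (hmJ i).mp hi
    have hj' := (hmJ j).mp hj
    refine ⟨d i + d' j, ?_⟩
    refine (isWeightedHomogeneous_monomial a _ 1 ?_).sub (isWeightedHomogeneous_monomial a _ 1 ?_)
    · rw [map_add, hb i hi', hb' j ((hiff j).mp hj')]
    · rw [map_add, hb j hj', hb' i ((hiff i).mp hi'), hdeg i hi j hj]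
  refine graded_nakayama a ha I (Ideal.span S) (fun p hp e => component_mem_toricIdeal a hp e)
    (component_mem_span a S hSWH) ?_ ?_
  · rw [Ideal.span_le]
    intro p hp
    obtain ⟨e, he⟩ := hSWH p hp
    refine (mem_toricIdeal_iff_of_isWH a he).mpr ?_
    obtain ⟨i, hi, j, hj, rfl⟩ := hp
    rw [map_sub, evalOne_monomial, evalOne_monomial, sub_self]
  · conv_lhs => rw [hI]
    rw [minors2, Ideal.span_le]
    rintro _ ⟨⟨i, j⟩, rfl⟩
    show f i * g j - f j * g i ∈ Ideal.span S ⊔ 𝔪 * I
    by_cases hi : i ∈ J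
    · by_cases hj : j ∈ J
      · have e1 : f i * g j - f j * g i =
            C (c i * c' j) * (monomial (b i + b' j) (1 : k) - monomial (b j + b' i) 1) +
            ((C (c i) * monomial (b i) 1) * (g j - C (c' j) * monomial (b' j) 1) +
              g j * (f i - C (c i) * monomial (b i) 1) -
            ((C (c j) * monomial (b j) 1) * (g i - C (c' i) * monomial (b' i) 1) +
              g i * (f j - C (c j) * monomial (b j) 1))) := by
          have m1 : monomial (b i + b' j) (1 : k) = monomial (b i) 1 * monomial (b' j) 1 := by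
            rw [monomial_mul, one_mul]
          have m2 : monomial (b j + b' i) (1 : k) = monomial (b j) 1 * monomial (b' i) 1 := by
            rw [monomial_mul, one_mul]
          have m3 : C (σ := Fin n) (c i * c' j) = C (c j) * C (c' i) := by
            rw [hcc i j, C_mul]
          have m4 : C (σ := Fin n) (c i * c' j) = C (c i) * C (c' j) := C_mul
          rw [mul_sub, m1, m2]
          conv_rhs =>
            rw [show C (c i * c' j) * ((monomial (b j)) (1 : k) * (monomial (b' i)) 1) =
              C (c j) * C (c' i) * ((monomial (b j)) (1 : k) * (monomial (b' i)) 1) by rw [m3]]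
            rw [m4]
          ring
        rw [e1]
        refine add_mem (Ideal.mem_sup_left (Ideal.mul_mem_left _ _
          (Ideal.subset_span ⟨i, hi, j, hj, rfl⟩))) (Ideal.mem_sup_right ?_)
        refine sub_mem (add_mem ?_ ?_) (add_mem ?_ ?_)
        · exact Ideal.mul_mem_mul (Ideal.mul_mem_left _ _ (hBm i hi)) (hu' j hj)
        · exact Ideal.mul_mem_mul (hgm j) (hu i hi)
        · exact Ideal.mul_mem_mul (Ideal.mul_mem_left _ _ (hBm j hj)) (hu' i hi)
        · exact Ideal.mul_mem_mul (hgm i) (hu j hj)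
      · have hcj : c j = 0 := by
          by_contra h
          exact hj ((hmJ j).mpr h)
        have hcj' : c' j = 0 := by
          by_contra h
          exact (hiff j).mpr h hcj
        refine Ideal.mem_sup_right (sub_mem ?_ ?_)
        · exact Ideal.mul_mem_mul (hfm i) (hgI j hcj')
        · rw [mul_comm (f j)]
          exact Ideal.mul_mem_mul (hgm i) (hfI j hcj)
    · have hci : c i = 0 := by
        by_contra h
        exact hi ((hmJ i).mpr h)
      have hci' : c' i = 0 := by
        by_contra h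
        exact (hiff i).mpr h hci
      refine Ideal.mem_sup_right (sub_mem ?_ ?_)
      · rw [mul_comm (f i)]
        exact Ideal.mul_mem_mul (hgm j) (hfI i hci)
      · exact Ideal.mul_mem_mul (hfm j) (hgI i hci')

end Pool.Agent.NumSgp
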