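import Pool.Agent.Lib_MP_c084f5_al.Arith

/-!
# Piece X0: if `nα ∈ H` then `h` has a unique factorization
Notation: `H = sgp a`, `L = {x ∈ H | x + α ∈ H}`, `E = {x ∈ H | h - x ∈ H}`; `H` is the disjoint
union of `E` and `L` (`ArithPF.E_or_L`, `ArithPF.not_mem_of_E` with `j = 1`).
-/

namespace Pool.Agent.NumSgp

theorem nalpha_pos {n : ℕ} {a : Fin n → ℕ} (ha : IsMinGen a) (i : Fin n) : 0 < a i := by
  rcases Nat.eq_zero_or_pos (a i) with h | h
  · exfalso
    apply ha.2 i
    rw [h]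
    simp only [Nat.cast_zero]
    exact AddSubmonoid.zero_mem _
  · exact h

theorem nalpha_gen_mem {n : ℕ} (a : Fin n → ℕ) (i : Fin n) : (a i : ℤ) ∈ sgp a :=
  AddSubmonoid.subset_closure ⟨i, rfl⟩

/-- `L + α ⊆ L`: if `x + 2α ∉ H` then `h - (x + α) ∈ H` (`ArithPF.E_or_L`); adding `nα` and `x`
gives `h + (n-1)α ∈ H`, contradiction. -/
theorem L_add_alpha {n : ℕ} (hn : 3 ≤ n) {a : Fin n → ℕ} {h α : ℤ} (ha : IsMinGen a)
    (hp : ArithPF a h α) (hnα : (n : ℤ) * α ∈ sgp a) {x : ℤ} (hx : x ∈ sgp a)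
    (hx' : x + α ∈ sgp a) : x + 2 * α ∈ sgp a := by
  rcases hp.E_or_L ha.1 hx' with h1 | h1
  · exfalso
    have h2 : h + ((n - 1 : ℕ) : ℤ) * α ∈ sgp a := by
      have h3 := add_mem (add_mem h1 hnα) hx
      have h4 : h - (x + α) + (n : ℤ) * α + x = h + ((n - 1 : ℕ) : ℤ) * α := by
        rw [Nat.cast_sub (by omega)]
        push_cast
        ring
      rwa [h4] at h3
    exact hp.not_mem_h (j := n - 1) (by omega) (by omega) h2
  · have : x + 2 * α = x + α + α := by ring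
    rw [this]
    exact h1

/-- Every element of `L` is divisible by a minimal element of `L`. -/
theorem nalpha_exists_min {n : ℕ} {a : Fin n → ℕ} {α : ℤ} (ha : IsMinGen a) (N : ℕ) :
    ∀ y : ℤ, y ∈ sgp a → y + α ∈ sgp a → y ≤ N →
    ∃ v : ℤ, (v ∈ sgp a ∧ v + α ∈ sgp a) ∧ y - v ∈ sgp a ∧
      ∀ i, ¬ (v - a i ∈ sgp a ∧ v - a i + α ∈ sgp a) := by
  induction N with
  | zero =>
    intro y hy hy' hyN
    refine ⟨y, ⟨hy, hy'⟩, by rw [sub_self]; exact zero_mem _, fun i hi => ?_⟩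
    have h1 := nonneg_of_mem_sgp a hi.1
    have h2 : (0 : ℤ) < a i := by exact_mod_cast nalpha_pos ha i
    push_cast at hyN
    linarith
  | succ N ih =>
    intro y hy hy' hyN
    by_cases hex : ∃ i, y - a i ∈ sgp a ∧ y - a i + α ∈ sgp a
    · obtain ⟨i, hi, hi'⟩ := hex
      have h2 : (0 : ℤ) < a i := by exact_mod_cast nalpha_pos ha i
      obtain ⟨v, hv, hv1, hv2⟩ := ih (y - a i) hi hi' (by push_cast at hyN; linarith)
      refine ⟨v, hv, ?_, hv2⟩
      have : y - v = (y - a i - v) + a i := by ring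
      rw [this]
      exact add_mem hv1 (nalpha_gen_mem a i)
    · push Not at hex
      exact ⟨y, ⟨hy, hy'⟩, by rw [sub_self]; exact zero_mem _, fun i hi => hex i hi.1 hi.2⟩

/-- A nonzero element of the semigroup is divisible by a generator. -/
theorem nalpha_exists_gen {n : ℕ} {a : Fin n → ℕ} {v : ℤ} (hv : v ∈ sgp a) (h0 : v ≠ 0) :
    ∃ k, v - a k ∈ sgp a := by
  obtain ⟨c, hc⟩ := (mem_sgp_iff a v).mp hv
  have hex : ∃ k, c k ≠ 0 := by
    by_contra hall
    push Not at hall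
    apply h0
    rw [hc]
    exact Finset.sum_eq_zero fun i _ => by rw [hall i]; simp
  obtain ⟨k, hk⟩ := hex
  refine ⟨k, (mem_sgp_iff a _).mpr ⟨fun i => if i = k then c i - 1 else c i, ?_⟩⟩
  rw [hc, ← Finset.add_sum_erase _ _ (Finset.mem_univ k),
    ← Finset.add_sum_erase _ _ (Finset.mem_univ k)]
  have h1 : ∑ x ∈ Finset.univ.erase k, ((if x = k then c x - 1 else c x : ℕ) : ℤ) * a x =
      ∑ x ∈ Finset.univ.erase k, (c x : ℤ) * a x := by
    refine Finset.sum_congr rfl fun x hx => ?_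
    rw [if_neg (Finset.ne_of_mem_erase hx)]
  rw [h1]
  beta_reduce
  rw [if_pos rfl, Nat.cast_sub (Nat.one_le_iff_ne_zero.mpr hk)]
  push_cast
  ring

/-- Let `w ∈ L`. Then at most one `k` satisfies `w - a_k ∈ E`.
Proof: put `w_0 = w` and choose for every `t` some `w_(t+1) ∈ L` such that
`w_t + α - w_(t+1) ∈ H` and `w_(t+1) - a_i ∉ L` for all `i` (minimal element of `L` dividing
`w_t + α ∈ L`; `L_add_alpha`). For `t ≥ 1` there is `k` with `w_t - a_k ∈ H` (`w_t ≠ 0` since
`0 + α ∉ H`), and then `w_t - a_k ∈ E` as it is not in `L`. Put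
`K t = {k | w_t - a_k ∈ E}`, nonempty for `t ≥ 1`. The sets `K 0, .., K (n-1)` are pairwise
disjoint: if `k ∈ K s ∩ K t`, `s < t ≤ n - 1`, then
`(w_s - a_k) + (t - s) α = (w_t - a_k) + (element of H) ∈ H`, contradiction to
`ArithPF.not_mem_of_E`. As they are subsets of `Fin n` and `K 1, .., K (n-1)` are nonempty, `K 0`
has at most one element. -/
theorem card_K_le_one {n : ℕ} (hn : 3 ≤ n) {a : Fin n → ℕ} {h α : ℤ} (ha : IsMinGen a)
    (hp : ArithPF a h α) (hnα : (n : ℤ) * α ∈ sgp a) {w : ℤ} (hw : w ∈ sgp a)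
    (hw' : w + α ∈ sgp a) {k k' : Fin n}
    (hk : w - a k ∈ sgp a) (hk1 : h - (w - a k) ∈ sgp a)
    (hk' : w - a k' ∈ sgp a) (hk1' : h - (w - a k') ∈ sgp a) : k = k' := by
  have hstep : ∀ x : {x : ℤ // x ∈ sgp a ∧ x + α ∈ sgp a},
      ∃ v : {x : ℤ // x ∈ sgp a ∧ x + α ∈ sgp a}, (x : ℤ) + α - v ∈ sgp a ∧
        ∀ i, ¬ ((v : ℤ) - a i ∈ sgp a ∧ (v : ℤ) - a i + α ∈ sgp a) := by
    rintro ⟨x, hx, hx'⟩
    have h1 : x + α + α ∈ sgp a := by
      have := L_add_alpha hn ha hp hnα hx hx'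
      rwa [show x + 2 * α = x + α + α by ring] at this
    obtain ⟨v, hv, hv1, hv2⟩ := nalpha_exists_min ha (x + α).toNat (x + α) hx' h1
      (Int.self_le_toNat _)
    exact ⟨⟨v, hv⟩, hv1, hv2⟩
  choose step hs1 hs2 using hstep
  set W : ℕ → {x : ℤ // x ∈ sgp a ∧ x + α ∈ sgp a} := fun t => Nat.rec ⟨w, hw, hw'⟩ (fun _ x => step x) t
    with hW
  have hW0 : (W 0 : ℤ) = w := rfl
  have hWs : ∀ t, W (t + 1) = step (W t) := fun t => rfl
  have htele : ∀ s t : ℕ, (W s : ℤ) + t * α - W (s + t) ∈ sgp a := by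
    intro s t
    induction t with
    | zero => simp
    | succ t ih =>
      have h1 := add_mem ih (hs1 (W (s + t)))
      rw [← hWs] at h1
      have h2 : (W s : ℤ) + t * α - W (s + t) + ((W (s + t) : ℤ) + α - W (s + t + 1)) =
          (W s : ℤ) + ((t + 1 : ℕ) : ℤ) * α - W (s + (t + 1)) := by
        push_cast
        rw [add_assoc s t 1]
        ring
      rwa [h2] at h1
  -- the sets `K t`
  have hne : ∀ t, ∃ κ : Fin n, (W (t + 1) : ℤ) - a κ ∈ sgp a ∧ h - ((W (t + 1) : ℤ) - a κ) ∈ sgp a := by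
    intro t
    have h0 : (W (t + 1) : ℤ) ≠ 0 := by
      intro h0
      have h1 := (W (t + 1)).2.2
      rw [h0, zero_add] at h1
      exact hp.alpha_not_mem hn h1
    obtain ⟨κ, hκ⟩ := nalpha_exists_gen (W (t + 1)).2.1 h0
    refine ⟨κ, hκ, ?_⟩
    rcases hp.E_or_L ha.1 hκ with h1 | h1
    · exact h1
    · exact absurd ⟨hκ, h1⟩ (hs2 (W t) κ)
  have hdisj : ∀ s t : ℕ, s < t → t < n → ∀ κ : Fin n, h - ((W s : ℤ) - a κ) ∈ sgp a →
      (W t : ℤ) - a κ ∈ sgp a → False := by
    intro s t hst htn κ h1 h2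
    apply hp.not_mem_of_E h1 (j := t - s) (by omega) (by omega)
    have h3 := add_mem (htele s (t - s)) h2
    rw [show s + (t - s) = t by omega] at h3
    have h4 : (W s : ℤ) + ((t - s : ℕ) : ℤ) * α - W t + ((W t : ℤ) - a κ) =
        (W s : ℤ) - a κ + ((t - s : ℕ) : ℤ) * α := by ring
    rwa [h4] at h3
  choose κ hκ1 hκ2 using hne
  set F : Fin n → Fin n := fun t => if t.1 = 0 then k else κ (t.1 - 1) with hF
  have hF1 : ∀ t : Fin n, (W t : ℤ) - a (F t) ∈ sgp a ∧ h - ((W t : ℤ) - a (F t)) ∈ sgp a := by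
    intro t
    by_cases h0 : t.1 = 0
    · simp only [hF, if_pos h0]
      rw [h0, hW0]
      exact ⟨hk, hk1⟩
    · simp only [hF, if_neg h0]
      have h1 := hκ1 (t.1 - 1)
      have h2 := hκ2 (t.1 - 1)
      rw [show t.1 - 1 + 1 = t.1 by omega] at h1 h2
      exact ⟨h1, h2⟩
  have hFinj : Function.Injective F := by
    intro s t hst
    by_contra hne
    rcases lt_or_gt_of_ne (fun h => hne (Fin.ext h) : s.1 ≠ t.1) with hlt | hlt
    · exact hdisj s t hlt t.2 (F s) (hF1 s).2 (hst ▸ (hF1 t).1)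
    · exact hdisj t s hlt s.2 (F t) (hF1 t).2 (hst ▸ (hF1 s).1)
  obtain ⟨t, ht⟩ := Finite.injective_iff_surjective.mp hFinj k'
  by_cases h0 : t.1 = 0
  · rw [← ht]
    simp only [hF, if_pos h0]
  · exfalso
    apply hdisj 0 t (Nat.pos_of_ne_zero h0) t.2 k'
    · rw [hW0]
      exact hk1'
    · rw [← ht]
      exact (hF1 t).1

/-- Let `b ≠ b'` be factorizations of `h`. Choose `k` with `b_k < b'_k`. The monomial `b + e_k` has
degree `h + a_k ∈ L` (it is in `H` and not in `E`). Choose `d ≤ b + e_k` with degree in `L` and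
`∑ d_i` minimal. If `d_i > 0` then `deg d - a_i` is in `H` and not in `L` so in `E`. By
`card_K_le_one` the support of `d` is one point `{i}` (it is not empty as `0 ∉ L`). If `i ≠ k` then
`d ≤ b` and `deg d ∈ E`, contradiction; if `i = k` then `d_k ≤ b_k + 1 ≤ b'_k` so
`d ≤ b'` and `deg d ∈ E`, contradiction. (`E` and `L` are disjoint: `ArithPF.not_mem_of_E`.) -/
theorem unique_of_n_alpha {n : ℕ} (hn : 3 ≤ n) {a : Fin n → ℕ} {h α : ℤ} (ha : IsMinGen a)
    (hp : ArithPF a h α) (hnα : (n : ℤ) * α ∈ sgp a) (b b' : Fin n → ℕ)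
    (hb : h = ∑ i, (b i : ℤ) * a i) (hb' : h = ∑ i, (b' i : ℤ) * a i) : b = b' := by
  classical
  by_contra hbb
  have hex : ∃ k, b k < b' k := by
    by_contra hall
    push Not at hall
    apply hbb
    funext i
    by_contra hne
    have hlt : b' i < b i := lt_of_le_of_ne (hall i) (Ne.symm hne)
    have h1 : ∑ i, (b' i : ℤ) * a i < ∑ i, (b i : ℤ) * a i := by
      refine Finset.sum_lt_sum (fun j _ => ?_) ⟨i, Finset.mem_univ i, ?_⟩
      · exact mul_le_mul_of_nonneg_right (by exact_mod_cast hall j) (by positivity)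
      · exact mul_lt_mul_of_pos_right (by exact_mod_cast hlt)
          (by exact_mod_cast nalpha_pos ha i)
    rw [← hb, ← hb'] at h1
    exact lt_irrefl _ h1
  obtain ⟨k, hk⟩ := hex
  set deg : (Fin n → ℕ) → ℤ := fun d => ∑ i, (d i : ℤ) * a i with hdeg
  have hdegm : ∀ d, deg d ∈ sgp a := fun d => (mem_sgp_iff a _).mpr ⟨d, rfl⟩
  have hdeg_sub : ∀ c d : Fin n → ℕ, (∀ i, d i ≤ c i) → deg c - deg d ∈ sgp a := by
    intro c d hdc
    refine (mem_sgp_iff a _).mpr ⟨fun i => c i - d i, ?_⟩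
    simp only [hdeg]
    rw [← Finset.sum_sub_distrib]
    refine Finset.sum_congr rfl fun i _ => ?_
    rw [Nat.cast_sub (hdc i)]
    ring
  -- the monomial b + e_k
  set B : Fin n → ℕ := fun i => if i = k then b i + 1 else b i with hB
  have hdegB : deg B = h + a k := by
    simp only [hdeg, hB]
    rw [hb, ← Finset.add_sum_erase _ _ (Finset.mem_univ k),
      ← Finset.add_sum_erase _ _ (Finset.mem_univ k), if_pos rfl]
    have h1 : ∑ x ∈ Finset.univ.erase k, ((if x = k then b x + 1 else b x : ℕ) : ℤ) * a x =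
        ∑ x ∈ Finset.univ.erase k, (b x : ℤ) * a x := by
      refine Finset.sum_congr rfl fun x hx => ?_
      rw [if_neg (Finset.ne_of_mem_erase hx)]
    rw [h1]
    push_cast
    ring
  have hBL : deg B + α ∈ sgp a := by
    rcases hp.E_or_L ha.1 (hdegm B) with h1 | h1
    · exfalso
      rw [hdegB] at h1
      have h2 := nonneg_of_mem_sgp a h1
      have h3 : (0 : ℤ) < a k := by exact_mod_cast nalpha_pos ha k
      linarith
    · exact h1
  have hP : ∃ N : ℕ, ∃ d : Fin n → ℕ, (∀ i, d i ≤ B i) ∧ deg d + α ∈ sgp a ∧ ∑ i, d i = N :=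
    ⟨_, B, fun _ => le_rfl, hBL, rfl⟩
  obtain ⟨d, hdB, hdL, hdN⟩ := Nat.find_spec hP
  have hmin : ∀ d' : Fin n → ℕ, (∀ i, d' i ≤ B i) → deg d' + α ∈ sgp a →
      ∑ i, d i ≤ ∑ i, d' i := by
    intro d' h1 h2
    rw [hdN]
    exact Nat.find_min' hP ⟨d', h1, h2, rfl⟩
  -- one removes a generator
  have hK : ∀ i, d i ≠ 0 → deg d - a i ∈ sgp a ∧ h - (deg d - a i) ∈ sgp a := by
    intro i hi
    set d1 : Fin n → ℕ := fun j => if j = i then d j - 1 else d j with hd1
    have hle : ∀ j, d1 j ≤ d j := by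
      intro j
      simp only [hd1]
      split_ifs
      · omega
      · exact le_rfl
    have hdeg1 : deg d1 = deg d - a i := by
      simp only [hdeg, hd1]
      rw [← Finset.add_sum_erase _ _ (Finset.mem_univ i),
        ← Finset.add_sum_erase _ _ (Finset.mem_univ i), if_pos rfl,
        Nat.cast_sub (Nat.one_le_iff_ne_zero.mpr hi)]
      have h1 : ∑ x ∈ Finset.univ.erase i, ((if x = i then d x - 1 else d x : ℕ) : ℤ) * a x =
          ∑ x ∈ Finset.univ.erase i, (d x : ℤ) * a x := by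
        refine Finset.sum_congr rfl fun x hx => ?_
        rw [if_neg (Finset.ne_of_mem_erase hx)]
      rw [h1]
      push_cast
      ring
    rw [← hdeg1]
    refine ⟨hdegm d1, ?_⟩
    rcases hp.E_or_L ha.1 (hdegm d1) with h1 | h1
    · exact h1
    · exfalso
      have h2 := hmin d1 (fun j => (hle j).trans (hdB j)) h1
      have h3 : ∑ j, d1 j < ∑ j, d j := by
        refine Finset.sum_lt_sum (fun j _ => hle j) ⟨i, Finset.mem_univ i, ?_⟩
        simp only [hd1, if_pos rfl]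
        omega
      omega
  have hdne : ∃ i, d i ≠ 0 := by
    by_contra hall
    push Not at hall
    have : deg d = 0 := by
      simp only [hdeg]
      exact Finset.sum_eq_zero fun i _ => by rw [hall i]; simp
    rw [this, zero_add] at hdL
    exact hp.alpha_not_mem hn hdL
  obtain ⟨i, hi⟩ := hdne
  have hsupp : ∀ j, j ≠ i → d j = 0 := by
    intro j hj
    by_contra hdj
    exact hj (card_K_le_one hn ha hp hnα (hdegm d) hdL (hK j hdj).1 (hK j hdj).2 (hK i hi).1
      (hK i hi).2)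
  have hfin : ∀ c : Fin n → ℕ, h = deg c → (∀ j, d j ≤ c j) → False := by
    intro c hc hdc
    have h1 : h - deg d ∈ sgp a := by
      rw [hc]
      exact hdeg_sub c d hdc
    have h2 := hp.not_mem_of_E h1 (j := 1) le_rfl (by omega)
    apply h2
    rw [Nat.cast_one, one_mul]
    exact hdL
  by_cases hik : i = k
  · refine hfin b' hb' fun j => ?_
    by_cases hj : j = i
    · have h1 := hdB i
      simp only [hB, if_pos hik] at h1
      rw [hj]
      rw [hik] at h1 ⊢
      omega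
    · rw [hsupp j hj]
      exact Nat.zero_le _
  · refine hfin b hb fun j => ?_
    by_cases hj : j = i
    · have h1 := hdB i
      simp only [hB, if_neg hik] at h1
      rw [hj]
      exact h1
    · rw [hsupp j hj]
      exact Nat.zero_le _

end Pool.Agent.NumSgp
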