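import Pool.Agent.Lib_MP_c084f5_al.Arith

/-!
# Piece C5: the element `h + nα`
-/

namespace Pool.Agent.NumSgp

/-- Sum of the relations: `h + nα = ∑ (m_i - 1) a_i`. -/
theorem N_eq {n : ℕ} {a : Fin n → ℕ} {h α : ℤ} (π : Equiv.Perm (Fin n)) (c m : Fin n → ℕ)
    (hc : h = ∑ i, (c i : ℤ) * a i)
    (hrel : ∀ i, ((c i : ℤ) + 1) * a i + α = m (π i) * a (π i)) :
    h + n * α = ∑ i, ((m i : ℤ) - 1) * a i := by
  have h1 : ∑ i, (((c i : ℤ) + 1) * a i + α) = ∑ i, (m i : ℤ) * a i := by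
    rw [← Equiv.sum_comp π (fun i => (m i : ℤ) * a i)]
    exact Finset.sum_congr rfl (fun i _ => hrel i)
  have h2 : ∑ i, (((c i : ℤ) + 1) * a i + α) =
      ∑ i, (c i : ℤ) * a i + ∑ i, (a i : ℤ) + n * α := by
    rw [Finset.sum_add_distrib, Finset.sum_const, Finset.card_univ, Fintype.card_fin,
      nsmul_eq_mul, ← Finset.sum_add_distrib]
    congr 1
    exact Finset.sum_congr rfl (fun i _ => by ring)
  have h3 : ∑ i, ((m i : ℤ) - 1) * a i = ∑ i, (m i : ℤ) * a i - ∑ i, (a i : ℤ) := by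
    rw [← Finset.sum_sub_distrib]
    exact Finset.sum_congr rfl (fun i _ => by ring)
  rw [h3, ← h1, h2, hc]
  ring

/-- If a factorization `b` of `x` has `b_i < m_i` for all `i` then `x - α ∉ H`:
`h + nα - x = ∑ (m_i - 1 - b_i) a_i ∈ H`, so `x - α ∈ H` would give `h + (n-1)α ∈ H`. -/
theorem sub_alpha_not_mem {n : ℕ} (hn : 3 ≤ n) {a : Fin n → ℕ} {h α : ℤ}
    (hp : ArithPF a h α) (π : Equiv.Perm (Fin n)) (c m : Fin n → ℕ)
    (hc : h = ∑ i, (c i : ℤ) * a i)
    (hrel : ∀ i, ((c i : ℤ) + 1) * a i + α = m (π i) * a (π i)) (b : Fin n → ℕ)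
    (hb : ∀ i, b i < m i) : (∑ i, (b i : ℤ) * a i) - α ∉ sgp a := by
  intro hx
  have h1 : h + n * α - ∑ i, (b i : ℤ) * a i ∈ sgp a := by
    rw [mem_sgp_iff]
    refine ⟨fun i => m i - 1 - b i, ?_⟩
    rw [N_eq π c m hc hrel, ← Finset.sum_sub_distrib]
    apply Finset.sum_congr rfl
    intro i _
    have := hb i
    have e : ((m i - 1 - b i : ℕ) : ℤ) = (m i : ℤ) - 1 - b i := by omega
    rw [e]
    ring
  have h2 := (sgp a).add_mem h1 hx
  have h3 : h + n * α - ∑ i, (b i : ℤ) * a i + (∑ i, (b i : ℤ) * a i - α) =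
      h + ((n - 1 : ℕ) : ℤ) * α := by
    have e : ((n - 1 : ℕ) : ℤ) = (n : ℤ) - 1 := by omega
    rw [e]
    ring
  rw [h3] at h2
  exact hp.not_mem_h (by omega) (by omega) h2

/-- `h + nα` has only the factorization `m - 1`. Proof: let `b` be a factorization. If
`b_k ≥ m_k` for some `k`, write `k = π j`; then `h + nα - m_k a_k ∈ H` and
`m_k a_k = (c_j + 1) a_j + α`, so `h + (n-1)α ∈ H`, contradiction. So `b_k ≤ m_k - 1` for all
`k` and as the sums `∑ b_i a_i = ∑ (m_i - 1) a_i` agree and `a_i > 0`, `b_k = m_k - 1`. -/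
theorem N_unique {n : ℕ} (hn : 3 ≤ n) {a : Fin n → ℕ} {h α : ℤ} (ha : ∀ i, 0 < a i)
    (hp : ArithPF a h α) (π : Equiv.Perm (Fin n)) (c m : Fin n → ℕ)
    (hc : h = ∑ i, (c i : ℤ) * a i)
    (hrel : ∀ i, ((c i : ℤ) + 1) * a i + α = m (π i) * a (π i)) (b : Fin n → ℕ)
    (hb : h + n * α = ∑ i, (b i : ℤ) * a i) : ∀ i, b i + 1 = m i := by
  have hlt : ∀ k, b k < m k := by
    intro k
    by_contra hk
    push Not at hk
    obtain ⟨j, rfl⟩ := π.surjective k
    have h1 : h + n * α - m (π j) * a (π j) ∈ sgp a := by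
      rw [mem_sgp_iff]
      refine ⟨fun i => b i - if i = π j then m (π j) else 0, ?_⟩
      have e : ∀ i, ((b i - (if i = π j then m (π j) else 0) : ℕ) : ℤ) * a i =
          (b i : ℤ) * a i - if i = π j then (m (π j) : ℤ) * a (π j) else 0 := by
        intro i
        split_ifs with hi
        · subst hi
          rw [Nat.cast_sub hk]
          ring
        · simp
      rw [Finset.sum_congr rfl (fun i _ => e i), Finset.sum_sub_distrib, ← hb]
      simp
    have h2 : ((c j : ℤ) + 1) * a j ∈ sgp a := by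
      rw [mem_sgp_iff]
      refine ⟨fun i => if i = j then c j + 1 else 0, ?_⟩
      have e : ∀ i, (((if i = j then c j + 1 else 0 : ℕ)) : ℤ) * a i =
          if i = j then ((c j : ℤ) + 1) * a j else 0 := by
        intro i
        split_ifs with hi
        · subst hi
          push_cast
          ring
        · simp
      rw [Finset.sum_congr rfl (fun i _ => e i)]
      simp
    have h3 := (sgp a).add_mem h1 h2
    have h4 : h + n * α - m (π j) * a (π j) + ((c j : ℤ) + 1) * a j =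
        h + ((n - 1 : ℕ) : ℤ) * α := by
      have e : ((n - 1 : ℕ) : ℤ) = (n : ℤ) - 1 := by omega
      rw [e, ← hrel j]
      ring
    rw [h4] at h3
    exact hp.not_mem_h (by omega) (by omega) h3
  have hsum : ∑ i, (((m i : ℤ) - 1) - b i) * a i = 0 := by
    have h1 := N_eq π c m hc hrel
    rw [hb] at h1
    have h2 : ∑ i, (((m i : ℤ) - 1) - b i) * a i =
        ∑ i, ((m i : ℤ) - 1) * a i - ∑ i, (b i : ℤ) * a i := by
      rw [← Finset.sum_sub_distrib]
      exact Finset.sum_congr rfl (fun i _ => by ring)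
    rw [h2, h1, sub_self]
  have hz := (Finset.sum_eq_zero_iff_of_nonneg (fun i _ => by
    have := hlt i
    have h5 : (0 : ℤ) ≤ (m i : ℤ) - 1 - b i := by omega
    positivity)).1 hsum
  intro i
  have h6 := hz i (Finset.mem_univ i)
  have h7 : (a i : ℤ) ≠ 0 := by exact_mod_cast (ha i).ne'
  rcases mul_eq_zero.1 h6 with h8 | h8
  · omega
  · exact absurd h8 h7

/-- An `x ∈ H` with `x - α ∉ H` has at most one factorization: `h + nα - x ∈ H` by
`ArithPF.D_dvd`; add a factorization of it and use `N_unique`. -/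
theorem unique_of_sub_not_mem {n : ℕ} (hn : 3 ≤ n) {a : Fin n → ℕ} {h α : ℤ} (ha : IsMinGen a)
    (ha' : ∀ i, 0 < a i)
    (hp : ArithPF a h α) (π : Equiv.Perm (Fin n)) (c m : Fin n → ℕ)
    (hc : h = ∑ i, (c i : ℤ) * a i)
    (hrel : ∀ i, ((c i : ℤ) + 1) * a i + α = m (π i) * a (π i)) (b b' : Fin n → ℕ)
    (hbb : ∑ i, (b i : ℤ) * a i = ∑ i, (b' i : ℤ) * a i)
    (hx : (∑ i, (b i : ℤ) * a i) - α ∉ sgp a) : b = b' := by
  have hmem : (∑ i, (b i : ℤ) * a i) ∈ sgp a := (mem_sgp_iff a _).2 ⟨b, rfl⟩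
  have h1 := hp.D_dvd ha.1 hmem hx
  obtain ⟨d, hd⟩ := (mem_sgp_iff a _).1 h1
  have h2 : h + n * α = ∑ i, ((b i + d i : ℕ) : ℤ) * a i := by
    have e : ∑ i, ((b i + d i : ℕ) : ℤ) * a i = ∑ i, (b i : ℤ) * a i + ∑ i, (d i : ℤ) * a i := by
      rw [← Finset.sum_add_distrib]
      exact Finset.sum_congr rfl (fun i _ => by push_cast; ring)
    rw [e, ← hd]
    ring
  have h3 : h + n * α = ∑ i, ((b' i + d i : ℕ) : ℤ) * a i := by
    have e : ∑ i, ((b' i + d i : ℕ) : ℤ) * a i = ∑ i, (b' i : ℤ) * a i + ∑ i, (d i : ℤ) * a i := by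
      rw [← Finset.sum_add_distrib]
      exact Finset.sum_congr rfl (fun i _ => by push_cast; ring)
    rw [e, ← hd, hbb]
    ring
  have h4 := N_unique hn ha' hp π c m hc hrel _ h2
  have h5 := N_unique hn ha' hp π c m hc hrel _ h3
  funext i
  have h6 := h4 i
  have h7 := h5 i
  omega

end Pool.Agent.NumSgp
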