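import Pool.Agent.Lib_MP_c084f5_al.Defs

/-!
# Piece A1: weighted homogeneous polynomials and the map `X_i ↦ t^(a_i)`
-/

namespace Pool.Agent.NumSgp

open MvPolynomial

/-- Evaluation at the point `(1,..,1)`: the sum of the coefficients. -/
noncomputable def evalOne (k : Type*) [Field k] (n : ℕ) : MvPolynomial (Fin n) k →ₐ[k] k :=
  aeval fun _ => (1 : k)

theorem toricMap_monomial {k : Type*} [Field k] {n : ℕ} (a : Fin n → ℕ) (u : Fin n →₀ ℕ) (c : k) :
    toricMap k a (monomial u c) = Polynomial.C c * Polynomial.X ^ (Finsupp.weight a u) := by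
  rw [toricMap, aeval_monomial, Finsupp.prod_fintype _ _ (fun i => pow_zero _)]
  have h1 : ∏ i, ((Polynomial.X : Polynomial k) ^ a i) ^ u i = Polynomial.X ^ (Finsupp.weight a u) := by
    have h2 : (u.sum fun i c => c • a i) = ∑ i, u i • a i :=
      Finsupp.sum_fintype _ _ (fun i => by rw [zero_smul])
    rw [Finsupp.weight_apply, h2, ← Finset.prod_pow_eq_pow_sum]
    refine Finset.prod_congr rfl fun i _ => ?_
    rw [← pow_mul, smul_eq_mul, mul_comm]
  rw [h1, Polynomial.algebraMap_eq]

theorem evalOne_monomial' {k : Type*} [Field k] {n : ℕ} (u : Fin n →₀ ℕ) (c : k) :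
    evalOne k n (monomial u c) = c := by
  rw [evalOne, aeval_monomial]
  simp

/-- F1. A weighted homogeneous `f` of degree `d` maps to `f(1,..,1) * t^d`.
Proof: on a monomial `c X^u` with `∑ u_i a_i = d` both sides are `c t^d`; then sum over the
support. -/
theorem toricMap_of_isWH {k : Type*} [Field k] {n : ℕ} (a : Fin n → ℕ)
    {f : MvPolynomial (Fin n) k} {d : ℕ} (hf : IsWeightedHomogeneous a f d) :
    toricMap k a f = Polynomial.C (evalOne k n f) * Polynomial.X ^ d := by
  have h1 : toricMap k a f = ∑ u ∈ f.support, Polynomial.C (coeff u f) * Polynomial.X ^ d := by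
    conv_lhs => rw [← support_sum_monomial_coeff f]
    rw [map_sum]
    refine Finset.sum_congr rfl fun u hu => ?_
    rw [toricMap_monomial, hf (mem_support_iff.mp hu)]
  have h2 : evalOne k n f = ∑ u ∈ f.support, coeff u f := by
    conv_lhs => rw [← support_sum_monomial_coeff f]
    rw [map_sum]
    exact Finset.sum_congr rfl fun u _ => evalOne_monomial' _ _
  rw [h1, h2, map_sum, Finset.sum_mul]

/-- F2. -/
theorem mem_toricIdeal_iff_of_isWH {k : Type*} [Field k] {n : ℕ} (a : Fin n → ℕ)
    {f : MvPolynomial (Fin n) k} {d : ℕ} (hf : IsWeightedHomogeneous a f d) :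
    f ∈ toricIdeal k a ↔ evalOne k n f = 0 := by
  rw [toricIdeal, RingHom.mem_ker, toricMap_of_isWH a hf, mul_eq_zero,
    or_iff_left (pow_ne_zero _ Polynomial.X_ne_zero), Polynomial.C_eq_zero]

/-- Evaluation at `(1,..,1)` factors through `t ↦ 1`, so it kills the defining ideal. -/
theorem evalOne_of_mem {k : Type*} [Field k] {n : ℕ} (a : Fin n → ℕ)
    {f : MvPolynomial (Fin n) k} (hf : f ∈ toricIdeal k a) : evalOne k n f = 0 := by
  have h1 : evalOne k n = (Polynomial.aeval (1 : k)).comp (toricMap k a) := by
    apply MvPolynomial.algHom_ext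
    intro i
    rw [evalOne, aeval_X, AlgHom.comp_apply, toricMap, aeval_X, map_pow, Polynomial.aeval_X, one_pow]
  have h2 : toricMap k a f = 0 := hf
  rw [h1, AlgHom.comp_apply, h2, map_zero]

/-- The coefficients of the image are the values of the components at `(1,..,1)`. -/
theorem coeff_toricMap {k : Type*} [Field k] {n : ℕ} (a : Fin n → ℕ)
    (f : MvPolynomial (Fin n) k) (d : ℕ) :
    (toricMap k a f).coeff d = evalOne k n (weightedHomogeneousComponent a d f) := by
  induction f using MvPolynomial.induction_on' with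
  | monomial u c =>
    have hu : IsWeightedHomogeneous a (monomial u c) (Finsupp.weight a u) :=
      isWeightedHomogeneous_monomial a u c rfl
    rw [toricMap_monomial, Polynomial.coeff_C_mul, Polynomial.coeff_X_pow]
    by_cases hd : d = Finsupp.weight a u
    · rw [hd, hu.weightedHomogeneousComponent_same, evalOne_monomial', if_pos rfl, mul_one]
    · rw [hu.weightedHomogeneousComponent_ne d hd, map_zero, if_neg hd, mul_zero]
  | add p q hp hq =>
    rw [map_add, Polynomial.coeff_add, hp, hq, map_add, map_add]

/-- The defining ideal is graded: by F1 the image of `f = ∑_d f_d` is `∑_d f_d(1,..,1) t^d`; if it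
vanishes then all `f_d(1,..,1)` vanish and F2 gives the claim. -/
theorem component_mem_toricIdeal {k : Type*} [Field k] {n : ℕ} (a : Fin n → ℕ)
    {f : MvPolynomial (Fin n) k} (hf : f ∈ toricIdeal k a) (d : ℕ) :
    weightedHomogeneousComponent a d f ∈ toricIdeal k a := by
  rw [mem_toricIdeal_iff_of_isWH a (weightedHomogeneousComponent_isWeightedHomogeneous d f),
    ← coeff_toricMap]
  have h2 : toricMap k a f = 0 := hf
  rw [h2, Polynomial.coeff_zero]

end Pool.Agent.NumSgp
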