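import Pool.Agent.Lib_MP_c084f5_al.Unique
import Pool.Agent.Lib_MP_c084f5_al.NSide
import Pool.Agent.Lib_MP_c084f5_al.IdealOfMoves
import Pool.Agent.Lib_MP_c084f5_al.NAlpha
import Pool.Agent.Lib_MP_c084f5_al.DetIffMonomial

/-!
# Theorem C: (3) and unique factorization of `h` imply (2)
-/

namespace Pool.Agent.NumSgp

theorem cond2_of_arith_unique (k : Type*) [Field k] {n : ℕ} (hn : 3 ≤ n) {a : Fin n → ℕ}
    (ha : IsMinGen a) {h α : ℤ} (hp : ArithPF a h α)
    (huniq : ∀ c c' : Fin n → ℕ, h = ∑ i, (c i : ℤ) * a i → h = ∑ i, (c' i : ℤ) * a i → c = c') :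
    Cond2 k a := by
  obtain ⟨c, hc⟩ := (mem_sgp_iff a h).1 (hp.h_mem hn ha.1)
  obtain ⟨π, m, hπ, hm, hrel⟩ := pure_relations hn ha hp c hc fun c' hc' => huniq _ _ hc' hc
  have hrel' : ∀ i, (((c i + 1 : ℕ)) : ℤ) * a i + α = m (π i) * a (π i) := by
    intro i
    rw [← hrel i]
    push_cast
    ring
  refine cond2_of_perm a π hπ (fun i => c i + 1) m (fun i => Nat.succ_pos _) hm ?_
  refine toricIdeal_eq_of_connected a α π (fun i => c i + 1) m hrel' ?_
  refine connected a ha.pos α hp.1 π (fun i => c i + 1) m hrel' (sgp a : Set ℤ) ?_ ?_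
  · intro b b' hbb hx
    exact unique_of_sub_not_mem hn ha ha.pos hp π c m hc hrel b b' hbb hx
  · intro b hb
    exact sub_alpha_not_mem hn hp π c m hc hrel b hb

theorem cond2_of_arith_n_alpha (k : Type*) [Field k] {n : ℕ} (hn : 3 ≤ n) {a : Fin n → ℕ}
    (ha : IsMinGen a) {h α : ℤ} (hp : ArithPF a h α) (hnα : (n : ℤ) * α ∈ sgp a) :
    Cond2 k a :=
  cond2_of_arith_unique k hn ha hp fun c c' hc hc' => unique_of_n_alpha hn ha hp hnα c c' hc hc'

end Pool.Agent.NumSgp
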